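import Pool.Agent.Helper611.BS.G1

set_option autoImplicit false

namespace Pool.H34.LP
open MeasureTheory
noncomputable section

lemma int_lin (p q k : ℝ) : ∫ x in p..q, (k - x) = k * (q - p) - (q ^ 2 - p ^ 2) / 2 := by
  have h1 : IntervalIntegrable (fun x : ℝ => x) volume p q := continuous_id.intervalIntegrable _ _
  rw [intervalIntegral.integral_sub intervalIntegrable_const h1, intervalIntegral.integral_const,
    integral_id, smul_eq_mul]
  ring

lemma rhinge (a y c t : ℝ) (hay : a < y) (ht : 0 ≤ t) (h : ℝ → ℝ)
    (hl : ∀ x ∈ Set.Icc a y, ∀ z ∈ Set.Icc a y, |h x - h z| ≤ |x - z|)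
    (hI : ∫ x in a..y, h x ≤ ∫ x in a..y, (c - x)) :
    ∫ x in a..y, max (h x - t) 0 ≤ ∫ x in a..y, max (|x - c| - t) 0 := by
  have hcont : ContinuousOn h (Set.Icc a y) := by
    intro x hx
    rw [Metric.continuousWithinAt_iff]
    intro ε hε
    refine ⟨ε, hε, fun {z} hz hzx => ?_⟩
    rw [Real.dist_eq] at hzx ⊢
    exact lt_of_le_of_lt (hl z hz x hx) hzx
  have hcont' : ContinuousOn h (Set.uIcc a y) := by rwa [Set.uIcc_of_le hay.le]
  have hint : IntervalIntegrable h volume a y := hcont'.intervalIntegrable
  set L : ℝ := y - a with hL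
  have hLpos : 0 < L := sub_pos.mpr hay
  set r : ℝ := c - t - a with hr
  have hcx : ∫ x in a..y, (c - x) = r * L - L ^ 2 / 2 + t * L := by
    rw [int_lin, hr, hL]
    ring
  have hcW : Continuous (fun x : ℝ => max (c - x - t) 0) :=
    ((continuous_const.sub continuous_id).sub continuous_const).max continuous_const
  have hcR : Continuous (fun x : ℝ => max (|x - c| - t) 0) :=
    (((continuous_id.sub continuous_const).abs).sub continuous_const).max continuous_const
  set W : ℝ := ∫ x in a..y, max (c - x - t) 0 with hW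
  have hWR : W ≤ ∫ x in a..y, max (|x - c| - t) 0 := by
    apply intervalIntegral.integral_mono_on hay.le (hcW.intervalIntegrable _ _)
      (hcR.intervalIntegrable _ _)
    intro x _
    apply max_le_max _ le_rfl
    have := neg_abs_le (x - c)
    linarith
  have hW1 : r * L - L ^ 2 / 2 ≤ W := by
    have e : r * L - L ^ 2 / 2 = ∫ x in a..y, (c - x - t) := by
      have e2 : ∀ x : ℝ, c - x - t = (c - t) - x := fun x => by ring
      simp only [e2]
      rw [int_lin, hr, hL]
      ring
    rw [e]
    apply intervalIntegral.integral_mono_on hay.le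
      (((continuous_const.sub continuous_id).sub continuous_const).intervalIntegrable _ _)
      (hcW.intervalIntegrable _ _)
    intro x _
    exact le_max_left _ _
  have hW0 : 0 ≤ W := intervalIntegral.integral_nonneg hay.le (fun x _ => le_max_right _ _)
  refine le_trans ?_ hWR
  -- the three cases
  by_cases hall : ∀ x ∈ Set.Icc a y, t ≤ h x
  · have e : ∫ x in a..y, max (h x - t) 0 = ∫ x in a..y, (h x - t) := by
      apply intervalIntegral.integral_congr
      intro x hx
      rw [Set.uIcc_of_le hay.le] at hx
      exact max_eq_left (by linarith [hall x hx])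
    rw [e, intervalIntegral.integral_sub hint intervalIntegrable_const,
      intervalIntegral.integral_const, smul_eq_mul, ← hL]
    rw [hcx] at hI
    nlinarith
  by_cases hnone : ∀ x ∈ Set.Icc a y, h x ≤ t
  · have e : ∫ x in a..y, max (h x - t) 0 = 0 := by
      rw [intervalIntegral.integral_congr (g := fun _ => (0 : ℝ))]
      · simp
      · intro x hx
        rw [Set.uIcc_of_le hay.le] at hx
        exact max_eq_right (by linarith [hnone x hx])
    rw [e]
    exact hW0
  push Not at hall hnone
  obtain ⟨x1, hx1, hgx1⟩ := hall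
  obtain ⟨x2, hx2, hgx2⟩ := hnone
  obtain ⟨ξ, hξ, hgξ⟩ : ∃ x ∈ Set.Icc a y, h x = t :=
    (isPreconnected_Icc.intermediate_value hx1 hx2 hcont) ⟨hgx1.le, hgx2.le⟩
  have h1 := Pool.H611.BS.tri_bound a y hay (fun x => max (h x - t) 0)
    (fun x hx z hz => by
      refine (abs_max_sub_max_le_abs _ _ _).trans ?_
      have : h x - t - (h z - t) = h x - h z := by ring
      rw [this]
      exact hl x hx z hz)
    (fun x _ => le_max_right _ _) ξ hξ (by simp only [hgξ]; simp)
  have h2 := Pool.H611.BS.tri_bound a y hay (fun x => max (t - h x) 0)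
    (fun x hx z hz => by
      refine (abs_max_sub_max_le_abs _ _ _).trans ?_
      have : t - h x - (t - h z) = h z - h x := by ring
      rw [this, abs_sub_comm]
      exact hl x hx z hz)
    (fun x _ => le_max_right _ _) ξ hξ (by simp only [hgξ]; simp)
  set H : ℝ := ∫ x in a..y, max (h x - t) 0 with hh
  have hH0 : 0 ≤ H := intervalIntegral.integral_nonneg hay.le (fun x _ => le_max_right _ _)
  have hcontu1 : ContinuousOn (fun x => max (h x - t) 0) (Set.uIcc a y) :=
    (hcont'.sub continuousOn_const).sup continuousOn_const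
  have hintu1 : IntervalIntegrable (fun x => max (h x - t) 0) volume a y :=
    hcontu1.intervalIntegrable
  have hu2 : ∫ x in a..y, max (t - h x) 0 = t * (y - a) - (∫ x in a..y, h x) + H := by
    have e1 : ∀ x, max (t - h x) 0 = (t - h x) + max (h x - t) 0 := by
      intro x
      rcases le_total (h x) t with hle | hle
      · rw [max_eq_left (by linarith), max_eq_right (by linarith)]; ring
      · rw [max_eq_right (by linarith), max_eq_left (by linarith)]; ring
    simp only [e1]
    rw [intervalIntegral.integral_add (intervalIntegrable_const.sub hint) hintu1,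
      intervalIntegral.integral_sub intervalIntegrable_const hint,
      intervalIntegral.integral_const, smul_eq_mul, ← hh]
    ring
  rw [hu2] at h2
  set A : Set ℝ := {x | x ∈ Set.Icc a y ∧ 0 < max (h x - t) 0} with hA
  set B : Set ℝ := {x | x ∈ Set.Icc a y ∧ 0 < max (t - h x) 0} with hB
  have hAB : (volume A).toReal + (volume B).toReal ≤ y - a := by
    have hAm : MeasurableSet A := by
      have hcl : IsClosed (Set.Icc a y ∩ h ⁻¹' Set.Iic t) :=
        hcont.preimage_isClosed_of_isClosed isClosed_Icc isClosed_Iic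
      have : A = Set.Icc a y \ (Set.Icc a y ∩ h ⁻¹' Set.Iic t) := by
        ext x
        simp only [hA, Set.mem_sdiff, Set.mem_inter_iff, Set.mem_preimage, Set.mem_Iic, not_and,
          not_le, lt_max_iff, lt_irrefl, or_false, sub_pos]
        constructor
        · rintro ⟨p, q⟩; exact ⟨p, fun _ => q⟩
        · rintro ⟨p, q⟩; exact ⟨p, q p⟩
      rw [this]
      exact measurableSet_Icc.diff hcl.measurableSet
    have hdisj : Disjoint A B := by
      rw [Set.disjoint_left]
      rintro x ⟨_, hx⟩ ⟨_, hx'⟩
      rw [lt_max_iff] at hx hx'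
      rcases hx with hx | hx
      · rcases hx' with hx' | hx'
        · linarith
        · exact lt_irrefl _ hx'
      · exact lt_irrefl _ hx
    have hsub : A ∪ B ⊆ Set.Icc a y := by
      rintro x (hx | hx)
      · exact hx.1
      · exact hx.1
    have hle : volume A + volume B ≤ ENNReal.ofReal (y - a) := by
      rw [← measure_union' hdisj hAm, ← Real.volume_Icc]
      exact measure_mono hsub
    have hAfin : volume A ≠ ⊤ := ne_top_of_le_ne_top ENNReal.ofReal_ne_top
      (le_self_add.trans hle)
    have hBfin : volume B ≠ ⊤ := ne_top_of_le_ne_top ENNReal.ofReal_ne_top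
      (le_add_self.trans hle)
    rw [← ENNReal.toReal_add hAfin hBfin, ← ENNReal.toReal_ofReal (sub_pos.mpr hay).le]
    exact ENNReal.toReal_mono ENNReal.ofReal_ne_top hle
  set m : ℝ := (volume A).toReal with hm
  set m' : ℝ := (volume B).toReal with hm'
  have hm0 : 0 ≤ m := ENNReal.toReal_nonneg
  have hm0' : 0 ≤ m' := ENNReal.toReal_nonneg
  rw [← hL] at hAB h2
  rw [hcx] at hI
  set ρ : ℝ := Real.sqrt (2 * H) with hρ
  have hρ2 : ρ ^ 2 = 2 * H := Real.sq_sqrt (by linarith)
  have hρ0 : 0 ≤ ρ := Real.sqrt_nonneg _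
  have hρm : ρ ≤ m := by
    apply le_of_sq_le_sq _ hm0
    rw [hρ2]
    linarith
  have h3 : m' ^ 2 ≤ (L - m) ^ 2 := pow_le_pow_left₀ hm0' (by linarith) 2
  have h4 : (L - m) ^ 2 ≤ (L - ρ) ^ 2 := pow_le_pow_left₀ (by linarith) (by linarith) 2
  have h5 : L * ρ ≤ L * r := by nlinarith
  have h6 : ρ ≤ r := le_of_mul_le_mul_left h5 hLpos
  rcases le_or_gt r L with hrL | hrL
  · -- W is at least r^2/2
    have hW2 : r ^ 2 / 2 ≤ W := by
      have e : r ^ 2 / 2 = ∫ x in a..(a + r), (c - x - t) := by
        have e2 : ∀ x : ℝ, c - x - t = (c - t) - x := fun x => by ring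
        simp only [e2]
        rw [int_lin, hr]
        ring
      have hr0 : 0 ≤ r := hρ0.trans h6
      rw [e, hW, ← intervalIntegral.integral_add_adjacent_intervals (b := a + r)
        (hcW.intervalIntegrable _ _) (hcW.intervalIntegrable _ _)]
      have f1 : ∫ x in a..(a + r), (c - x - t) ≤ ∫ x in a..(a + r), max (c - x - t) 0 := by
        apply intervalIntegral.integral_mono_on (by linarith)
          (((continuous_const.sub continuous_id).sub continuous_const).intervalIntegrable _ _)
          (hcW.intervalIntegrable _ _)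
        intro x _
        exact le_max_left _ _
      have f2 : 0 ≤ ∫ x in (a + r)..y, max (c - x - t) 0 :=
        intervalIntegral.integral_nonneg (by linarith) (fun x _ => le_max_right _ _)
      linarith
    have h7 : ρ ^ 2 ≤ r ^ 2 := pow_le_pow_left₀ hρ0 h6 2
    linarith
  · have hmL : m ≤ L := by linarith
    have h7 : ρ ^ 2 ≤ L ^ 2 := pow_le_pow_left₀ hρ0 (hρm.trans hmL) 2
    nlinarith

end
end Pool.H34.LP
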