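import Pool.Agent.Helper611.BS.G1

/-! Piece LP2 (by helper27): the truncated integral of a nonnegative 1-Lipschitz function with a zero at the
right end. -/

set_option autoImplicit false

namespace Pool.H34.LP
open MeasureTheory
noncomputable section

lemma trapz_cont (μ x0 w t : ℝ) (h1 : μ < x0) (hw : 0 ≤ w) (ht : 0 ≤ t) (v : ℝ → ℝ) (hv : Continuous v)
    (hl : ∀ x ∈ Set.Icc μ x0, ∀ z ∈ Set.Icc μ x0, |v x - v z| ≤ |x - z|)
    (h0 : ∀ x ∈ Set.Icc μ x0, 0 ≤ v x) (hz : v x0 = 0) (hI : ∫ x in μ..x0, v x ≤ w ^ 2 / 2) :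
    ∫ x in μ..x0, max (v x - t) 0 ≤ (max (w - t) 0) ^ 2 / 2 := by
  by_cases hex : ∃ x3 ∈ Set.Icc μ x0, t < v x3
  swap
  · have : ∫ x in μ..x0, max (v x - t) 0 = ∫ x in μ..x0, (0 : ℝ) := by
      apply intervalIntegral.integral_congr
      intro x hx
      rw [Set.uIcc_of_le h1.le] at hx
      have h2 : v x ≤ t := by
        by_contra hcon
        exact hex ⟨x, hx, not_le.mp hcon⟩
      show max (v x - t) 0 = 0
      exact max_eq_right (by linarith)
    rw [this]
    simp only [intervalIntegral.integral_zero]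
    positivity
  obtain ⟨x3, hx3, hx3t⟩ := hex
  have hx0m : x0 ∈ Set.Icc μ x0 := ⟨h1.le, le_rfl⟩
  have hKc : IsCompact ({x | t ≤ v x} ∩ Set.Icc μ x0) :=
    isCompact_Icc.inter_left (isClosed_le continuous_const hv)
  have hKn : ({x | t ≤ v x} ∩ Set.Icc μ x0).Nonempty := ⟨x3, hx3t.le, hx3⟩
  obtain ⟨y1, hy1⟩ : ∃ y, y = sSup ({x | t ≤ v x} ∩ Set.Icc μ x0) := ⟨_, rfl⟩
  have hy1K : y1 ∈ ({x | t ≤ v x} ∩ Set.Icc μ x0) := by
    rw [hy1]; exact hKc.sSup_mem hKn
  have hle : ∀ x ∈ Set.Icc μ x0, t ≤ v x → x ≤ y1 := by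
    intro x hx hxt
    rw [hy1]
    exact le_csSup hKc.bddAbove ⟨hxt, hx⟩
  have hy1t : t ≤ v y1 := hy1K.1
  have hy1m : y1 ∈ Set.Icc μ x0 := hy1K.2
  have hty : t ≤ x0 - y1 := by
    have h2 := hl y1 hy1m x0 hx0m
    rw [hz, sub_zero, abs_of_nonneg (h0 y1 hy1m), abs_sub_comm, abs_of_nonneg (by linarith [hy1m.2])] at h2
    linarith
  have hcmin : Continuous fun x => min (v x) t := hv.min continuous_const
  have hcmax : Continuous fun x => max (v x - t) 0 := (hv.sub continuous_const).max continuous_const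
  -- the piece [y1, y1 + t]
  have I1 : t ^ 2 / 2 ≤ ∫ x in y1..(y1 + t), min (v x) t := by
    have h2 : ∫ x in y1..(y1 + t), (t + y1 - x) = t ^ 2 / 2 := by
      rw [intervalIntegral.integral_sub (by simp) (by simp)]
      simp only [intervalIntegral.integral_const, integral_id, smul_eq_mul]
      ring
    rw [← h2]
    apply intervalIntegral.integral_mono_on (by linarith)
      ((continuous_const.sub continuous_id).intervalIntegrable _ _) (hcmin.intervalIntegrable _ _)
    intro x hx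
    show t + y1 - x ≤ min (v x) t
    have hxm : x ∈ Set.Icc μ x0 := ⟨by linarith [hx.1, hy1m.1], by linarith [hx.2]⟩
    have h3 := hl y1 hy1m x hxm
    rw [abs_sub_comm y1 x, abs_of_nonneg (by linarith [hx.1] : (0:ℝ) ≤ x - y1)] at h3
    have h4 := (abs_le.mp h3).2
    apply le_min
    · linarith
    · linarith [hx.1]
  have I2 : 0 ≤ ∫ x in (y1 + t)..x0, min (v x) t := by
    apply intervalIntegral.integral_nonneg (by linarith)
    intro x hx
    have hxm : x ∈ Set.Icc μ x0 := ⟨by linarith [hx.1, hy1m.1], hx.2⟩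
    exact le_min (h0 x hxm) ht
  obtain ⟨m, hm⟩ : ∃ m : ℝ, m = (volume {x | x ∈ Set.Icc μ x0 ∧ 0 < max (v x - t) 0}).toReal := ⟨_, rfl⟩
  have hSeq : {x | x ∈ Set.Icc μ x0 ∧ 0 < max (v x - t) 0} = {x | t < v x} ∩ Set.Icc μ x0 := by
    ext x
    constructor
    · rintro ⟨h2, h3⟩
      refine ⟨?_, h2⟩
      rcases lt_max_iff.mp h3 with h4 | h4
      · show t < v x
        linarith
      · exact absurd h4 (lt_irrefl _)
    · rintro ⟨h2, h3⟩
      have h2' : t < v x := h2
      exact ⟨h3, lt_max_iff.mpr (Or.inl (by linarith))⟩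
  have hSm : MeasurableSet ({x | t < v x} ∩ Set.Icc μ x0) :=
    (measurableSet_lt measurable_const hv.measurable).inter measurableSet_Icc
  have hSsub : {x | t < v x} ∩ Set.Icc μ x0 ⊆ Set.Icc μ y1 := by
    rintro x ⟨h2, h3⟩
    have h2' : t < v x := h2
    exact ⟨h3.1, hle x h3 h2'.le⟩
  have I3 : t * m ≤ ∫ x in μ..y1, min (v x) t := by
    rw [intervalIntegral.integral_of_le hy1m.1, ← integral_Icc_eq_integral_Ioc]
    have e1 : t * m = ∫ x in ({x | t < v x} ∩ Set.Icc μ x0), t := by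
      rw [hm, hSeq, setIntegral_const, smul_eq_mul, Measure.real, mul_comm]
    have e2 : ∫ x in ({x | t < v x} ∩ Set.Icc μ x0), t = ∫ x in ({x | t < v x} ∩ Set.Icc μ x0), min (v x) t := by
      apply setIntegral_congr_fun hSm
      intro x hx
      have h2 : t < v x := hx.1
      show t = min (v x) t
      rw [min_eq_right h2.le]
    rw [e1, e2]
    apply setIntegral_mono_set
    · exact hcmin.continuousOn.integrableOn_Icc
    · filter_upwards [ae_restrict_mem measurableSet_Icc] with x hx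
      have hxm : x ∈ Set.Icc μ x0 := ⟨hx.1, hx.2.trans hy1m.2⟩
      exact le_min (h0 x hxm) ht
    · exact Filter.Eventually.of_forall hSsub
  have hm0 : 0 ≤ m := by rw [hm]; exact ENNReal.toReal_nonneg
  -- the integral of v
  have hsum : ∫ x in μ..x0, v x = (∫ x in μ..x0, max (v x - t) 0) + ∫ x in μ..x0, min (v x) t := by
    rw [← intervalIntegral.integral_add (hcmax.intervalIntegrable _ _) (hcmin.intervalIntegrable _ _)]
    apply intervalIntegral.integral_congr
    intro x hx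
    show v x = max (v x - t) 0 + min (v x) t
    rcases le_total (v x) t with h2 | h2
    · rw [max_eq_right (by linarith), min_eq_left h2]; ring
    · rw [max_eq_left (by linarith), min_eq_right h2]; ring
  have hsplit : ∫ x in μ..x0, min (v x) t = (∫ x in μ..y1, min (v x) t) +
      (∫ x in y1..(y1 + t), min (v x) t) + ∫ x in (y1 + t)..x0, min (v x) t := by
    rw [intervalIntegral.integral_add_adjacent_intervals (hcmin.intervalIntegrable _ _)
      (hcmin.intervalIntegrable _ _), intervalIntegral.integral_add_adjacent_intervals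
      (hcmin.intervalIntegrable _ _) (hcmin.intervalIntegrable _ _)]
  have htri := Pool.H611.BS.tri_bound μ x0 h1 (fun x => max (v x - t) 0) (by
    intro x hx y hy
    refine le_trans (abs_max_sub_max_le_abs _ _ _) ?_
    have := hl x hx y hy
    rw [show v x - t - (v y - t) = v x - v y by ring]
    exact this) (fun x _ => le_max_right _ _) x0 hx0m (by
      show max (v x0 - t) 0 = 0
      rw [hz]
      exact max_eq_right (by linarith))
  rw [← hm] at htri
  have hA0 : 0 ≤ ∫ x in μ..x0, max (v x - t) 0 :=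
    intervalIntegral.integral_nonneg h1.le (fun x _ => le_max_right _ _)
  obtain ⟨A, hA⟩ : ∃ A, A = ∫ x in μ..x0, max (v x - t) 0 := ⟨_, rfl⟩
  have htri' : A ≤ m ^ 2 / 2 := by rw [hA]; exact htri
  rw [← hA] at hA0 hsum ⊢
  have hmain : A + t * m + t ^ 2 / 2 ≤ w ^ 2 / 2 := by linarith
  have hρ0 : 0 ≤ Real.sqrt (2 * A) := Real.sqrt_nonneg _
  have hρ2 : Real.sqrt (2 * A) ^ 2 = 2 * A := Real.sq_sqrt (by linarith)
  have hρm : Real.sqrt (2 * A) ≤ m := by
    rw [Real.sqrt_le_left hm0]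
    linarith
  have hρw : Real.sqrt (2 * A) + t ≤ w := by
    apply le_of_sq_le_sq _ hw
    nlinarith [mul_le_mul_of_nonneg_left hρm ht]
  have h5 : max (w - t) 0 = w - t := max_eq_left (by linarith)
  rw [h5]
  have h6 : Real.sqrt (2 * A) ^ 2 ≤ (w - t) ^ 2 := by
    apply pow_le_pow_left₀ hρ0
    linarith
  linarith

lemma trapz (μ x0 w t : ℝ) (h1 : μ < x0) (hw : 0 ≤ w) (ht : 0 ≤ t) (h : ℝ → ℝ)
    (hl : ∀ x ∈ Set.Icc μ x0, ∀ z ∈ Set.Icc μ x0, |h x - h z| ≤ |x - z|)
    (h0 : ∀ x ∈ Set.Icc μ x0, 0 ≤ h x) (hz : h x0 = 0) (hI : ∫ x in μ..x0, h x ≤ w ^ 2 / 2) :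
    ∫ x in μ..x0, max (h x - t) 0 ≤ (max (w - t) 0) ^ 2 / 2 := by
  have hLip : LipschitzOnWith 1 h (Set.Icc μ x0) := by
    apply LipschitzOnWith.of_dist_le_mul
    intro x hx y hy
    simpa [Real.dist_eq] using hl x hx y hy
  obtain ⟨v, hv⟩ : ∃ v : ℝ → ℝ, v = Set.IccExtend h1.le (fun x : Set.Icc μ x0 => h x) := ⟨_, rfl⟩
  have hvu : ∀ x ∈ Set.Icc μ x0, v x = h x := by
    intro x hx
    rw [hv, Set.IccExtend_of_mem h1.le _ hx]
  have hvc : Continuous v := by
    have := (continuousOn_iff_continuous_domRestrict.mp hLip.continuousOn)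
    rw [hv]
    exact this.Icc_extend'
  have e1 : ∫ x in μ..x0, max (h x - t) 0 = ∫ x in μ..x0, max (v x - t) 0 := by
    apply intervalIntegral.integral_congr
    intro x hx
    rw [Set.uIcc_of_le h1.le] at hx
    show max (h x - t) 0 = max (v x - t) 0
    rw [hvu x hx]
  have e2 : ∫ x in μ..x0, h x = ∫ x in μ..x0, v x := by
    apply intervalIntegral.integral_congr
    intro x hx
    rw [Set.uIcc_of_le h1.le] at hx
    exact (hvu x hx).symm
  rw [e1]
  rw [e2] at hI
  refine trapz_cont μ x0 w t h1 hw ht v hvc ?_ ?_ ?_ hI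
  · intro x hx z hz'
    rw [hvu x hx, hvu z hz']
    exact hl x hx z hz'
  · intro x hx
    rw [hvu x hx]
    exact h0 x hx
  · rw [hvu x0 ⟨h1.le, le_rfl⟩, hz]

end
end Pool.H34.LP
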