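import Mathlib

set_option autoImplicit false

/-!
# Integrals of truncated cones (piece LP3)
-/

namespace Pool.H34.LP

open MeasureTheory intervalIntegral

/-- the basic integral -/
lemma p3_base (L t : ℝ) (hL : 0 ≤ L) (ht : 0 ≤ t) :
    ∫ y in (0 : ℝ)..L, max (y - t) 0 = (max (L - t) 0) ^ 2 / 2 := by
  have hc : Continuous fun y : ℝ => max (y - t) 0 := by fun_prop
  rcases le_total L t with h | h
  · have h1 : ∫ y in (0 : ℝ)..L, max (y - t) 0 = ∫ _y in (0 : ℝ)..L, (0 : ℝ) := by
      refine integral_congr fun y hy => ?_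
      rw [Set.uIcc_of_le hL] at hy
      exact max_eq_right (by linarith [hy.2])
    rw [h1, max_eq_right (by linarith : L - t ≤ 0)]
    simp
  · have h1 : ∫ y in (0 : ℝ)..t, max (y - t) 0 = 0 := by
      have : ∫ y in (0 : ℝ)..t, max (y - t) 0 = ∫ _y in (0 : ℝ)..t, (0 : ℝ) := by
        refine integral_congr fun y hy => ?_
        rw [Set.uIcc_of_le ht] at hy
        exact max_eq_right (by linarith [hy.2])
      rw [this]
      simp
    have h2 : ∫ y in t..L, max (y - t) 0 = (L - t) ^ 2 / 2 := by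
      have : ∫ y in t..L, max (y - t) 0 = ∫ y in t..L, (y - t) := by
        refine integral_congr fun y hy => ?_
        rw [Set.uIcc_of_le h] at hy
        exact max_eq_left (by linarith [hy.1])
      rw [this, integral_comp_sub_right (fun y => y) t, sub_self, integral_id]
      ring
    rw [← integral_add_adjacent_intervals (hc.intervalIntegrable 0 t) (hc.intervalIntegrable t L),
      h1, h2, zero_add, max_eq_left (by linarith : 0 ≤ L - t)]

lemma p3_right (α β t : ℝ) (hαβ : α ≤ β) (ht : 0 ≤ t) :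
    ∫ x in α..β, max (x - α - t) 0 = (max (β - α - t) 0) ^ 2 / 2 := by
  rw [integral_comp_sub_right (fun y => max (y - t) 0) α, sub_self,
    p3_base (β - α) t (by linarith) ht]

lemma p3_left (α β t : ℝ) (hαβ : α ≤ β) (ht : 0 ≤ t) :
    ∫ x in α..β, max (β - x - t) 0 = (max (β - α - t) 0) ^ 2 / 2 := by
  rw [integral_comp_sub_left (fun y => max (y - t) 0) β, sub_self,
    p3_base (β - α) t (by linarith) ht]

lemma cone_right (α β t : ℝ) (hαβ : α ≤ β) (ht : 0 ≤ t) (u : ℝ → ℝ)
    (hu : ContinuousOn u (Set.Icc α β)) (h : ∀ x ∈ Set.Icc α β, |u x| ≤ x - α) :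
    ∫ x in α..β, max (|u x| - t) 0 ≤ (max (β - α - t) 0) ^ 2 / 2 := by
  rw [← p3_right α β t hαβ ht]
  refine integral_mono_on hαβ ?_ ?_ fun x hx => ?_
  · refine ContinuousOn.intervalIntegrable ?_
    rw [Set.uIcc_of_le hαβ]
    exact (hu.abs.sub continuousOn_const).sup continuousOn_const
  · exact (by fun_prop : Continuous fun x : ℝ => max (x - α - t) 0).intervalIntegrable _ _
  · exact max_le_max (by linarith [h x hx]) le_rfl

lemma cone_left (α β t : ℝ) (hαβ : α ≤ β) (ht : 0 ≤ t) (u : ℝ → ℝ)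
    (hu : ContinuousOn u (Set.Icc α β)) (h : ∀ x ∈ Set.Icc α β, |u x| ≤ β - x) :
    ∫ x in α..β, max (|u x| - t) 0 ≤ (max (β - α - t) 0) ^ 2 / 2 := by
  rw [← p3_left α β t hαβ ht]
  refine integral_mono_on hαβ ?_ ?_ fun x hx => ?_
  · refine ContinuousOn.intervalIntegrable ?_
    rw [Set.uIcc_of_le hαβ]
    exact (hu.abs.sub continuousOn_const).sup continuousOn_const
  · exact (by fun_prop : Continuous fun x : ℝ => max (β - x - t) 0).intervalIntegrable _ _
  · exact max_le_max (by linarith [h x hx]) le_rfl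

lemma val (a b c t : ℝ) (hac : a ≤ c) (hcb : c ≤ b) (ht : 0 ≤ t) :
    ∫ x in a..b, max (|x - c| - t) 0 = (max (c - a - t) 0) ^ 2 / 2 + (max (b - c - t) 0) ^ 2 / 2 := by
  have hc : Continuous fun x : ℝ => max (|x - c| - t) 0 := by fun_prop
  rw [← integral_add_adjacent_intervals (hc.intervalIntegrable a c) (hc.intervalIntegrable c b),
    ← p3_left a c t hac ht, ← p3_right c b t hcb ht]
  congr 1
  · refine integral_congr fun x hx => ?_
    rw [Set.uIcc_of_le hac] at hx
    rw [abs_of_nonpos (by linarith [hx.2]), neg_sub]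
  · refine integral_congr fun x hx => ?_
    rw [Set.uIcc_of_le hcb] at hx
    rw [abs_of_nonneg (by linarith [hx.1])]

lemma val_right (μ b c t : ℝ) (hcμ : c ≤ μ) (hμb : μ ≤ b) (ht : 0 ≤ t) :
    (max (b - μ - t) 0) ^ 2 / 2 ≤ ∫ x in μ..b, max (|x - c| - t) 0 := by
  rw [← p3_right μ b t hμb ht]
  refine integral_mono_on hμb ?_ ?_ fun x hx => ?_
  · exact (by fun_prop : Continuous fun x : ℝ => max (x - μ - t) 0).intervalIntegrable _ _
  · exact (by fun_prop : Continuous fun x : ℝ => max (|x - c| - t) 0).intervalIntegrable _ _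
  · refine max_le_max ?_ le_rfl
    rw [abs_of_nonneg (by linarith [hx.1])]
    linarith

end Pool.H34.LP

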