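import Mathlib

/-! Project LP of helper34 (MP_0f1375_an), piece LP4 (written by helper18): an integral form of Chebyshev's
inequality and inequalities for `r ↦ (max (r - t) 0) ^ 2 / 2`. -/

set_option autoImplicit false

namespace Pool.H34.LP

open MeasureTheory intervalIntegral

lemma cheb (α β : ℝ) (h : α < β) (M D : ℝ → ℝ) (hM : ContinuousOn M (Set.Icc α β))
    (hD : ContinuousOn D (Set.Icc α β)) (mM : MonotoneOn M (Set.Icc α β))
    (aD : AntitoneOn D (Set.Icc α β)) (hM0 : 0 < ∫ x in α..β, M x)
    (hMD : 0 ≤ ∫ x in α..β, M x * D x) : 0 ≤ ∫ x in α..β, D x := by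
  have hab := h.le
  have hba : 0 < β - α := by linarith
  have hMi : IntervalIntegrable M volume α β := hM.intervalIntegrable_of_Icc hab
  have hDi : IntervalIntegrable D volume α β := hD.intervalIntegrable_of_Icc hab
  have hMDi : IntervalIntegrable (fun x => M x * D x) volume α β :=
    (hM.mul hD).intervalIntegrable_of_Icc hab
  obtain ⟨d, hd⟩ : ∃ d, d = (∫ x in α..β, D x) / (β - α) := ⟨_, rfl⟩
  have hd' : ∫ x in α..β, D x = d * (β - α) := by rw [hd]; field_simp
  have h1 : D β ≤ d := by
    have e : ∫ x in α..β, D β = D β * (β - α) := by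
      rw [intervalIntegral.integral_const, smul_eq_mul, mul_comm]
    have e2 : ∫ x in α..β, D β ≤ ∫ x in α..β, D x :=
      intervalIntegral.integral_mono_on hab intervalIntegrable_const hDi
        (fun x hx => aD hx ⟨hab, le_rfl⟩ hx.2)
    rw [e, hd'] at e2
    exact le_of_mul_le_mul_right e2 hba
  have h2 : d ≤ D α := by
    have e : ∫ x in α..β, D α = D α * (β - α) := by
      rw [intervalIntegral.integral_const, smul_eq_mul, mul_comm]
    have e2 : ∫ x in α..β, D x ≤ ∫ x in α..β, D α :=
      intervalIntegral.integral_mono_on hab hDi intervalIntegrable_const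
        (fun x hx => aD ⟨le_rfl, hab⟩ hx hx.1)
    rw [e, hd'] at e2
    exact le_of_mul_le_mul_right e2 hba
  obtain ⟨z, hz, hzd⟩ := intermediate_value_Icc' hab hD ⟨h1, h2⟩
  have h3 : ∀ x ∈ Set.Icc α β, M x * D x ≤ d * M x + M z * (D x - d) := by
    intro x hx
    have h4 : (M x - M z) * (D x - D z) ≤ 0 := by
      rcases le_total x z with hxz | hxz
      · have := mM hx hz hxz
        have := aD hx hz hxz
        nlinarith
      · have := mM hz hx hxz
        have := aD hz hx hxz
        nlinarith
    rw [hzd] at h4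
    nlinarith
  have hri : IntervalIntegrable (fun x => d * M x + M z * (D x - d)) volume α β :=
    (hMi.const_mul d).add ((hDi.sub intervalIntegrable_const).const_mul (M z))
  have h5 := intervalIntegral.integral_mono_on hab hMDi hri h3
  rw [intervalIntegral.integral_add (hMi.const_mul d)
      ((hDi.sub intervalIntegrable_const).const_mul (M z)),
    intervalIntegral.integral_const_mul, intervalIntegral.integral_const_mul,
    intervalIntegral.integral_sub hDi intervalIntegrable_const,
    intervalIntegral.integral_const, hd', smul_eq_mul] at h5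
  have h6 : 0 ≤ d * ∫ x in α..β, M x := by nlinarith
  have h7 : 0 ≤ d := by
    by_contra hneg
    push Not at hneg
    nlinarith
  rw [hd']
  positivity

lemma T_mono (t r s : ℝ) (h : r ≤ s) : (max (r - t) 0) ^ 2 / 2 ≤ (max (s - t) 0) ^ 2 / 2 := by
  have h1 : max (r - t) 0 ≤ max (s - t) 0 := max_le_max (by linarith) le_rfl
  have h0 : 0 ≤ max (r - t) 0 := le_max_right _ _
  nlinarith

lemma T_super (t r s : ℝ) (ht : 0 ≤ t) (hr : 0 ≤ r) (hs : 0 ≤ s) :
    (max (r - t) 0) ^ 2 / 2 + (max (s - t) 0) ^ 2 / 2 ≤ (max (r + s - t) 0) ^ 2 / 2 := by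
  have a0 : 0 ≤ max (r - t) 0 := le_max_right _ _
  have b0 : 0 ≤ max (s - t) 0 := le_max_right _ _
  have hab : max (r - t) 0 + max (s - t) 0 ≤ max (r + s - t) 0 := by
    rcases le_total (r - t) 0 with h1 | h1 <;> rcases le_total (s - t) 0 with h2 | h2
    · rw [max_eq_right h1, max_eq_right h2, add_zero]
      exact le_max_right _ _
    · rw [max_eq_right h1, max_eq_left h2, zero_add]
      exact le_trans (by linarith) (le_max_left _ _)
    · rw [max_eq_left h1, max_eq_right h2, add_zero]
      exact le_trans (by linarith) (le_max_left _ _)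
    · rw [max_eq_left h1, max_eq_left h2]
      exact le_trans (by linarith) (le_max_left _ _)
  nlinarith [mul_nonneg a0 b0]

lemma T_maj (t r s u v : ℝ) (h : r + s = u + v) (h1 : r ≤ u) (h2 : s ≤ u) :
    (max (r - t) 0) ^ 2 / 2 + (max (s - t) 0) ^ 2 / 2 ≤
      (max (u - t) 0) ^ 2 / 2 + (max (v - t) 0) ^ 2 / 2 := by
  have hv : v = r + s - u := by linarith
  have a0 : 0 ≤ max (r - t) 0 := le_max_right _ _
  have b0 : 0 ≤ max (s - t) 0 := le_max_right _ _
  have c0 : 0 ≤ max (u - t) 0 := le_max_right _ _
  have d0 : 0 ≤ max (v - t) 0 := le_max_right _ _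
  have ac : max (r - t) 0 ≤ max (u - t) 0 := max_le_max (by linarith) le_rfl
  have bc : max (s - t) 0 ≤ max (u - t) 0 := max_le_max (by linarith) le_rfl
  have hs : max (r - t) 0 + max (s - t) 0 ≤ max (u - t) 0 + max (v - t) 0 := by
    rcases le_total (r - t) 0 with k1 | k1 <;> rcases le_total (s - t) 0 with k2 | k2
    · rw [max_eq_right k1, max_eq_right k2]
      linarith
    · rw [max_eq_right k1]
      linarith
    · rw [max_eq_right k2]
      linarith
    · rw [max_eq_left k1, max_eq_left k2]
      have := le_max_left (u - t) 0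
      have := le_max_left (v - t) 0
      linarith
  -- with `A + B ≤ C + D`, `A, B ≤ C`, all nonnegative
  generalize max (r - t) 0 = A at *
  generalize max (s - t) 0 = B at *
  generalize max (u - t) 0 = U at *
  generalize max (v - t) 0 = V at *
  rcases le_total (A + B) U with k | k
  · nlinarith [mul_nonneg a0 b0, mul_self_nonneg V]
  · -- put `V' = A + B - U ≤ V`
    have hV : 0 ≤ A + B - U := by linarith
    have hV2 : (A + B - U) ^ 2 ≤ V ^ 2 := by
      apply pow_le_pow_left₀ hV
      linarith
    nlinarith [mul_nonneg (sub_nonneg.2 ac) (sub_nonneg.2 bc)]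

end Pool.H34.LP
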