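import Mathlib
import Pool.Agent.Helper34.LP.P1
import Pool.Agent.Helper34.LP.P2
import Pool.Agent.Helper34.LP.P3
import Pool.Agent.Helper34.LP.P4

set_option autoImplicit false

namespace Pool.H34.LP
open MeasureTheory

lemma cont_of_lip (a b : ℝ) (g : ℝ → ℝ)
    (hg : ∀ u ∈ Set.Icc a b, ∀ v ∈ Set.Icc a b, |g u - g v| ≤ |u - v|) :
    ContinuousOn g (Set.Icc a b) := by
  have : LipschitzOnWith 1 g (Set.Icc a b) := by
    apply LipschitzOnWith.of_dist_le_mul
    intro x hx y hy
    simpa [Real.dist_eq] using hg x hx y hy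
  exact this.continuousOn

lemma caseA (a b c t x1 x0 : ℝ) (ha : a ≤ x1) (h1 : x1 ≤ c) (h2 : c ≤ x0) (hb : x0 ≤ b)
    (ht : 0 ≤ t) (g : ℝ → ℝ) (hgc : Continuous g)
    (hg : ∀ u ∈ Set.Icc a b, ∀ v ∈ Set.Icc a b, |g u - g v| ≤ |u - v|)
    (z1 : g x1 = 0) (z0 : g x0 = 0) :
    ∫ x in a..b, max (|g x| - t) 0 ≤ ∫ x in a..b, max (|x - c| - t) 0 := by
  set m := (x1 + x0) / 2 with hm
  have hx1 : x1 ∈ Set.Icc a b := ⟨ha, by linarith⟩
  have hx0 : x0 ∈ Set.Icc a b := ⟨by linarith, hb⟩
  have hi : ∀ u v : ℝ, IntervalIntegrable (fun x => max (|g x| - t) 0) volume u v := fun u v =>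
    ((hgc.abs.sub continuous_const).max continuous_const).intervalIntegrable u v
  rw [val a b c t (by linarith) (by linarith) ht]
  rw [← intervalIntegral.integral_add_adjacent_intervals (hi a x1) (hi x1 b),
    ← intervalIntegral.integral_add_adjacent_intervals (hi x1 m) (hi m b),
    ← intervalIntegral.integral_add_adjacent_intervals (hi m x0) (hi x0 b)]
  have b1 := cone_left a x1 t ha ht g hgc.continuousOn (fun x hx => by
    have := hg x ⟨hx.1, by linarith [hx.2]⟩ x1 hx1
    rw [z1, sub_zero, abs_of_nonpos (by linarith [hx.2] : x - x1 ≤ 0)] at this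
    linarith)
  have b2 := cone_right x1 m t (by rw [hm]; linarith) ht g hgc.continuousOn (fun x hx => by
    have hx2 := hx.2
    rw [hm] at hx2
    have := hg x ⟨by linarith [hx.1], by linarith⟩ x1 hx1
    rw [z1, sub_zero, abs_of_nonneg (by linarith [hx.1] : 0 ≤ x - x1)] at this
    linarith)
  have b3 := cone_left m x0 t (by rw [hm]; linarith) ht g hgc.continuousOn (fun x hx => by
    have hx2 := hx.1
    rw [hm] at hx2
    have := hg x ⟨by linarith, by linarith [hx.2]⟩ x0 hx0
    rw [z0, sub_zero, abs_of_nonpos (by linarith [hx.2] : x - x0 ≤ 0)] at this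
    linarith)
  have b4 := cone_right x0 b t hb ht g hgc.continuousOn (fun x hx => by
    have := hg x ⟨by linarith [hx.1], hx.2⟩ x0 hx0
    rw [z0, sub_zero, abs_of_nonneg (by linarith [hx.1] : 0 ≤ x - x0)] at this
    linarith)
  have s1 := T_super t (x1 - a) (c - x1) ht (by linarith) (by linarith)
  have s2 := T_super t (b - x0) (x0 - c) ht (by linarith) (by linarith)
  rw [show x1 - a + (c - x1) = c - a by ring] at s1
  rw [show b - x0 + (x0 - c) = b - c by ring] at s2
  have s3 : (max (m - x1 - t) 0) ^ 2 / 2 + (max (x0 - m - t) 0) ^ 2 / 2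
      ≤ (max (c - x1 - t) 0) ^ 2 / 2 + (max (x0 - c - t) 0) ^ 2 / 2 := by
    rcases le_total (x0 - c) (c - x1) with h | h
    · exact T_maj t (m - x1) (x0 - m) (c - x1) (x0 - c) (by ring) (by rw [hm]; linarith)
        (by rw [hm]; linarith)
    · have := T_maj t (m - x1) (x0 - m) (x0 - c) (c - x1) (by ring) (by rw [hm]; linarith)
        (by rw [hm]; linarith)
      linarith
  linarith

end Pool.H34.LP
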