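import Mathlib
import Pool.Agent.Helper34.LP.P1
import Pool.Agent.Helper34.LP.P2
import Pool.Agent.Helper34.LP.P3
import Pool.Agent.Helper34.LP.P4
import Pool.Agent.Helper34.LP.I1

set_option autoImplicit false

namespace Pool.H34.LP
open MeasureTheory

lemma caseB (a b : ℝ) (hab : a < b) (M : ℝ → ℝ) (hMc : Continuous M) (hM0 : ∀ s, 0 ≤ M s)
    (hM1 : ∫ x in a..b, M x = 1) (μ : ℝ) (hμ : μ ∈ Set.Icc a b)
    (mono : MonotoneOn M (Set.Icc a μ)) (anti : AntitoneOn M (Set.Icc μ b))
    (g : ℝ → ℝ) (hgc : Continuous g)
    (hgl : ∀ u ∈ Set.Icc a b, ∀ v ∈ Set.Icc a b, |g u - g v| ≤ |u - v|)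
    (hg0 : ∫ x in a..b, M x * g x = 0) (c : ℝ) (hcc : ∫ x in a..b, M x * x = c)
    (x0 : ℝ) (hx0 : x0 ∈ Set.Icc a b) (hc : c < x0) (z0 : g x0 = 0)
    (neg : ∀ x ∈ Set.Ico a x0, g x < 0) (t : ℝ) (ht : 0 ≤ t) :
    ∫ x in a..b, max (|g x| - t) 0 ≤ ∫ x in a..b, max (|x - c| - t) 0 := by
  have iM : ∀ (φ : ℝ → ℝ), Continuous φ → ∀ u v : ℝ,
      IntervalIntegrable (fun x => M x * φ x) volume u v := fun φ hφ u v =>
    (hMc.mul hφ).intervalIntegrable u v
  have iX : ∀ u v : ℝ, IntervalIntegrable (fun x => M x * x) volume u v := fun u v =>
    iM (fun x => x) continuous_id u v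
  have iC : ∀ (φ : ℝ → ℝ), Continuous φ → ∀ u v : ℝ, IntervalIntegrable φ volume u v :=
    fun φ hφ u v => hφ.intervalIntegrable u v
  have hac : a ≤ c := by
    have h1 : ∫ x in a..b, M x * (x - a) = c - a := by
      have e : ∀ x, M x * (x - a) = M x * x - a * M x := fun x => by ring
      simp_rw [e]
      rw [intervalIntegral.integral_sub (iX _ _) (iC _ (by fun_prop) _ _),
        intervalIntegral.integral_const_mul, hcc, hM1, mul_one]
    have h2 : 0 ≤ ∫ x in a..b, M x * (x - a) :=
      intervalIntegral.integral_nonneg hab.le
        (fun x hx => mul_nonneg (hM0 x) (by linarith [hx.1]))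
    linarith
  have hax0 : a < x0 := by linarith
  -- bounds for g near x0
  have gle : ∀ x ∈ Set.Icc x0 b, |g x| ≤ x - x0 := by
    intro x hx
    have := hgl x ⟨by linarith [hx.1], hx.2⟩ x0 hx0
    rw [z0, sub_zero, abs_of_nonneg (by linarith [hx.1] : 0 ≤ x - x0)] at this
    exact this
  have glel : ∀ x ∈ Set.Icc a x0, |g x| ≤ x0 - x := by
    intro x hx
    have := hgl x ⟨hx.1, by linarith [hx.2, hx0.2]⟩ x0 hx0
    rw [z0, sub_zero, abs_of_nonpos (by linarith [hx.2] : x - x0 ≤ 0)] at this
    linarith
  have gneg : ∀ x ∈ Set.Icc a x0, g x ≤ 0 := by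
    intro x hx
    rcases eq_or_lt_of_le hx.2 with h | h
    · rw [h, z0]
    · exact (neg x ⟨hx.1, h⟩).le
  set D : ℝ → ℝ := fun x => c - x + g x with hD
  have hDc : Continuous D := by fun_prop
  have hDa : AntitoneOn D (Set.Icc a b) := by
    intro u hu v hv huv
    have h1 := (abs_le.mp (hgl v hv u hu)).2
    have h2 : |v - u| = v - u := abs_of_nonneg (by linarith)
    rw [hD]
    have h3 := hgl v hv u hu
    rw [h2] at h3
    have := (abs_le.mp h3).2
    simp only
    linarith
  have key2 : 0 ≤ ∫ x in a..x0, M x * D x := by
    have h1 : ∫ x in a..b, M x * D x = 0 := by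
      have e : ∀ x, M x * D x = c * M x - M x * x + M x * g x := fun x => by
        simp only [hD]; ring
      simp_rw [e]
      rw [intervalIntegral.integral_add (iC _ (by fun_prop) _ _) (iM _ hgc _ _),
        intervalIntegral.integral_sub (iC _ (by fun_prop) _ _) (iX _ _),
        intervalIntegral.integral_const_mul, hcc, hM1, hg0]
      ring
    rw [← intervalIntegral.integral_add_adjacent_intervals (iM D hDc a x0) (iM D hDc x0 b)] at h1
    have h2 : ∫ x in x0..b, M x * D x ≤ 0 := by
      have h3 := intervalIntegral.integral_mono_on hx0.2 (iM D hDc x0 b)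
        (intervalIntegrable_const (c := (0 : ℝ))) (fun x hx => by
          have h4 := (abs_le.mp (gle x hx)).2
          have h5 : D x ≤ 0 := by simp only [hD]; linarith
          exact mul_nonpos_of_nonneg_of_nonpos (hM0 x) h5)
      simpa using h3
    linarith
  have hMμ : 0 < M μ := by
    rcases (hM0 μ).lt_or_eq with h | h
    · exact h
    · exfalso
      have h1 : ∀ x ∈ Set.Icc a b, M x ≤ 0 := by
        intro x hx
        rcases le_total x μ with h2 | h2
        · have := mono ⟨hx.1, h2⟩ ⟨hμ.1, le_rfl⟩ h2
          linarith
        · have := anti ⟨le_rfl, hμ.2⟩ ⟨h2, hx.2⟩ h2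
          linarith
      have h3 := intervalIntegral.integral_mono_on hab.le (iC M hMc a b)
        (intervalIntegrable_const (c := (0 : ℝ))) h1
      rw [hM1] at h3
      simp at h3
      linarith
  set y := min μ x0 with hy
  have hay : a ≤ y := le_min hμ.1 hax0.le
  have hyμ : y ≤ μ := min_le_left _ _
  have hyx : y ≤ x0 := min_le_right _ _
  have hyb : y ≤ b := hyμ.trans hμ.2
  -- the Lebesgue mean inequality
  have hLeb : 0 ≤ ∫ x in a..y, D x := by
    rcases eq_or_lt_of_le hay with h | hay'
    · rw [← h]; simp
    rcases le_or_gt 0 (D y) with h | h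
    · apply intervalIntegral.integral_nonneg hay
      intro x hx
      have := hDa ⟨hx.1, hx.2.trans hyb⟩ ⟨hay, hyb⟩ hx.2
      linarith
    · have h1 : ∫ x in y..x0, M x * D x ≤ 0 := by
        have h3 := intervalIntegral.integral_mono_on hyx (iM D hDc y x0)
          (intervalIntegrable_const (c := (0 : ℝ))) (fun x hx => by
            have h4 := hDa ⟨hay, hyb⟩ ⟨hay.trans hx.1, hx.2.trans hx0.2⟩ hx.1
            exact mul_nonpos_of_nonneg_of_nonpos (hM0 x) (by linarith))
        simpa using h3
      have h2 : 0 ≤ ∫ x in a..y, M x * D x := by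
        rw [← intervalIntegral.integral_add_adjacent_intervals (iM D hDc a y) (iM D hDc y x0)]
          at key2
        linarith
      have h3 : 0 < ∫ x in a..y, M x := by
        have h4 : 0 ≤ ∫ x in a..y, M x :=
          intervalIntegral.integral_nonneg hay (fun x _ => hM0 x)
        rcases h4.lt_or_eq with h5 | h5
        · exact h5
        · exfalso
          -- M vanishes on [a,y]
          have h6 : ∀ x ∈ Set.Icc a y, M x = 0 := by
            by_contra hcon
            push Not at hcon
            obtain ⟨x, hx, hxM⟩ := hcon
            have hpos : 0 < ∫ x in a..y, M x :=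
              intervalIntegral.integral_pos hay' hMc.continuousOn (fun x _ => hM0 x)
                ⟨x, hx, lt_of_le_of_ne (hM0 x) (Ne.symm hxM)⟩
            linarith
          rcases le_total μ x0 with h7 | h7
          · have : y = μ := min_eq_left h7
            have h8 := h6 y ⟨hay, le_rfl⟩
            rw [this] at h8
            linarith
          · have hyx0 : y = x0 := min_eq_right h7
            rw [hyx0] at h6
            have h8 : ∫ x in a..b, M x * (x - c) = 0 := by
              have e : ∀ x, M x * (x - c) = M x * x - c * M x := fun x => by ring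
              simp_rw [e]
              rw [intervalIntegral.integral_sub (iX _ _) (iC _ (by fun_prop) _ _),
                intervalIntegral.integral_const_mul, hcc, hM1]
              ring
            have h9 : ∫ x in a..b, M x * (x0 - c) ≤ ∫ x in a..b, M x * (x - c) := by
              apply intervalIntegral.integral_mono_on hab.le (iM _ (by fun_prop) _ _)
                (iM _ (by fun_prop) _ _)
              intro x hx
              rcases le_total x x0 with h10 | h10
              · rw [h6 x ⟨hx.1, h10⟩]; simp
              · exact mul_le_mul_of_nonneg_left (by linarith) (hM0 x)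
            rw [intervalIntegral.integral_mul_const, hM1, h8] at h9
            linarith
      exact cheb a y hay' M D hMc.continuousOn hDc.continuousOn
        (mono.mono (Set.Icc_subset_Icc_right hyμ)) (hDa.mono (Set.Icc_subset_Icc_right hyb)) h3 h2
  have hi : ∀ u v : ℝ, IntervalIntegrable (fun x => max (|g x| - t) 0) volume u v := fun u v =>
    ((hgc.abs.sub continuous_const).max continuous_const).intervalIntegrable u v
  have hi2 : ∀ u v : ℝ, IntervalIntegrable (fun x => max (|x - c| - t) 0) volume u v := fun u v =>
    (by fun_prop : Continuous (fun x : ℝ => max (|x - c| - t) 0)).intervalIntegrable u v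
  -- the part [a,y]
  have hleft : ∫ x in a..y, max (|g x| - t) 0 ≤ ∫ x in a..y, max (|x - c| - t) 0 := by
    rcases eq_or_lt_of_le hay with h | hay'
    · rw [← h]; simp
    have e : ∫ x in a..y, max (|g x| - t) 0 = ∫ x in a..y, max (-g x - t) 0 := by
      apply intervalIntegral.integral_congr
      intro x hx
      rw [Set.uIcc_of_le hay] at hx
      simp only
      rw [abs_of_nonpos (gneg x ⟨hx.1, hx.2.trans hyx⟩)]
    rw [e]
    apply rhinge a y c t hay' ht (fun x => - g x)
    · intro u hu v hv
      have := hgl u ⟨hu.1, hu.2.trans hyb⟩ v ⟨hv.1, hv.2.trans hyb⟩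
      rw [show -g u - -g v = -(g u - g v) by ring, abs_neg]
      exact this
    · have e2 : ∀ x, D x = (c - x) - (- g x) := fun x => by simp only [hD]; ring
      simp_rw [e2] at hLeb
      rw [intervalIntegral.integral_sub (iC _ (by fun_prop) _ _) (iC _ (by fun_prop) _ _)] at hLeb
      linarith
  -- the part [y,b]
  have hright : ∫ x in y..b, max (|g x| - t) 0 ≤ ∫ x in y..b, max (|x - c| - t) 0 := by
    rcases le_or_gt x0 μ with h7 | h7
    · have hyx0 : y = x0 := min_eq_right h7
      rw [hyx0]
      apply intervalIntegral.integral_mono_on hx0.2 (hi _ _) (hi2 _ _)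
      intro x hx
      have h8 := gle x hx
      have h9 : |x - c| = x - c := abs_of_nonneg (by linarith [hx.1])
      rw [h9]
      exact max_le_max (by linarith) le_rfl
    · have hyμ' : y = μ := min_eq_left h7.le
      rw [hyμ']
      have hsplit : ∫ x in μ..b, max (|g x| - t) 0 = (∫ x in μ..x0, max (|g x| - t) 0)
          + ∫ x in x0..b, max (|g x| - t) 0 :=
        (intervalIntegral.integral_add_adjacent_intervals (hi μ x0) (hi x0 b)).symm
      have r2 := cone_right x0 b t hx0.2 ht g hgc.continuousOn gle
      have r1 := cone_left μ x0 t h7.le ht g hgc.continuousOn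
        (fun x hx => glel x ⟨hμ.1.trans hx.1, hx.2⟩)
      rw [hsplit]
      rcases le_or_gt c μ with h8 | h8
      · have r3 := val_right μ b c t h8 hμ.2 ht
        have r4 := T_super t (x0 - μ) (b - x0) ht (by linarith) (by linarith [hx0.2])
        rw [show x0 - μ + (b - x0) = b - μ by ring] at r4
        linarith
      · rw [val μ b c t h8.le (by linarith [hx0.2]) ht]
        rcases le_or_gt (x0 + c) (b + μ) with h9 | h9
        · have r4 := T_maj t (x0 - μ) (b - x0) (b - c) (c - μ) (by ring) (by linarith)
            (by linarith)
          linarith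
        · -- w = b - x0 small
          have hMx0 : 0 < M x0 := by
            rcases (hM0 x0).lt_or_eq with h10 | h10
            · exact h10
            · exfalso
              have h11 : ∫ x in x0..b, M x * g x = 0 := by
                have : ∀ x ∈ Set.Icc x0 b, M x = 0 := by
                  intro x hx
                  have := anti ⟨h7.le, hx0.2⟩ ⟨h7.le.trans hx.1, hx.2⟩ hx.1
                  linarith [hM0 x]
                rw [intervalIntegral.integral_congr (g := fun _ => (0 : ℝ))]
                · simp
                · intro x hx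
                  rw [Set.uIcc_of_le hx0.2] at hx
                  simp [this x hx]
              have h12 : ∫ x in a..x0, M x * g x = 0 := by
                rw [← intervalIntegral.integral_add_adjacent_intervals (iM g hgc a x0)
                  (iM g hgc x0 b)] at hg0
                linarith
              have h13 : 0 < ∫ x in a..x0, M x * (- g x) := by
                apply intervalIntegral.integral_pos hax0
                  (by fun_prop)
                  (fun x hx => mul_nonneg (hM0 x) (by have := gneg x ⟨hx.1.le, hx.2⟩; linarith))
                exact ⟨μ, ⟨hμ.1, h7.le⟩, mul_pos hMμ (by linarith [neg μ ⟨hμ.1, h7⟩])⟩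
              have e : ∀ x, M x * (- g x) = - (M x * g x) := fun x => by ring
              simp_rw [e] at h13
              rw [intervalIntegral.integral_neg, h12] at h13
              linarith
          have hw : ∫ x in μ..x0, (- g x) ≤ (b - x0) ^ 2 / 2 := by
            have i1 : ∫ x in μ..x0, M x0 * (- g x) ≤ ∫ x in μ..x0, M x * (- g x) := by
              apply intervalIntegral.integral_mono_on h7.le (iC _ (by fun_prop) _ _)
                (iM _ (by fun_prop) _ _)
              intro x hx
              have := anti ⟨hx.1, hx.2.trans hx0.2⟩ ⟨h7.le, hx0.2⟩ hx.2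
              exact mul_le_mul_of_nonneg_right this
                (by linarith [gneg x ⟨hμ.1.trans hx.1, hx.2⟩])
            have i2 : 0 ≤ ∫ x in a..μ, M x * (- g x) :=
              intervalIntegral.integral_nonneg hμ.1 (fun x hx => mul_nonneg (hM0 x)
                (by linarith [gneg x ⟨hx.1, hx.2.trans h7.le⟩]))
            have i3 : ∫ x in x0..b, M x * g x ≤ ∫ x in x0..b, M x0 * (x - x0) := by
              apply intervalIntegral.integral_mono_on hx0.2 (iM _ hgc _ _)
                (iC _ (by fun_prop) _ _)
              intro x hx
              have e1 := anti ⟨h7.le, hx0.2⟩ ⟨h7.le.trans hx.1, hx.2⟩ hx.1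
              have e2 := (abs_le.mp (gle x hx)).2
              calc M x * g x ≤ M x * (x - x0) := mul_le_mul_of_nonneg_left e2 (hM0 x)
                _ ≤ M x0 * (x - x0) := mul_le_mul_of_nonneg_right e1 (by linarith [hx.1])
            have i4 : ∫ x in x0..b, M x0 * (x - x0) = M x0 * ((b - x0) ^ 2 / 2) := by
              rw [intervalIntegral.integral_const_mul,
                intervalIntegral.integral_comp_sub_right (fun x => x) x0, integral_id]
              ring
            have i5 : (∫ x in a..μ, M x * (- g x)) + (∫ x in μ..x0, M x * (- g x))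
                = ∫ x in x0..b, M x * g x := by
              have e : ∀ x, M x * (- g x) = - (M x * g x) := fun x => by ring
              simp_rw [e]
              rw [intervalIntegral.integral_neg, intervalIntegral.integral_neg]
              rw [← intervalIntegral.integral_add_adjacent_intervals (iM g hgc a μ)
                (iM g hgc μ b), ← intervalIntegral.integral_add_adjacent_intervals (iM g hgc μ x0)
                (iM g hgc x0 b)] at hg0
              linarith
            rw [intervalIntegral.integral_const_mul] at i1
            have i6 : M x0 * ∫ x in μ..x0, (- g x) ≤ M x0 * ((b - x0) ^ 2 / 2) := by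
              linarith
            exact le_of_mul_le_mul_left i6 hMx0
          have r5 := trapz μ x0 (b - x0) t h7 (by linarith [hx0.2]) ht (fun x => - g x)
            (fun u hu v hv => by
              have := hgl u ⟨hμ.1.trans hu.1, hu.2.trans hx0.2⟩ v
                ⟨hμ.1.trans hv.1, hv.2.trans hx0.2⟩
              rw [show -g u - -g v = -(g u - g v) by ring, abs_neg]
              exact this)
            (fun x hx => by linarith [gneg x ⟨hμ.1.trans hx.1, hx.2⟩]) (by simp [z0]) hw
          have e : ∫ x in μ..x0, max (|g x| - t) 0 = ∫ x in μ..x0, max (-g x - t) 0 := by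
            apply intervalIntegral.integral_congr
            intro x hx
            rw [Set.uIcc_of_le h7.le] at hx
            simp only
            rw [abs_of_nonpos (gneg x ⟨hμ.1.trans hx.1, hx.2⟩)]
          rw [e]
          have m1 := T_mono t (b - x0) (c - μ) (by linarith)
          have m2 := T_mono t (b - x0) (b - c) (by linarith)
          linarith
  rw [← intervalIntegral.integral_add_adjacent_intervals (hi a y) (hi y b),
    ← intervalIntegral.integral_add_adjacent_intervals (hi2 a y) (hi2 y b)]
  linarith

end Pool.H34.LP
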