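import Mathlib
import Pool.Agent.Helper34.LP.I2

set_option autoImplicit false

namespace Pool.H34.LP
open MeasureTheory

lemma exists_zero (a b : ℝ) (hab : a < b) (M : ℝ → ℝ) (hMc : Continuous M) (hM0 : ∀ s, 0 ≤ M s)
    (hM1 : ∫ x in a..b, M x = 1) (g : ℝ → ℝ) (hgc : Continuous g)
    (hg0 : ∫ x in a..b, M x * g x = 0) : ∃ x ∈ Set.Icc a b, g x = 0 := by
  -- M is positive somewhere
  obtain ⟨s, hs, hMs⟩ : ∃ s ∈ Set.Icc a b, 0 < M s := by
    by_contra hcon
    push Not at hcon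
    have h3 := intervalIntegral.integral_mono_on (μ := volume) hab.le (hMc.intervalIntegrable a b)
      (intervalIntegrable_const (c := (0 : ℝ))) hcon
    rw [hM1] at h3
    simp at h3
    linarith
  obtain ⟨x1, hx1, hgx1⟩ : ∃ x ∈ Set.Icc a b, g x ≤ 0 := by
    by_contra hc
    push Not at hc
    have : 0 < ∫ x in a..b, M x * g x :=
      intervalIntegral.integral_pos hab (by fun_prop)
        (fun x hx => mul_nonneg (hM0 x) (hc x ⟨hx.1.le, hx.2⟩).le)
        ⟨s, hs, mul_pos hMs (hc s hs)⟩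
    linarith
  obtain ⟨x2, hx2, hgx2⟩ : ∃ x ∈ Set.Icc a b, 0 ≤ g x := by
    by_contra hc
    push Not at hc
    have : 0 < ∫ x in a..b, M x * (- g x) :=
      intervalIntegral.integral_pos hab (by fun_prop)
        (fun x hx => mul_nonneg (hM0 x) (by have := (hc x ⟨hx.1.le, hx.2⟩).le; linarith))
        ⟨s, hs, mul_pos hMs (by have := hc s hs; linarith)⟩
    have e : ∀ x, M x * (- g x) = - (M x * g x) := fun x => by ring
    simp_rw [e] at this
    rw [intervalIntegral.integral_neg] at this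
    linarith
  exact (isPreconnected_Icc.intermediate_value hx1 hx2 hgc.continuousOn) ⟨hgx1, hgx2⟩

lemma caseB2 (a b : ℝ) (hab : a < b) (M : ℝ → ℝ) (hMc : Continuous M) (hM0 : ∀ s, 0 ≤ M s)
    (hM1 : ∫ x in a..b, M x = 1)
    (hq : ∀ c > 0, ∀ s1 s2 s3 : ℝ, s1 < s2 → s2 < s3 → c ≤ M s1 → c ≤ M s3 → c ≤ M s2)
    (g : ℝ → ℝ) (hgc : Continuous g)
    (hgl : ∀ u ∈ Set.Icc a b, ∀ v ∈ Set.Icc a b, |g u - g v| ≤ |u - v|)
    (hg0 : ∫ x in a..b, M x * g x = 0) (c : ℝ) (hcc : ∫ x in a..b, M x * x = c)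
    (hz : ∀ x ∈ Set.Icc a b, g x = 0 → c < x) (t : ℝ) (ht : 0 ≤ t) :
    ∫ x in a..b, max (|g x| - t) 0 ≤ ∫ x in a..b, max (|x - c| - t) 0 := by
  obtain ⟨μ, hμ, hmax⟩ := isCompact_Icc.exists_isMaxOn (Set.nonempty_Icc.mpr hab.le)
    hMc.continuousOn
  have hmax' : ∀ x ∈ Set.Icc a b, M x ≤ M μ := fun x hx => hmax hx
  have mono : MonotoneOn M (Set.Icc a μ) := by
    intro u hu v hv huv
    rcases eq_or_lt_of_le huv with h | h
    · rw [h]
    rcases eq_or_lt_of_le hv.2 with h' | h'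
    · rw [h']; exact hmax' u ⟨hu.1, hu.2.trans hμ.2⟩
    rcases (hM0 u).lt_or_eq with h0 | h0
    · exact hq (M u) h0 u v μ h h' le_rfl (hmax' u ⟨hu.1, hu.2.trans hμ.2⟩)
    · rw [← h0]; exact hM0 v
  have anti : AntitoneOn M (Set.Icc μ b) := by
    intro u hu v hv huv
    rcases eq_or_lt_of_le huv with h | h
    · rw [h]
    rcases eq_or_lt_of_le hu.1 with h' | h'
    · rw [← h']; exact hmax' v ⟨hμ.1.trans hv.1, hv.2⟩
    rcases (hM0 v).lt_or_eq with h0 | h0
    · exact hq (M v) h0 μ u v h' h (hmax' v ⟨hμ.1.trans hv.1, hv.2⟩) le_rfl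
    · rw [← h0]; exact hM0 u
  -- the least zero
  have hZc : IsCompact (Set.Icc a b ∩ g ⁻¹' {0}) :=
    isCompact_Icc.inter_right (isClosed_singleton.preimage hgc)
  have hZn : (Set.Icc a b ∩ g ⁻¹' {0}).Nonempty := by
    obtain ⟨x, hx, hx0⟩ := exists_zero a b hab M hMc hM0 hM1 g hgc hg0
    exact ⟨x, hx, hx0⟩
  obtain ⟨x0, ⟨hx0, hgx0⟩, hleast⟩ := hZc.exists_isLeast hZn
  have z0 : g x0 = 0 := hgx0
  have hc : c < x0 := hz x0 hx0 z0
  have hne : ∀ x ∈ Set.Ico a x0, g x ≠ 0 := by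
    intro x hx h
    have := hleast ⟨⟨hx.1, hx.2.le.trans hx0.2⟩, h⟩
    linarith [hx.2]
  rcases lt_or_ge (g a) 0 with ha | ha
  · -- negative on [a,x0)
    have neg : ∀ x ∈ Set.Ico a x0, g x < 0 := by
      intro x hx
      by_contra hcon
      push Not at hcon
      obtain ⟨y, hy, hy0⟩ := (isPreconnected_Icc.intermediate_value
        (show a ∈ Set.Icc a x from ⟨le_rfl, hx.1⟩) (show x ∈ Set.Icc a x from ⟨hx.1, le_rfl⟩)
        hgc.continuousOn) ⟨ha.le, hcon⟩
      exact hne y ⟨hy.1, lt_of_le_of_lt hy.2 hx.2⟩ hy0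
    exact caseB a b hab M hMc hM0 hM1 μ hμ mono anti g hgc hgl hg0 c hcc x0 hx0 hc z0 neg t ht
  · have pos : ∀ x ∈ Set.Ico a x0, 0 < g x := by
      intro x hx
      by_contra hcon
      push Not at hcon
      obtain ⟨y, hy, hy0⟩ := (isPreconnected_Icc.intermediate_value
        (show x ∈ Set.Icc a x from ⟨hx.1, le_rfl⟩) (show a ∈ Set.Icc a x from ⟨le_rfl, hx.1⟩)
        hgc.continuousOn) ⟨hcon, ha⟩
      exact hne y ⟨hy.1, lt_of_le_of_lt hy.2 hx.2⟩ hy0
    have := caseB a b hab M hMc hM0 hM1 μ hμ mono anti (fun x => - g x) hgc.neg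
      (fun u hu v hv => by
        have := hgl u hu v hv
        rw [show -g u - -g v = -(g u - g v) by ring, abs_neg]
        exact this)
      (by
        have e : ∀ x, M x * (- g x) = - (M x * g x) := fun x => by ring
        simp_rw [e]
        rw [intervalIntegral.integral_neg, hg0, neg_zero])
      c hcc x0 hx0 hc (by simp [z0]) (fun x hx => by have := pos x hx; linarith) t ht
    simpa only [abs_neg] using this

theorem inside : ∀ (a b : ℝ), a < b → ∀ (M : ℝ → ℝ), Continuous M → (∀ s, 0 ≤ M s) →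
    (∫ x in a..b, M x = 1) →
    (∀ c > 0, ∀ s1 s2 s3 : ℝ, s1 < s2 → s2 < s3 → c ≤ M s1 → c ≤ M s3 → c ≤ M s2) →
    ∀ (g : ℝ → ℝ), Continuous g →
    (∀ u ∈ Set.Icc a b, ∀ v ∈ Set.Icc a b, |g u - g v| ≤ |u - v|) →
    (∫ x in a..b, M x * g x = 0) → ∀ c : ℝ, (∫ x in a..b, M x * x = c) →
    ∀ t : ℝ, 0 ≤ t →
    ∫ x in a..b, max (|g x| - t) 0 ≤ ∫ x in a..b, max (|x - c| - t) 0 := by
  intro a b hab M hMc hM0 hM1 hq g hgc hgl hg0 c hcc t ht
  by_cases p1 : ∀ x ∈ Set.Icc a b, g x = 0 → c < x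
  · exact caseB2 a b hab M hMc hM0 hM1 hq g hgc hgl hg0 c hcc p1 t ht
  by_cases p2 : ∀ x ∈ Set.Icc a b, g x = 0 → x < c
  · have refl : ∀ F : ℝ → ℝ, ∫ x in a..b, F (a + b - x) = ∫ x in a..b, F x := by
      intro F
      rw [intervalIntegral.integral_comp_sub_left F (a + b)]
      congr 1 <;> ring
    have q1 : ∫ x in a..b, M (a + b - x) = 1 := by rw [refl M]; exact hM1
    have q2 : ∫ x in a..b, M (a + b - x) * g (a + b - x) = 0 := by
      rw [refl (fun x => M x * g x)]; exact hg0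
    have q3 : ∫ x in a..b, M (a + b - x) * x = a + b - c := by
      have e := refl (fun x => M x * (a + b - x))
      have e2 : ∀ x, M (a + b - x) * (a + b - (a + b - x)) = M (a + b - x) * x := fun x => by
        ring
      simp_rw [e2] at e
      rw [e]
      have e3 : ∀ x, M x * (a + b - x) = (a + b) * M x - M x * x := fun x => by ring
      simp_rw [e3]
      rw [intervalIntegral.integral_sub
        ((by fun_prop : Continuous (fun x => (a + b) * M x)).intervalIntegrable _ _)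
        ((by fun_prop : Continuous (fun x => M x * x)).intervalIntegrable _ _),
        intervalIntegral.integral_const_mul, hcc, hM1]
      ring
    have main := caseB2 a b hab (fun x => M (a + b - x)) (by fun_prop) (fun s => hM0 _) q1
      (fun c hc s1 s2 s3 h12 h23 h1 h3 =>
        hq c hc (a + b - s3) (a + b - s2) (a + b - s1) (by linarith) (by linarith) h3 h1)
      (fun x => g (a + b - x)) (by fun_prop)
      (fun u hu v hv => by
        have := hgl (a + b - u) ⟨by linarith [hu.2], by linarith [hu.1]⟩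
          (a + b - v) ⟨by linarith [hv.2], by linarith [hv.1]⟩
        rw [show a + b - u - (a + b - v) = -(u - v) by ring, abs_neg] at this
        exact this)
      q2 (a + b - c) q3
      (fun x hx h => by
        have := p2 (a + b - x) ⟨by linarith [hx.2], by linarith [hx.1]⟩ h
        linarith) t ht
    have r1 := refl (fun x => max (|g x| - t) 0)
    have r2 := refl (fun x => max (|x - c| - t) 0)
    rw [← r1, ← r2]
    refine main.trans (le_of_eq ?_)
    apply intervalIntegral.integral_congr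
    intro x _
    simp only
    rw [show a + b - x - c = -(x - (a + b - c)) by ring, abs_neg]
  push Not at p1 p2
  obtain ⟨x1, hx1, z1, h1⟩ := p1
  obtain ⟨x0, hx0, z0, h0⟩ := p2
  exact caseA a b c t x1 x0 hx1.1 h1 h0 hx0.2 ht g hgc hgl z1 z0

end Pool.H34.LP
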