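import Mathlib

/-!
Leibniz rule for the product with a linear factor, and an identity for integrals.
-/

set_option autoImplicit false

namespace Pool.H34.LP

lemma hasDeriv_iter {j : ℕ} {U : ℝ → ℝ} (hU : ContDiff ℝ (j : WithTop ℕ∞) U) {i : ℕ} (hi : i < j)
    (x : ℝ) : HasDerivAt (iteratedDeriv i U) (iteratedDeriv (i + 1) U x) x := by
  have h1 : Differentiable ℝ (iteratedDeriv i U) :=
    hU.differentiable_iteratedDeriv i (by exact_mod_cast hi)
  have h2 := (h1 x).hasDerivAt
  rwa [← iteratedDeriv_succ] at h2

lemma leib (j : ℕ) (c : ℝ) (U : ℝ → ℝ) (hU : ContDiff ℝ (j : WithTop ℕ∞) U) (i : ℕ) (hi : i ≤ j)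
    (x : ℝ) : iteratedDeriv i (fun s => (s - c) * U s) x =
      (x - c) * iteratedDeriv i U x + i * iteratedDeriv (i - 1) U x := by
  induction i generalizing x with
  | zero => simp
  | succ i ih =>
    have h1 : iteratedDeriv i (fun s => (s - c) * U s) =
        fun x => (x - c) * iteratedDeriv i U x + i * iteratedDeriv (i - 1) U x :=
      funext fun x => ih (by omega) x
    rw [iteratedDeriv_succ, h1]
    have h2 := hasDeriv_iter hU (show i < j by omega) x
    have h3 : HasDerivAt (fun s : ℝ => s - c) 1 x := (hasDerivAt_id x).sub_const c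
    have h4 : HasDerivAt (fun x => (i : ℝ) * iteratedDeriv (i - 1) U x)
        ((i : ℝ) * iteratedDeriv i U x) x := by
      rcases i with - | i
      · simpa using hasDerivAt_const x (0 : ℝ)
      · have h5 := hasDeriv_iter hU (show i < j by omega) x
        simpa using h5.const_mul ((i + 1 : ℕ) : ℝ)
    have h6 := ((h3.mul h2).add h4).deriv
    rw [show (fun x => (x - c) * iteratedDeriv i U x + (i : ℝ) * iteratedDeriv (i - 1) U x) =
      ((fun s : ℝ => s - c) * iteratedDeriv i U) + fun x => (i : ℝ) * iteratedDeriv (i - 1) U x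
      from rfl, h6, Nat.add_sub_cancel]
    push_cast
    ring

lemma hd (j : ℕ) (c : ℝ) (P U : ℝ → ℝ) (hP : ContDiff ℝ ((j + 1 : ℕ) : WithTop ℕ∞) P)
    (hU : ContDiff ℝ (j : WithTop ℕ∞) U) (h : ∀ x, P x = (x - c) * U x) (x : ℝ) :
    HasDerivAt (fun s => (s - c) * iteratedDeriv j U s)
      (iteratedDeriv (j + 1) P x - j * iteratedDeriv j U x) x := by
  have hPU : P = fun s => (s - c) * U s := funext h
  have h1 : (fun s => (s - c) * iteratedDeriv j U s) =
      fun s => iteratedDeriv j P s - j * iteratedDeriv (j - 1) U s := by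
    funext s
    rw [hPU, leib j c U hU j le_rfl s]
    ring
  rw [h1]
  have h2 := hasDeriv_iter hP (show j < j + 1 by omega) x
  refine h2.sub ?_
  rcases j with - | j
  · simpa using hasDerivAt_const x (0 : ℝ)
  · have h5 := hasDeriv_iter hU (show j < j + 1 by omega) x
    simpa using h5.const_mul ((j + 1 : ℕ) : ℝ)

lemma ident (j α β a : ℝ) (p q h g : ℝ → ℝ) (hp : Continuous p) (hq : Continuous q)
    (dh : ∀ x, HasDerivAt h (p x) x) (dg : ∀ x, HasDerivAt g (q x) x) :
    ∫ x in α..β, ((x - a) * p x + j * h x) * ((x - a) * q x + j * g x) =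
      (∫ x in α..β, (x - a) ^ 2 * (p x * q x)) +
        j * ((β - a) * (h β * g β) - (α - a) * (h α * g α)) +
        j * (j - 1) * ∫ x in α..β, h x * g x := by
  have hh : Continuous h := continuous_iff_continuousAt.2 fun x => (dh x).continuousAt
  have hg : Continuous g := continuous_iff_continuousAt.2 fun x => (dg x).continuousAt
  have h1 : ∀ x, HasDerivAt (fun s => (s - a) * (h s * g s))
      (1 * (h x * g x) + (x - a) * (p x * g x + h x * q x)) x := fun x =>
    ((hasDerivAt_id x).sub_const a).mul ((dh x).mul (dg x))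
  have h2 : ∫ x in α..β, (1 * (h x * g x) + (x - a) * (p x * g x + h x * q x)) =
      (β - a) * (h β * g β) - (α - a) * (h α * g α) :=
    intervalIntegral.integral_eq_sub_of_hasDerivAt (fun x _ => h1 x)
      (Continuous.intervalIntegrable (by fun_prop) _ _)
  have i1 : IntervalIntegrable (fun x => (x - a) ^ 2 * (p x * q x)) MeasureTheory.volume α β :=
    Continuous.intervalIntegrable (by fun_prop) _ _
  have i2 : IntervalIntegrable (fun x => j * (1 * (h x * g x) + (x - a) * (p x * g x + h x * q x)))
      MeasureTheory.volume α β := Continuous.intervalIntegrable (by fun_prop) _ _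
  have i3 : IntervalIntegrable (fun x => j * (j - 1) * (h x * g x)) MeasureTheory.volume α β :=
    Continuous.intervalIntegrable (by fun_prop) _ _
  rw [← h2, ← intervalIntegral.integral_const_mul, ← intervalIntegral.integral_const_mul,
    ← intervalIntegral.integral_add i1 i2, ← intervalIntegral.integral_add (i1.add i2) i3]
  refine intervalIntegral.integral_congr fun x _ => ?_
  ring

end Pool.H34.LP
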