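import Pool.Agent.Helper611.BS.Def2

set_option autoImplicit false

namespace Pool.H34.LP

open Pool.H611.BS

/-- Rolle's theorem for the zeros of a function, counted without multiplicity. -/
lemma s2_rolle1 (U : ℝ → ℝ) (hU : Continuous U) (a b : ℝ) (r : ℕ) (X : Finset ℝ)
    (hX : X.card = r + 1) (hab : ∀ y ∈ X, y ∈ Set.Icc a b) (h0 : ∀ y ∈ X, U y = 0) :
    ∃ Z : Finset ℝ, Z.card = r ∧ ∀ z ∈ Z, z ∈ Set.Icc a b ∧ deriv U z = 0 := by
  classical
  let e := X.orderEmbOfFin hX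
  have hmem : ∀ i, e i ∈ X := fun i => Finset.orderEmbOfFin_mem X hX i
  have hR : ∀ i : Fin r, ∃ c ∈ Set.Ioo (e i.castSucc) (e i.succ), deriv U c = 0 := by
    intro i
    have hlt : e i.castSucc < e i.succ := e.strictMono (Fin.castSucc_lt_succ)
    exact exists_deriv_eq_zero hlt hU.continuousOn (by rw [h0 _ (hmem _), h0 _ (hmem _)])
  choose z hz hz0 using hR
  have hmono : StrictMono z := by
    intro i j hij
    have h1 := (hz i).2
    have h2 := (hz j).1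
    have h3 : e i.succ ≤ e j.castSucc := by
      apply e.monotone
      rw [Fin.le_def]
      simp only [Fin.val_succ, Fin.val_castSucc]
      exact hij
    linarith
  refine ⟨Finset.univ.image z, ?_, ?_⟩
  · rw [Finset.card_image_of_injective _ hmono.injective, Finset.card_univ, Fintype.card_fin]
  · intro w hw
    obtain ⟨i, -, rfl⟩ := Finset.mem_image.1 hw
    have h1 := hab _ (hmem i.castSucc)
    have h2 := hab _ (hmem i.succ)
    exact ⟨⟨h1.1.trans (hz i).1.le, (hz i).2.le.trans h2.2⟩, hz0 i⟩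

/-- Iterated Rolle theorem. -/
lemma s2_rolle (i : ℕ) : ∀ (U : ℝ → ℝ), ContDiff ℝ (i : WithTop ℕ∞) U → ∀ (a b : ℝ) (r : ℕ)
    (X : Finset ℝ), X.card = r + i → (∀ y ∈ X, y ∈ Set.Icc a b) → (∀ y ∈ X, U y = 0) →
    ∃ Z : Finset ℝ, Z.card = r ∧ ∀ z ∈ Z, z ∈ Set.Icc a b ∧ iteratedDeriv i U z = 0 := by
  induction i with
  | zero =>
    intro U _ a b r X hX hab h0
    exact ⟨X, hX, fun z hz => ⟨hab z hz, by rw [iteratedDeriv_zero]; exact h0 z hz⟩⟩
  | succ i ih =>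
    intro U hU a b r X hX hab h0
    obtain ⟨Z1, hZ1, hZ2⟩ := s2_rolle1 U hU.continuous a b (r + i) X (by omega) hab h0
    have hU' : ContDiff ℝ ((i : WithTop ℕ∞) + 1) U := by exact_mod_cast hU
    have hd : ContDiff ℝ (i : WithTop ℕ∞) (deriv U) := (contDiff_succ_iff_deriv.mp hU').2.2
    obtain ⟨Z, hZ, hZ'⟩ := ih (deriv U) hd a b r Z1 hZ1 (fun y hy => (hZ2 y hy).1)
      (fun y hy => (hZ2 y hy).2)
    refine ⟨Z, hZ, fun z hz => ⟨(hZ' z hz).1, ?_⟩⟩
    rw [iteratedDeriv_succ']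
    exact (hZ' z hz).2

lemma sgn1 (j : ℕ) (X : Finset ℝ) (hX : X.card = j + 1)
    (hX1 : ∀ y ∈ X, y ∈ Set.Icc (-1 : ℝ) 1) (U : ℝ → ℝ) (hU : Mon j U) (h0 : ∀ y ∈ X, U y = 0)
    (x : ℝ) (hx : x ∈ Set.Icc (-1 : ℝ) 1) :
    ((∀ y ∈ X, y ≤ x) → 0 ≤ iteratedDeriv j U x) ∧
      ((∀ y ∈ X, x ≤ y) → iteratedDeriv j U x ≤ 0) := by
  obtain ⟨hC, hmon⟩ := hU
  have hne : X.Nonempty := Finset.card_pos.1 (by omega)
  obtain ⟨Z, hZ, hZ'⟩ := s2_rolle j U hC (X.min' hne) (X.max' hne) 1 X (by omega)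
    (fun y hy => ⟨X.min'_le y hy, X.le_max' y hy⟩) h0
  obtain ⟨ξ, hξ⟩ := Finset.card_pos.1 (by omega : 0 < Z.card)
  obtain ⟨⟨h1, h2⟩, h3⟩ := hZ' ξ hξ
  have hmin := hX1 _ (X.min'_mem hne)
  have hmax := hX1 _ (X.max'_mem hne)
  have hξ1 : ξ ∈ Set.Icc (-1 : ℝ) 1 := ⟨hmin.1.trans h1, h2.trans hmax.2⟩
  constructor
  · intro h
    have h4 : ξ ≤ x := h2.trans (h _ (X.max'_mem hne))
    have h5 := hmon hξ1 hx h4
    rwa [h3] at h5
  · intro h
    have h4 : x ≤ ξ := (h _ (X.min'_mem hne)).trans h1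
    have h5 := hmon hx hξ1 h4
    rwa [h3] at h5

lemma sgn2 (j : ℕ) (X : Finset ℝ) (hX : X.card = j + 2)
    (hX1 : ∀ y ∈ X, y ∈ Set.Icc (-1 : ℝ) 1) (U : ℝ → ℝ) (hU : Mon (j + 1) U)
    (h0 : ∀ y ∈ X, U y = 0) (x : ℝ) (hx : x ∈ Set.Icc (-1 : ℝ) 1)
    (h : (∀ y ∈ X, y ≤ x) ∨ (∀ y ∈ X, x ≤ y)) : 0 ≤ iteratedDeriv j U x := by
  obtain ⟨hC, hmon⟩ := hU
  have hCj : ContDiff ℝ (j : WithTop ℕ∞) U := hC.of_le (by exact_mod_cast Nat.le_succ j)
  have hdiff : Differentiable ℝ (iteratedDeriv j U) :=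
    hC.differentiable_iteratedDeriv j (by exact_mod_cast Nat.lt_succ_self j)
  have hne : X.Nonempty := Finset.card_pos.1 (by omega)
  obtain ⟨Z, hZ, hZ'⟩ := s2_rolle j U hCj (X.min' hne) (X.max' hne) 2 X (by omega)
    (fun y hy => ⟨X.min'_le y hy, X.le_max' y hy⟩) h0
  have hmin := hX1 _ (X.min'_mem hne)
  have hmax := hX1 _ (X.max'_mem hne)
  obtain ⟨ξ, η, hne', rfl⟩ := Finset.card_eq_two.1 hZ
  -- order the two zeros
  have key : ∀ s t : ℝ, s < t → (s ∈ Set.Icc (X.min' hne) (X.max' hne) ∧ iteratedDeriv j U s = 0) →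
      (t ∈ Set.Icc (X.min' hne) (X.max' hne) ∧ iteratedDeriv j U t = 0) →
      0 ≤ iteratedDeriv j U x := by
    intro s t hst hs ht
    obtain ⟨c, hc, hc0⟩ := exists_deriv_eq_zero hst hdiff.continuous.continuousOn
      (by rw [hs.2, ht.2])
    rw [← iteratedDeriv_succ] at hc0
    have hc1 : c ∈ Set.Icc (-1 : ℝ) 1 :=
      ⟨(hmin.1.trans hs.1.1).trans hc.1.le, (hc.2.le.trans ht.1.2).trans hmax.2⟩
    rcases h with h | h
    · have htx : t ≤ x := ht.1.2.trans (h _ (X.max'_mem hne))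
      have hM : MonotoneOn (iteratedDeriv j U) (Set.Icc c 1) := by
        apply monotoneOn_of_deriv_nonneg (convex_Icc c 1) hdiff.continuous.continuousOn
          hdiff.differentiableOn
        intro y hy
        rw [interior_Icc] at hy
        rw [← iteratedDeriv_succ]
        have := hmon hc1 ⟨hc1.1.trans hy.1.le, hy.2.le⟩ hy.1.le
        rwa [hc0] at this
      have h5 := hM ⟨hc.2.le, (ht.1.2.trans hmax.2)⟩ ⟨hc.2.le.trans htx, hx.2⟩ htx
      rwa [ht.2] at h5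
    · have hxs : x ≤ s := (h _ (X.min'_mem hne)).trans hs.1.1
      have hM : AntitoneOn (iteratedDeriv j U) (Set.Icc (-1) c) := by
        apply antitoneOn_of_deriv_nonpos (convex_Icc (-1) c) hdiff.continuous.continuousOn
          hdiff.differentiableOn
        intro y hy
        rw [interior_Icc] at hy
        rw [← iteratedDeriv_succ]
        have := hmon ⟨hy.1.le, hy.2.le.trans hc1.2⟩ hc1 hy.2.le
        rwa [hc0] at this
      have h5 := hM ⟨hx.1, hxs.trans hc.1.le⟩ ⟨hmin.1.trans hs.1.1, hc.1.le⟩ hxs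
      rwa [hs.2] at h5
  have hξ := hZ' ξ (by simp)
  have hη := hZ' η (by simp)
  rcases lt_or_gt_of_ne hne' with hlt | hlt
  · exact key ξ η hlt hξ hη
  · exact key η ξ hlt hη hξ

end Pool.H34.LP
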