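import Mathlib

set_option autoImplicit false

namespace Pool.H34.LP

open MeasureTheory Set

/-- a monotone function is at most `(k + 1)` times its mean with the weight `(c - s) ^ k` -/
lemma step_le (k : ℕ) (c x : ℝ) (hx : x < c) (p u : ℝ → ℝ)
    (mp : ∀ s ∈ Icc x c, p x ≤ p s)
    (du : ∀ x, HasDerivAt (fun s => (s - c) * u s) (p x - k * u x) x) :
    p x ≤ (k + 1) * u x := by
  have hK : (0 : ℝ) < (k : ℝ) + 1 := by positivity
  -- the function `(c - s) ^ (k + 1) * u s = - (c - s) ^ k * ((s - c) * u s)`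
  have hd : ∀ s, HasDerivAt
      (fun s => -((c - s) ^ k * ((s - c) * u s)) - p x / (k + 1) * (c - s) ^ (k + 1))
      (-((c - s) ^ k * (p s - p x))) s := by
    intro s
    have h1 : HasDerivAt (fun s => c - s) (-1) s := by
      simpa using (hasDerivAt_id s).const_sub c
    have h2 := h1.pow k
    have h3 := h1.pow (k + 1)
    have h4 := ((h2.mul (du s)).neg).sub (h3.const_mul (p x / (k + 1)))
    refine h4.congr_deriv ?_
    rcases k with _ | k
    · simp
      ring
    · simp only [Nat.add_sub_cancel, Nat.cast_add, Nat.cast_one, Pi.pow_apply]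
      field_simp
      ring
  have hanti : AntitoneOn
      (fun s => -((c - s) ^ k * ((s - c) * u s)) - p x / (k + 1) * (c - s) ^ (k + 1)) (Icc x c) := by
    refine antitoneOn_of_deriv_nonpos (convex_Icc x c) (fun s _ => (hd s).continuousAt.continuousWithinAt)
      (fun s _ => (hd s).differentiableAt.differentiableWithinAt) fun s hs => ?_
    rw [interior_Icc] at hs
    rw [(hd s).deriv]
    have h1 := mp s ⟨hs.1.le, hs.2.le⟩
    have h2 : 0 ≤ (c - s) ^ k := pow_nonneg (by linarith [hs.2]) k
    have := mul_nonneg h2 (sub_nonneg.2 h1)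
    linarith
  have h5 := hanti ⟨le_rfl, hx.le⟩ ⟨hx.le, le_rfl⟩ hx.le
  simp only [sub_self, zero_mul, mul_zero, neg_zero, zero_pow (Nat.succ_ne_zero k)] at h5
  have h6 : -((c - x) ^ k * ((x - c) * u x)) - p x / (k + 1) * (c - x) ^ (k + 1) =
      (c - x) ^ (k + 1) * (u x - p x / (k + 1)) := by ring
  rw [h6] at h5
  have h7 : 0 < (c - x) ^ (k + 1) := pow_pos (by linarith) _
  have h8 : 0 ≤ u x - p x / (k + 1) := by
    by_contra h
    push Not at h
    nlinarith
  have h9 : p x / (k + 1) ≤ u x := by linarith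
  rw [div_le_iff₀ hK] at h9
  linarith

lemma step (k : ℕ) (α c : ℝ) (hαc : α ≤ c) (p q u v : ℝ → ℝ) (hp : Continuous p)
    (hq : Continuous q) (hu : Continuous u) (hv : Continuous v)
    (mp : MonotoneOn p (Set.Icc α c)) (mq : MonotoneOn q (Set.Icc α c))
    (du : ∀ x, HasDerivAt (fun s => (s - c) * u s) (p x - k * u x) x)
    (dv : ∀ x, HasDerivAt (fun s => (s - c) * v s) (q x - k * v x) x)
    (huv : 0 ≤ u α * v α) (A B C : ℝ) (hW : ∀ x ∈ Set.Icc α c, 0 ≤ A * x ^ 2 + B * x + C)
    (hI : 0 ≤ ∫ x in α..c, (k * (A * x ^ 2 + B * x + C) + (c - x) * (2 * A * x + B)) * (u x * v x)) :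
    0 ≤ ∫ x in α..c, (A * x ^ 2 + B * x + C) * (p x * q x) := by
  have hK : (0 : ℝ) ≤ (k : ℝ) + 1 := by positivity
  -- (b)
  set D : ℝ → ℝ := fun x => (2 * A * x + B) * ((x - c) * (u x * v x)) +
    (A * x ^ 2 + B * x + C) * (p x * v x + u x * q x - (2 * k + 1) * (u x * v x)) with hD
  have hF : ∀ x ∈ Ioo α c, HasDerivAt (fun x => (A * x ^ 2 + B * x + C) * ((x - c) * (u x * v x)))
      (D x) x := by
    intro x hx
    have hne : x - c ≠ 0 := by linarith [hx.2]
    have h1 : HasDerivAt (fun s => s - c) 1 x := (hasDerivAt_id x).sub_const c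
    have h2 : HasDerivAt (fun s => ((s - c) * v s) / (s - c))
        (((q x - k * v x) * (x - c) - (x - c) * v x * 1) / (x - c) ^ 2) x := (dv x).div h1 hne
    have h3 : HasDerivAt v (((q x - k * v x) * (x - c) - (x - c) * v x * 1) / (x - c) ^ 2) x := by
      refine h2.congr_of_eventuallyEq ?_
      filter_upwards [isOpen_ne.mem_nhds (show x ≠ c from fun h => hne (by rw [h]; ring))] with s hs
      have : s - c ≠ 0 := sub_ne_zero.2 hs
      field_simp
    have h4 : HasDerivAt (fun x => A * x ^ 2 + B * x + C) (A * (2 * x) + B) x := by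
      have h5 : HasDerivAt (fun x : ℝ => x ^ 2) (2 * x) x := by simpa using hasDerivAt_pow 2 x
      have h6 := ((h5.const_mul A).add ((hasDerivAt_id x).const_mul B)).add_const C
      simpa using h6
    have h7 := h4.mul ((du x).mul h3)
    have h8 : (fun x => (A * x ^ 2 + B * x + C) * ((x - c) * (u x * v x))) =
        (fun x => A * x ^ 2 + B * x + C) * ((fun s => (s - c) * u s) * v) := by
      funext s
      simp only [Pi.mul_apply]
      ring
    rw [h8]
    refine h7.congr_deriv ?_
    simp only [hD, Pi.mul_apply]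
    field_simp
    ring
  have hDc : Continuous D := by
    rw [hD]
    fun_prop
  have hDint : ∫ x in α..c, D x = (A * α ^ 2 + B * α + C) * ((c - α) * (u α * v α)) := by
    rw [intervalIntegral.integral_eq_sub_of_hasDerivAt_of_le hαc
      (f := fun x => (A * x ^ 2 + B * x + C) * ((x - c) * (u x * v x)))
      (by fun_prop) hF (hDc.intervalIntegrable _ _)]
    ring
  have hD0 : 0 ≤ ∫ x in α..c, D x := by
    rw [hDint]
    exact mul_nonneg (hW α ⟨le_rfl, hαc⟩) (mul_nonneg (by linarith) huv)
  -- (a)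
  have hS : 0 ≤ ∫ x in α..c, (A * x ^ 2 + B * x + C) *
      ((p x - (k + 1) * u x) * (q x - (k + 1) * v x)) := by
    have h0 : ∫ x in α..c, (0 : ℝ) ≤ ∫ x in α..c, (A * x ^ 2 + B * x + C) *
        ((p x - (k + 1) * u x) * (q x - (k + 1) * v x)) := by
      refine intervalIntegral.integral_mono_on_of_le_Ioo hαc
        (continuous_const.intervalIntegrable _ _)
        (Continuous.intervalIntegrable (by fun_prop) _ _) fun x hx => ?_
      have h1 := step_le k c x hx.2 p u
        (fun s hs => mp ⟨hx.1.le, hx.2.le⟩ ⟨hx.1.le.trans hs.1, hs.2⟩ hs.1) du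
      have h2 := step_le k c x hx.2 q v
        (fun s hs => mq ⟨hx.1.le, hx.2.le⟩ ⟨hx.1.le.trans hs.1, hs.2⟩ hs.1) dv
      exact mul_nonneg (hW x ⟨hx.1.le, hx.2.le⟩)
        (mul_nonneg_of_nonpos_of_nonpos (by linarith) (by linarith))
    simpa using h0
  -- (c)
  have hsum : ∫ x in α..c, (A * x ^ 2 + B * x + C) * (p x * q x) =
      (∫ x in α..c, (A * x ^ 2 + B * x + C) * ((p x - (k + 1) * u x) * (q x - (k + 1) * v x))) +
      ((∫ x in α..c, ((k : ℝ) + 1) * D x) + ∫ x in α..c, ((k : ℝ) + 1) *
        ((k * (A * x ^ 2 + B * x + C) + (c - x) * (2 * A * x + B)) * (u x * v x))) := by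
    rw [← intervalIntegral.integral_add (Continuous.intervalIntegrable (by fun_prop) _ _)
      (Continuous.intervalIntegrable (by fun_prop) _ _),
      ← intervalIntegral.integral_add (Continuous.intervalIntegrable (by fun_prop) _ _)
      (Continuous.intervalIntegrable (by fun_prop) _ _)]
    refine intervalIntegral.integral_congr fun x _ => ?_
    simp only [hD]
    ring
  rw [hsum, intervalIntegral.integral_const_mul, intervalIntegral.integral_const_mul]
  have := mul_nonneg hK hD0
  have := mul_nonneg hK hI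
  linarith

end Pool.H34.LP
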