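import Mathlib
import Pool.Agent.Helper34.LP.S1
import Pool.Agent.Helper34.LP.S2
import Pool.Agent.Helper34.LP.S3
import Pool.Agent.Helper611.BS.T1

set_option autoImplicit false

namespace Pool.H34.LP
open MeasureTheory Pool.H611.BS

/-- weighted top case -/
theorem top (k : ℕ) : ∀ (X : Finset ℝ), X.card = k + 1 → (∀ y ∈ X, y ∈ Set.Icc (-1 : ℝ) 1) →
    ∀ P Q : ℝ → ℝ, Mon k P → Mon k Q → (∀ y ∈ X, P y = 0) → (∀ y ∈ X, Q y = 0) →
    ∀ (α β : ℝ), α ∈ X → β ∈ X → (∀ y ∈ X, α ≤ y ∧ y ≤ β) →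
    ∀ A B C : ℝ, (∀ x ∈ Set.Icc α β, 0 ≤ A * x ^ 2 + B * x + C) →
      (1 ≤ k → ∀ x ∈ Set.Icc α β, 0 ≤ 2 * A * x + B) → (2 ≤ k → 0 ≤ A) →
      0 ≤ ∫ x in α..β, (A * x ^ 2 + B * x + C) * (iteratedDeriv k P x * iteratedDeriv k Q x) := by
  induction k with
  | zero =>
    intro X hX hX1 P Q hP hQ hP0 hQ0 α β hα hβ hαβ A B C hW _ _
    rw [Finset.card_eq_one] at hX
    obtain ⟨z, rfl⟩ := hX
    rw [Finset.mem_singleton] at hα hβ
    rw [hα, hβ, intervalIntegral.integral_same]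
  | succ k ih =>
    intro X hX hX1 P Q hP hQ hP0 hQ0 α β hα hβ hαβ A B C hW hW1 hW2
    have hαβ' : α ≤ β := (hαβ α hα).2
    have hβ1 := hX1 β hβ
    have hα1 := hX1 α hα
    obtain ⟨U, hU, hPU⟩ := mon_div k P hP β hβ1 (hP0 β hβ)
    obtain ⟨V, hV, hQV⟩ := mon_div k Q hQ β hβ1 (hQ0 β hβ)
    set Y := X.erase β with hY
    have hYc : Y.card = k + 1 := by rw [hY, Finset.card_erase_of_mem hβ, hX]; omega
    have hYX : ∀ y ∈ Y, y ∈ X := fun y hy => Finset.mem_of_mem_erase hy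
    have hYne : ∀ y ∈ Y, y ≠ β := fun y hy => Finset.ne_of_mem_erase hy
    have hY1 : ∀ y ∈ Y, y ∈ Set.Icc (-1 : ℝ) 1 := fun y hy => hX1 y (hYX y hy)
    have hU0 : ∀ y ∈ Y, U y = 0 := by
      intro y hy
      have h1 := hPU y
      rw [hP0 y (hYX y hy)] at h1
      rcases mul_eq_zero.mp h1.symm with h2 | h2
      · exact absurd (sub_eq_zero.mp h2) (hYne y hy)
      · exact h2
    have hV0 : ∀ y ∈ Y, V y = 0 := by
      intro y hy
      have h1 := hQV y
      rw [hQ0 y (hYX y hy)] at h1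
      rcases mul_eq_zero.mp h1.symm with h2 | h2
      · exact absurd (sub_eq_zero.mp h2) (hYne y hy)
      · exact h2
    have hYn : Y.Nonempty := by
      rw [← Finset.card_pos, hYc]; omega
    -- α lies in Y
    have hαY : α ∈ Y := by
      rw [hY, Finset.mem_erase]
      refine ⟨?_, hα⟩
      rintro rfl
      obtain ⟨y, hy⟩ := hYn
      have := hαβ y (hYX y hy)
      exact hYne y hy (le_antisymm this.2 this.1)
    obtain ⟨γ, hγ, hγmax⟩ := Y.exists_max_image id hYn
    simp only [id] at hγmax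
    have hαγ : α ≤ γ := hγmax α hαY
    have hγβ : γ ≤ β := (hαβ γ (hYX γ hγ)).2
    have cu : Continuous (iteratedDeriv k U) := hU.1.continuous_iteratedDeriv k le_rfl
    have cv : Continuous (iteratedDeriv k V) := hV.1.continuous_iteratedDeriv k le_rfl
    have cp : Continuous (iteratedDeriv (k + 1) P) := hP.1.continuous_iteratedDeriv (k + 1) le_rfl
    have cq : Continuous (iteratedDeriv (k + 1) Q) := hQ.1.continuous_iteratedDeriv (k + 1) le_rfl
    have hsub : Set.Icc α β ⊆ Set.Icc (-1 : ℝ) 1 := Set.Icc_subset_Icc hα1.1 hβ1.2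
    have uα := (sgn1 k Y hYc hY1 U hU hU0 α hα1).2 (fun y hy => (hαβ y (hYX y hy)).1)
    have vα := (sgn1 k Y hYc hY1 V hV hV0 α hα1).2 (fun y hy => (hαβ y (hYX y hy)).1)
    refine step k α β hαβ' _ _ (iteratedDeriv k U) (iteratedDeriv k V) cp cq cu cv
      (hP.2.mono hsub) (hQ.2.mono hsub) (hd k β P U hP.1 hU.1 hPU) (hd k β Q V hQ.1 hV.1 hQV)
      (mul_nonneg_of_nonpos_of_nonpos uα vα) A B C hW ?_
    have hk0 : (0 : ℝ) ≤ k := Nat.cast_nonneg k
    have hW1' := hW1 (by omega)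
    have hnew : ∀ x ∈ Set.Icc α β,
        0 ≤ k * (A * x ^ 2 + B * x + C) + (β - x) * (2 * A * x + B) := by
      intro x hx
      have h1 := hW x hx
      have h2 := hW1' x hx
      have h3 : 0 ≤ β - x := by linarith [hx.2]
      positivity
    have ci : ∀ u v : ℝ, IntervalIntegrable (fun x =>
        (k * (A * x ^ 2 + B * x + C) + (β - x) * (2 * A * x + B)) *
          (iteratedDeriv k U x * iteratedDeriv k V x)) volume u v := fun u v =>
      (by fun_prop : Continuous (fun x =>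
        (k * (A * x ^ 2 + B * x + C) + (β - x) * (2 * A * x + B)) *
          (iteratedDeriv k U x * iteratedDeriv k V x))).intervalIntegrable u v
    rw [← intervalIntegral.integral_add_adjacent_intervals (ci α γ) (ci γ β)]
    have i2 : 0 ≤ ∫ x in γ..β, (k * (A * x ^ 2 + B * x + C) + (β - x) * (2 * A * x + B)) *
          (iteratedDeriv k U x * iteratedDeriv k V x) := by
      apply intervalIntegral.integral_nonneg hγβ
      intro x hx
      have hx1 : x ∈ Set.Icc (-1 : ℝ) 1 := hsub ⟨hαγ.trans hx.1, hx.2⟩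
      have s1 := (sgn1 k Y hYc hY1 U hU hU0 x hx1).1 (fun y hy => (hγmax y hy).trans hx.1)
      have s2 := (sgn1 k Y hYc hY1 V hV hV0 x hx1).1 (fun y hy => (hγmax y hy).trans hx.1)
      exact mul_nonneg (hnew x ⟨hαγ.trans hx.1, hx.2⟩) (mul_nonneg s1 s2)
    have i1 := ih Y hYc hY1 U V hU hV hU0 hV0 α γ hαY hγ
      (fun y hy => ⟨(hαβ y (hYX y hy)).1, hγmax y hy⟩)
      (k * A - 2 * A) (k * B + 2 * A * β - B) (k * C + β * B) ?_ ?_ ?_
    · have e : ∀ x : ℝ, ((k * A - 2 * A) * x ^ 2 + (k * B + 2 * A * β - B) * x + (k * C + β * B))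
          = k * (A * x ^ 2 + B * x + C) + (β - x) * (2 * A * x + B) := fun x => by ring
      simp_rw [e] at i1
      linarith
    · intro x hx
      have e : ((k * A - 2 * A) * x ^ 2 + (k * B + 2 * A * β - B) * x + (k * C + β * B))
          = k * (A * x ^ 2 + B * x + C) + (β - x) * (2 * A * x + B) := by ring
      rw [e]
      exact hnew x ⟨hx.1, hx.2.trans hγβ⟩
    · intro hk x hx
      have hk1 : (1 : ℝ) ≤ k := by exact_mod_cast hk
      have h2 := hW1' x ⟨hx.1, hx.2.trans hγβ⟩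
      have hA := hW2 (by omega)
      have h3 : 0 ≤ β - x := by linarith [hx.2, hγβ]
      have e : 2 * (k * A - 2 * A) * x + (k * B + 2 * A * β - B)
          = (k - 1) * (2 * A * x + B) + 2 * A * (β - x) := by ring
      rw [e]
      have h4 : 0 ≤ (k : ℝ) - 1 := by linarith
      positivity
    · intro hk
      have hk2 : (2 : ℝ) ≤ k := by exact_mod_cast hk
      have hA := hW2 (by omega)
      have : k * A - 2 * A = (k - 2) * A := by ring
      rw [this]
      exact mul_nonneg (by linarith) hA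

end Pool.H34.LP
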