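import Mathlib
import Pool.Agent.Helper34.LP.S1
import Pool.Agent.Helper34.LP.S2
import Pool.Agent.Helper34.LP.S3
import Pool.Agent.Helper34.LP.I4

set_option autoImplicit false

namespace Pool.H34.LP
open MeasureTheory Pool.H611.BS

theorem hull2 (j : ℕ) : ∀ (X : Finset ℝ), X.card = j + 2 → (∀ y ∈ X, y ∈ Set.Icc (-1 : ℝ) 1) →
    ∀ P Q : ℝ → ℝ, Mon (j + 1) P → Mon (j + 1) Q → (∀ y ∈ X, P y = 0) → (∀ y ∈ X, Q y = 0) →
    ∀ (α β : ℝ), α ∈ X → β ∈ X → (∀ y ∈ X, α ≤ y ∧ y ≤ β) →
      0 ≤ ∫ x in α..β, iteratedDeriv j P x * iteratedDeriv j Q x := by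
  induction j with
  | zero =>
    intro X hX hX1 P Q hP hQ hP0 hQ0 α β hα hβ hαβ
    have hαβ' : α ≤ β := (hαβ α hα).2
    have hα1 := hX1 α hα
    have hβ1 := hX1 β hβ
    obtain ⟨U, hU, hPU⟩ := mon_div 0 P hP α hα1 (hP0 α hα)
    obtain ⟨V, hV, hQV⟩ := mon_div 0 Q hQ α hα1 (hQ0 α hα)
    have hne : α < β := by
      rcases eq_or_lt_of_le hαβ' with h | h
      · exfalso
        have : X ⊆ {α} := by
          intro y hy
          have := hαβ y hy
          rw [Finset.mem_singleton]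
          exact le_antisymm (by rw [h]; exact this.2) this.1
        have := Finset.card_le_card this
        rw [hX, Finset.card_singleton] at this
        omega
      · exact h
    have key : ∀ (F G : ℝ → ℝ), Mon 0 G → (∀ x, F x = (x - α) * G x) → F β = 0 →
        ∀ x ∈ Set.Icc α β, F x ≤ 0 := by
      intro F G hG hFG hF x hx
      have h1 : G β = 0 := by
        have := hFG β
        rw [hF] at this
        rcases mul_eq_zero.mp this.symm with h2 | h2
        · linarith
        · exact h2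
      have h2 := hG.2 ⟨hα1.1.trans hx.1, hx.2.trans hβ1.2⟩ hβ1 hx.2
      rw [iteratedDeriv_zero, h1] at h2
      rw [hFG]
      exact mul_nonpos_of_nonneg_of_nonpos (by linarith [hx.1]) h2
    apply intervalIntegral.integral_nonneg hαβ'
    intro x hx
    rw [iteratedDeriv_zero, iteratedDeriv_zero]
    exact mul_nonneg_of_nonpos_of_nonpos (key P U hU hPU (hP0 β hβ) x hx)
      (key Q V hV hQV (hQ0 β hβ) x hx)
  | succ j ih =>
    intro X hX hX1 P Q hP hQ hP0 hQ0 α β hα hβ hαβ
    have hαβ' : α ≤ β := (hαβ α hα).2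
    have hα1 := hX1 α hα
    have hβ1 := hX1 β hβ
    obtain ⟨U, hU, hPU⟩ := mon_div (j + 1) P hP α hα1 (hP0 α hα)
    obtain ⟨V, hV, hQV⟩ := mon_div (j + 1) Q hQ α hα1 (hQ0 α hα)
    set Y := X.erase α with hY
    have hYc : Y.card = j + 2 := by rw [hY, Finset.card_erase_of_mem hα, hX]; omega
    have hYX : ∀ y ∈ Y, y ∈ X := fun y hy => Finset.mem_of_mem_erase hy
    have hYne : ∀ y ∈ Y, y ≠ α := fun y hy => Finset.ne_of_mem_erase hy
    have hY1 : ∀ y ∈ Y, y ∈ Set.Icc (-1 : ℝ) 1 := fun y hy => hX1 y (hYX y hy)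
    have hU0 : ∀ y ∈ Y, U y = 0 := by
      intro y hy
      have h1 := hPU y
      rw [hP0 y (hYX y hy)] at h1
      rcases mul_eq_zero.mp h1.symm with h2 | h2
      · exact absurd (sub_eq_zero.mp h2) (hYne y hy)
      · exact h2
    have hV0 : ∀ y ∈ Y, V y = 0 := by
      intro y hy
      have h1 := hQV y
      rw [hQ0 y (hYX y hy)] at h1
      rcases mul_eq_zero.mp h1.symm with h2 | h2
      · exact absurd (sub_eq_zero.mp h2) (hYne y hy)
      · exact h2
    have hYn : Y.Nonempty := by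
      rw [← Finset.card_pos, hYc]; omega
    have hβY : β ∈ Y := by
      rw [hY, Finset.mem_erase]
      refine ⟨?_, hβ⟩
      rintro rfl
      obtain ⟨y, hy⟩ := hYn
      have := hαβ y (hYX y hy)
      exact hYne y hy (le_antisymm this.2 this.1)
    obtain ⟨γ, hγ, hγmin⟩ := Y.exists_min_image id hYn
    simp only [id] at hγmin
    have hγβ : γ ≤ β := hγmin β hβY
    have hαγ : α ≤ γ := (hαβ γ (hYX γ hγ)).1
    have hsub : Set.Icc α β ⊆ Set.Icc (-1 : ℝ) 1 := Set.Icc_subset_Icc hα1.1 hβ1.2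
    have cp : Continuous (iteratedDeriv (j + 1) U) := hU.1.continuous_iteratedDeriv (j + 1) le_rfl
    have cq : Continuous (iteratedDeriv (j + 1) V) := hV.1.continuous_iteratedDeriv (j + 1) le_rfl
    have dU : ∀ x, HasDerivAt (iteratedDeriv j U) (iteratedDeriv (j + 1) U x) x := by
      intro x
      rw [iteratedDeriv_succ]
      exact ((hU.1.differentiable_iteratedDeriv j (by exact_mod_cast Nat.lt_succ_self j)) x).hasDerivAt
    have dV : ∀ x, HasDerivAt (iteratedDeriv j V) (iteratedDeriv (j + 1) V x) x := by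
      intro x
      rw [iteratedDeriv_succ]
      exact ((hV.1.differentiable_iteratedDeriv j (by exact_mod_cast Nat.lt_succ_self j)) x).hasDerivAt
    have ch : Continuous (iteratedDeriv j U) := continuous_iff_continuousAt.mpr
      (fun x => (dU x).continuousAt)
    have cg : Continuous (iteratedDeriv j V) := continuous_iff_continuousAt.mpr
      (fun x => (dV x).continuousAt)
    have eP : ∀ x, iteratedDeriv (j + 1) P x = (x - α) * iteratedDeriv (j + 1) U x
        + ((j + 1 : ℕ) : ℝ) * iteratedDeriv j U x := by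
      intro x
      have h1 := leib (j + 1) α U hU.1 (j + 1) le_rfl x
      have h2 : P = fun s => (s - α) * U s := funext hPU
      rw [h2]
      simpa using h1
    have eQ : ∀ x, iteratedDeriv (j + 1) Q x = (x - α) * iteratedDeriv (j + 1) V x
        + ((j + 1 : ℕ) : ℝ) * iteratedDeriv j V x := by
      intro x
      have h1 := leib (j + 1) α V hV.1 (j + 1) le_rfl x
      have h2 : Q = fun s => (s - α) * V s := funext hQV
      rw [h2]
      simpa using h1
    simp_rw [eP, eQ]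
    rw [ident ((j + 1 : ℕ) : ℝ) α β α _ _ _ _ cp cq dU dV]
    -- first term
    have ci : ∀ u v : ℝ, IntervalIntegrable (fun x =>
        (x - α) ^ 2 * (iteratedDeriv (j + 1) U x * iteratedDeriv (j + 1) V x)) volume u v :=
      fun u v => (by fun_prop : Continuous (fun x =>
        (x - α) ^ 2 * (iteratedDeriv (j + 1) U x * iteratedDeriv (j + 1) V x))).intervalIntegrable
          u v
    have t1 : 0 ≤ ∫ x in α..β,
        (x - α) ^ 2 * (iteratedDeriv (j + 1) U x * iteratedDeriv (j + 1) V x) := by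
      rw [← intervalIntegral.integral_add_adjacent_intervals (ci α γ) (ci γ β)]
      have i1 : 0 ≤ ∫ x in α..γ,
          (x - α) ^ 2 * (iteratedDeriv (j + 1) U x * iteratedDeriv (j + 1) V x) := by
        apply intervalIntegral.integral_nonneg hαγ
        intro x hx
        have hx1 : x ∈ Set.Icc (-1 : ℝ) 1 := hsub ⟨hx.1, hx.2.trans hγβ⟩
        have s1 := (sgn1 (j + 1) Y hYc hY1 U hU hU0 x hx1).2
          (fun y hy => hx.2.trans (hγmin y hy))
        have s2 := (sgn1 (j + 1) Y hYc hY1 V hV hV0 x hx1).2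
          (fun y hy => hx.2.trans (hγmin y hy))
        exact mul_nonneg (sq_nonneg _) (mul_nonneg_of_nonpos_of_nonpos s1 s2)
      have i2 := top (j + 1) Y hYc hY1 U V hU hV hU0 hV0 γ β hγ hβY
        (fun y hy => ⟨hγmin y hy, (hαβ y (hYX y hy)).2⟩) 1 (-2 * α) (α ^ 2)
        (fun x _ => by nlinarith [sq_nonneg (x - α)])
        (fun _ x hx => by linarith [hx.1]) (fun _ => zero_le_one)
      have e : ∀ x : ℝ, (1 * x ^ 2 + -2 * α * x + α ^ 2) = (x - α) ^ 2 := fun x => by ring
      simp_rw [e] at i2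
      linarith
    -- boundary
    have s1 := sgn2 j Y hYc hY1 U hU hU0 β hβ1 (Or.inl fun y hy => (hαβ y (hYX y hy)).2)
    have s2 := sgn2 j Y hYc hY1 V hV hV0 β hβ1 (Or.inl fun y hy => (hαβ y (hYX y hy)).2)
    have t2 : 0 ≤ (β - α) * (iteratedDeriv j U β * iteratedDeriv j V β) :=
      mul_nonneg (by linarith) (mul_nonneg s1 s2)
    -- third term
    have ci3 : ∀ u v : ℝ, IntervalIntegrable (fun x =>
        iteratedDeriv j U x * iteratedDeriv j V x) volume u v :=
      fun u v => (ch.mul cg).intervalIntegrable u v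
    have t3 : 0 ≤ ∫ x in α..β, iteratedDeriv j U x * iteratedDeriv j V x := by
      rw [← intervalIntegral.integral_add_adjacent_intervals (ci3 α γ) (ci3 γ β)]
      have i1 : 0 ≤ ∫ x in α..γ, iteratedDeriv j U x * iteratedDeriv j V x := by
        apply intervalIntegral.integral_nonneg hαγ
        intro x hx
        have hx1 : x ∈ Set.Icc (-1 : ℝ) 1 := hsub ⟨hx.1, hx.2.trans hγβ⟩
        exact mul_nonneg
          (sgn2 j Y hYc hY1 U hU hU0 x hx1 (Or.inr fun y hy => hx.2.trans (hγmin y hy)))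
          (sgn2 j Y hYc hY1 V hV hV0 x hx1 (Or.inr fun y hy => hx.2.trans (hγmin y hy)))
      have i2 := ih Y hYc hY1 U V hU hV hU0 hV0 γ β hγ hβY
        (fun y hy => ⟨hγmin y hy, (hαβ y (hYX y hy)).2⟩)
      linarith
    have hj0 : (0 : ℝ) ≤ ((j + 1 : ℕ) : ℝ) := Nat.cast_nonneg _
    have hj1 : (0 : ℝ) ≤ ((j + 1 : ℕ) : ℝ) - 1 := by push_cast; linarith [Nat.cast_nonneg (α := ℝ) j]
    have e0 : (α - α) * (iteratedDeriv j U α * iteratedDeriv j V α) = 0 := by ring
    rw [e0, sub_zero]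
    have := mul_nonneg hj0 t2
    have := mul_nonneg (mul_nonneg hj0 hj1) t3
    linarith

theorem main (j : ℕ) (X : Finset ℝ) (hX : X.card = j + 2) (hX1 : ∀ y ∈ X, y ∈ Set.Icc (-1 : ℝ) 1)
    (P Q : ℝ → ℝ) (hP : Mon (j + 1) P) (hQ : Mon (j + 1) Q) (hP0 : ∀ y ∈ X, P y = 0)
    (hQ0 : ∀ y ∈ X, Q y = 0) :
    0 ≤ ∫ x in (-1 : ℝ)..1, iteratedDeriv j P x * iteratedDeriv j Q x := by
  have hXn : X.Nonempty := by
    rw [← Finset.card_pos, hX]; omega
  obtain ⟨α, hα, hmin⟩ := X.exists_min_image id hXn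
  obtain ⟨β, hβ, hmax⟩ := X.exists_max_image id hXn
  simp only [id] at hmin hmax
  have hα1 := hX1 α hα
  have hβ1 := hX1 β hβ
  have hle : ((j : ℕ) : WithTop ℕ∞) ≤ ((j + 1 : ℕ) : WithTop ℕ∞) := by
    exact_mod_cast Nat.le_succ j
  have cP : Continuous (iteratedDeriv j P) := hP.1.continuous_iteratedDeriv j hle
  have cQ : Continuous (iteratedDeriv j Q) := hQ.1.continuous_iteratedDeriv j hle
  have ci : ∀ u v : ℝ, IntervalIntegrable (fun x =>
      iteratedDeriv j P x * iteratedDeriv j Q x) volume u v := fun u v =>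
    (cP.mul cQ).intervalIntegrable u v
  have h1 : 0 ≤ ∫ x in (-1 : ℝ)..α, iteratedDeriv j P x * iteratedDeriv j Q x := by
    apply intervalIntegral.integral_nonneg hα1.1
    intro x hx
    have hx1 : x ∈ Set.Icc (-1 : ℝ) 1 := ⟨hx.1, hx.2.trans hα1.2⟩
    exact mul_nonneg
      (sgn2 j X hX hX1 P hP hP0 x hx1 (Or.inr fun y hy => hx.2.trans (hmin y hy)))
      (sgn2 j X hX hX1 Q hQ hQ0 x hx1 (Or.inr fun y hy => hx.2.trans (hmin y hy)))
  have h2 : 0 ≤ ∫ x in β..1, iteratedDeriv j P x * iteratedDeriv j Q x := by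
    apply intervalIntegral.integral_nonneg hβ1.2
    intro x hx
    have hx1 : x ∈ Set.Icc (-1 : ℝ) 1 := ⟨hβ1.1.trans hx.1, hx.2⟩
    exact mul_nonneg
      (sgn2 j X hX hX1 P hP hP0 x hx1 (Or.inl fun y hy => (hmax y hy).trans hx.1))
      (sgn2 j X hX hX1 Q hQ hQ0 x hx1 (Or.inl fun y hy => (hmax y hy).trans hx.1))
  have h3 := hull2 j X hX hX1 P Q hP hQ hP0 hQ0 α β hα hβ (fun y hy => ⟨hmin y hy, hmax y hy⟩)
  rw [← intervalIntegral.integral_add_adjacent_intervals (ci (-1) α) (ci α 1),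
    ← intervalIntegral.integral_add_adjacent_intervals (ci α β) (ci β 1)]
  linarith

end Pool.H34.LP
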