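import Pool.Agent.Helper34.LP.S3

set_option autoImplicit false

namespace Pool.H34.LP

open MeasureTheory Set

lemma stepW (k : ℕ) (α c : ℝ) (hαc : α ≤ c) (p q u v : ℝ → ℝ) (hp : Continuous p)
    (hq : Continuous q) (hu : Continuous u) (hv : Continuous v)
    (mp : MonotoneOn p (Set.Icc α c)) (mq : MonotoneOn q (Set.Icc α c))
    (du : ∀ x, HasDerivAt (fun s => (s - c) * u s) (p x - k * u x) x)
    (dv : ∀ x, HasDerivAt (fun s => (s - c) * v s) (q x - k * v x) x)
    (huv : 0 ≤ u α * v α) (W W1 : ℝ → ℝ) (dW : ∀ x, HasDerivAt W (W1 x) x)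
    (cW1 : Continuous W1) (hW : ∀ x ∈ Set.Icc α c, 0 ≤ W x)
    (hI : 0 ≤ ∫ x in α..c, (k * W x + (c - x) * W1 x) * (u x * v x)) :
    0 ≤ ∫ x in α..c, W x * (p x * q x) := by
  have hK : (0 : ℝ) ≤ (k : ℝ) + 1 := by positivity
  have cW : Continuous W := continuous_iff_continuousAt.2 fun x => (dW x).continuousAt
  -- (b)
  set D : ℝ → ℝ := fun x => W1 x * ((x - c) * (u x * v x)) +
    W x * (p x * v x + u x * q x - (2 * k + 1) * (u x * v x)) with hD
  have hF : ∀ x ∈ Ioo α c, HasDerivAt (fun x => W x * ((x - c) * (u x * v x)))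
      (D x) x := by
    intro x hx
    have hne : x - c ≠ 0 := by linarith [hx.2]
    have h1 : HasDerivAt (fun s => s - c) 1 x := (hasDerivAt_id x).sub_const c
    have h2 : HasDerivAt (fun s => ((s - c) * v s) / (s - c))
        (((q x - k * v x) * (x - c) - (x - c) * v x * 1) / (x - c) ^ 2) x := (dv x).div h1 hne
    have h3 : HasDerivAt v (((q x - k * v x) * (x - c) - (x - c) * v x * 1) / (x - c) ^ 2) x := by
      refine h2.congr_of_eventuallyEq ?_
      filter_upwards [isOpen_ne.mem_nhds (show x ≠ c from fun h => hne (by rw [h]; ring))] with s hs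
      have : s - c ≠ 0 := sub_ne_zero.2 hs
      field_simp
    have h7 := (dW x).mul ((du x).mul h3)
    have h8 : (fun x => W x * ((x - c) * (u x * v x))) =
        W * ((fun s => (s - c) * u s) * v) := by
      funext s
      simp only [Pi.mul_apply]
      ring
    rw [h8]
    refine h7.congr_deriv ?_
    simp only [hD, Pi.mul_apply]
    field_simp
    ring
  have hDc : Continuous D := by
    rw [hD]
    fun_prop
  have hDint : ∫ x in α..c, D x = W α * ((c - α) * (u α * v α)) := by
    rw [intervalIntegral.integral_eq_sub_of_hasDerivAt_of_le hαc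
      (f := fun x => W x * ((x - c) * (u x * v x)))
      (by fun_prop) hF (hDc.intervalIntegrable _ _)]
    ring
  have hD0 : 0 ≤ ∫ x in α..c, D x := by
    rw [hDint]
    exact mul_nonneg (hW α ⟨le_rfl, hαc⟩) (mul_nonneg (by linarith) huv)
  -- (a)
  have hS : 0 ≤ ∫ x in α..c, W x *
      ((p x - (k + 1) * u x) * (q x - (k + 1) * v x)) := by
    have h0 : ∫ x in α..c, (0 : ℝ) ≤ ∫ x in α..c, W x *
        ((p x - (k + 1) * u x) * (q x - (k + 1) * v x)) := by
      refine intervalIntegral.integral_mono_on_of_le_Ioo hαc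
        (continuous_const.intervalIntegrable _ _)
        (Continuous.intervalIntegrable (by fun_prop) _ _) fun x hx => ?_
      have h1 := step_le k c x hx.2 p u
        (fun s hs => mp ⟨hx.1.le, hx.2.le⟩ ⟨hx.1.le.trans hs.1, hs.2⟩ hs.1) du
      have h2 := step_le k c x hx.2 q v
        (fun s hs => mq ⟨hx.1.le, hx.2.le⟩ ⟨hx.1.le.trans hs.1, hs.2⟩ hs.1) dv
      exact mul_nonneg (hW x ⟨hx.1.le, hx.2.le⟩)
        (mul_nonneg_of_nonpos_of_nonpos (by linarith) (by linarith))
    simpa using h0
  -- (c)
  have hsum : ∫ x in α..c, W x * (p x * q x) =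
      (∫ x in α..c, W x * ((p x - (k + 1) * u x) * (q x - (k + 1) * v x))) +
      ((∫ x in α..c, ((k : ℝ) + 1) * D x) + ∫ x in α..c, ((k : ℝ) + 1) *
        ((k * W x + (c - x) * W1 x) * (u x * v x))) := by
    rw [← intervalIntegral.integral_add (Continuous.intervalIntegrable (by fun_prop) _ _)
      (Continuous.intervalIntegrable (by fun_prop) _ _),
      ← intervalIntegral.integral_add (Continuous.intervalIntegrable (by fun_prop) _ _)
      (Continuous.intervalIntegrable (by fun_prop) _ _)]
    refine intervalIntegral.integral_congr fun x _ => ?_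
    simp only [hD]
    ring
  rw [hsum, intervalIntegral.integral_const_mul, intervalIntegral.integral_const_mul]
  have := mul_nonneg hK hD0
  have := mul_nonneg hK hI
  linarith

end Pool.H34.LP
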