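import Mathlib

set_option autoImplicit false

namespace Pool.H34.LP

open MeasureTheory

lemma identW (j α β a : ℝ) (W W1 p q h g : ℝ → ℝ) (dW : ∀ x, HasDerivAt W (W1 x) x)
    (cW1 : Continuous W1) (hp : Continuous p) (hq : Continuous q)
    (dh : ∀ x, HasDerivAt h (p x) x) (dg : ∀ x, HasDerivAt g (q x) x) :
    ∫ x in α..β, W x * (((x - a) * p x + j * h x) * ((x - a) * q x + j * g x)) =
      (∫ x in α..β, (W x * (x - a) ^ 2) * (p x * q x)) +
        j * (W β * (β - a) * (h β * g β) - W α * (α - a) * (h α * g α)) +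
        j * ∫ x in α..β, ((j - 1) * W x - (x - a) * W1 x) * (h x * g x) := by
  have cW : Continuous W := continuous_iff_continuousAt.2 fun x => (dW x).continuousAt
  have ch : Continuous h := continuous_iff_continuousAt.2 fun x => (dh x).continuousAt
  have cg : Continuous g := continuous_iff_continuousAt.2 fun x => (dg x).continuousAt
  let D : ℝ → ℝ := fun x => (W1 x * (x - a) + W x) * (h x * g x) +
    W x * (x - a) * (p x * g x + h x * q x)
  have cD : Continuous D := by fun_prop
  have key : ∫ x in α..β, D x =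
      W β * (β - a) * (h β * g β) - W α * (α - a) * (h α * g α) := by
    refine intervalIntegral.integral_eq_sub_of_hasDerivAt
      (f := fun x => W x * (x - a) * (h x * g x)) (fun x _ => ?_) (cD.intervalIntegrable _ _)
    have h1 : HasDerivAt (fun x : ℝ => x - a) 1 x := (hasDerivAt_id x).sub_const a
    have h2 := ((dW x).mul h1).mul ((dh x).mul (dg x))
    refine h2.congr_deriv ?_
    simp only [D, Pi.mul_apply]
    ring
  have e1 : ∫ x in α..β, W x * (((x - a) * p x + j * h x) * ((x - a) * q x + j * g x)) =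
      ∫ x in α..β, ((W x * (x - a) ^ 2) * (p x * q x) + j * D x) +
        j * (((j - 1) * W x - (x - a) * W1 x) * (h x * g x)) := by
    apply intervalIntegral.integral_congr
    intro x _
    simp only [D]
    ring
  rw [e1, intervalIntegral.integral_add (Continuous.intervalIntegrable (by fun_prop) _ _)
    (Continuous.intervalIntegrable (by fun_prop) _ _),
    intervalIntegral.integral_add (Continuous.intervalIntegrable (by fun_prop) _ _)
    (Continuous.intervalIntegrable (by fun_prop) _ _),
    intervalIntegral.integral_const_mul, intervalIntegral.integral_const_mul, key]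

lemma ident2 (α β a c : ℝ) (u v u1 v1 u2 v2 : ℝ → ℝ) (d1 : ∀ x, HasDerivAt u (u1 x) x)
    (d2 : ∀ x, HasDerivAt u1 (u2 x) x) (e1 : ∀ x, HasDerivAt v (v1 x) x)
    (e2 : ∀ x, HasDerivAt v1 (v2 x) x) (cu : Continuous u2) (cv : Continuous v2) :
    ∫ x in α..β, (((x - a) * (x - c)) * u2 x + 2 * ((x - a) + (x - c)) * u1 x + 2 * u x) *
        (((x - a) * (x - c)) * v2 x + 2 * ((x - a) + (x - c)) * v1 x + 2 * v x) =
      (∫ x in α..β, ((x - a) ^ 2 * (x - c) ^ 2) * (u2 x * v2 x)) +
        2 * (a - c) ^ 2 * (∫ x in α..β, u1 x * v1 x) +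
        ((2 * (β - a) * ((β - c) * u1 β + u β) * ((β - c) * v1 β + v β) +
            2 * (β - a) ^ 2 * (β - c) * (u1 β * v1 β) + 2 * (β - c) * (u β * v β)) -
          (2 * (α - a) * ((α - c) * u1 α + u α) * ((α - c) * v1 α + v α) +
            2 * (α - a) ^ 2 * (α - c) * (u1 α * v1 α) + 2 * (α - c) * (u α * v α))) := by
  have cu0 : Continuous u := continuous_iff_continuousAt.2 fun x => (d1 x).continuousAt
  have cv0 : Continuous v := continuous_iff_continuousAt.2 fun x => (e1 x).continuousAt
  have cu1 : Continuous u1 := continuous_iff_continuousAt.2 fun x => (d2 x).continuousAt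
  have cv1 : Continuous v1 := continuous_iff_continuousAt.2 fun x => (e2 x).continuousAt
  let D : ℝ → ℝ := fun x =>
    2 * ((x - c) * u1 x + u x) * ((x - c) * v1 x + v x) +
      2 * (x - a) * ((2 * u1 x + (x - c) * u2 x) * ((x - c) * v1 x + v x) +
        ((x - c) * u1 x + u x) * (2 * v1 x + (x - c) * v2 x)) +
      4 * (x - a) * (x - c) * (u1 x * v1 x) + 2 * (x - a) ^ 2 * (u1 x * v1 x) +
      2 * (x - a) ^ 2 * (x - c) * (u2 x * v1 x + u1 x * v2 x) +
      2 * (u x * v x) + 2 * (x - c) * (u1 x * v x + u x * v1 x)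
  have cD : Continuous D := by fun_prop
  have key : ∫ x in α..β, D x =
      (2 * (β - a) * ((β - c) * u1 β + u β) * ((β - c) * v1 β + v β) +
            2 * (β - a) ^ 2 * (β - c) * (u1 β * v1 β) + 2 * (β - c) * (u β * v β)) -
          (2 * (α - a) * ((α - c) * u1 α + u α) * ((α - c) * v1 α + v α) +
            2 * (α - a) ^ 2 * (α - c) * (u1 α * v1 α) + 2 * (α - c) * (u α * v α)) := by
    refine intervalIntegral.integral_eq_sub_of_hasDerivAt
      (f := fun x => 2 * (x - a) * ((x - c) * u1 x + u x) * ((x - c) * v1 x + v x) +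
            2 * (x - a) ^ 2 * (x - c) * (u1 x * v1 x) + 2 * (x - c) * (u x * v x))
      (fun x _ => ?_) (cD.intervalIntegrable _ _)
    have ha : HasDerivAt (fun x : ℝ => x - a) 1 x := (hasDerivAt_id x).sub_const a
    have hc : HasDerivAt (fun x : ℝ => x - c) 1 x := (hasDerivAt_id x).sub_const c
    have hU := (hc.mul (d2 x)).add (d1 x)
    have hV := (hc.mul (e2 x)).add (e1 x)
    have h1 := (((ha.const_mul 2).mul hU).mul hV).add
      (((((ha.pow 2).const_mul 2).mul hc).mul ((d2 x).mul (e2 x))))
    have h2 := h1.add ((hc.const_mul 2).mul ((d1 x).mul (e1 x)))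
    refine h2.congr_deriv ?_
    simp only [D, Pi.mul_apply, Pi.add_apply, Pi.pow_apply]
    ring
  have e : ∫ x in α..β, (((x - a) * (x - c)) * u2 x + 2 * ((x - a) + (x - c)) * u1 x +
        2 * u x) * (((x - a) * (x - c)) * v2 x + 2 * ((x - a) + (x - c)) * v1 x + 2 * v x) =
      ∫ x in α..β, (((x - a) ^ 2 * (x - c) ^ 2) * (u2 x * v2 x) +
        (2 * (a - c) ^ 2) * (u1 x * v1 x)) + D x := by
    apply intervalIntegral.integral_congr
    intro x _
    simp only [D]
    ring
  rw [e, intervalIntegral.integral_add (Continuous.intervalIntegrable (by fun_prop) _ _)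
    (Continuous.intervalIntegrable (by fun_prop) _ _),
    intervalIntegral.integral_add (Continuous.intervalIntegrable (by fun_prop) _ _)
    (Continuous.intervalIntegrable (by fun_prop) _ _),
    intervalIntegral.integral_const_mul, key]

end Pool.H34.LP
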