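import Pool.Agent.Helper34.LP.S2

set_option autoImplicit false

namespace Pool.H34.LP

open Pool.H611.BS

lemma sgn3 (j : ℕ) (X : Finset ℝ) (hX : X.card = j + 3)
    (hX1 : ∀ y ∈ X, y ∈ Set.Icc (-1 : ℝ) 1) (U : ℝ → ℝ) (hU : Mon (j + 2) U)
    (h0 : ∀ y ∈ X, U y = 0) (x : ℝ) (hx : x ∈ Set.Icc (-1 : ℝ) 1) :
    ((∀ y ∈ X, y ≤ x) → 0 ≤ iteratedDeriv j U x) ∧
      ((∀ y ∈ X, x ≤ y) → iteratedDeriv j U x ≤ 0) := by
  obtain ⟨hC, hmon⟩ := hU
  have hCj : ContDiff ℝ (j : WithTop ℕ∞) U := hC.of_le (by exact_mod_cast (by omega : j ≤ j + 2))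
  have hd0 : Differentiable ℝ (iteratedDeriv j U) :=
    hC.differentiable_iteratedDeriv j (by exact_mod_cast (by omega : j < j + 2))
  have hd1 : Differentiable ℝ (iteratedDeriv (j + 1) U) :=
    hC.differentiable_iteratedDeriv (j + 1) (by exact_mod_cast (by omega : j + 1 < j + 2))
  have hne : X.Nonempty := Finset.card_pos.1 (by omega)
  obtain ⟨Z, hZ, hZ'⟩ := s2_rolle j U hCj (X.min' hne) (X.max' hne) 3 X (by omega)
    (fun y hy => ⟨X.min'_le y hy, X.le_max' y hy⟩) h0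
  have hmin := hX1 _ (X.min'_mem hne)
  have hmax := hX1 _ (X.max'_mem hne)
  let e := Z.orderEmbOfFin hZ
  have hmem : ∀ i, e i ∈ Z := fun i => Finset.orderEmbOfFin_mem Z hZ i
  have h01 : e 0 < e 1 := e.strictMono (by decide)
  have h12 : e 1 < e 2 := e.strictMono (by decide)
  have hz0 := hZ' _ (hmem 0)
  have hz1 := hZ' _ (hmem 1)
  have hz2 := hZ' _ (hmem 2)
  obtain ⟨a, ha⟩ : ∃ a, a = e 0 := ⟨_, rfl⟩
  obtain ⟨b, hb⟩ : ∃ b, b = e 1 := ⟨_, rfl⟩
  obtain ⟨c, hc⟩ : ∃ c, c = e 2 := ⟨_, rfl⟩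
  rw [← ha] at h01 hz0
  rw [← hb] at h01 h12 hz1
  rw [← hc] at h12 hz2
  obtain ⟨η, hη, hη0⟩ := exists_deriv_eq_zero h01 hd0.continuous.continuousOn (by rw [hz0.2, hz1.2])
  obtain ⟨θ, hθ, hθ0⟩ := exists_deriv_eq_zero h12 hd0.continuous.continuousOn (by rw [hz1.2, hz2.2])
  rw [← iteratedDeriv_succ] at hη0 hθ0
  have hηθ : η < θ := hη.2.trans hθ.1
  obtain ⟨m, hm, hm0⟩ := exists_deriv_eq_zero hηθ hd1.continuous.continuousOn (by rw [hη0, hθ0])
  rw [← iteratedDeriv_succ] at hm0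
  have hb1 : -1 ≤ a := hmin.1.trans hz0.1.1
  have hb2 : c ≤ 1 := hz2.1.2.trans hmax.2
  have hη1 := hη.1
  have hη2 := hη.2
  have hθ1 := hθ.1
  have hθ2 := hθ.2
  have hm1 := hm.1
  have hm2 := hm.2
  have hmI : m ∈ Set.Icc (-1 : ℝ) 1 := ⟨by linarith, by linarith⟩
  -- the first derivative
  have hM : MonotoneOn (iteratedDeriv (j + 1) U) (Set.Icc m 1) := by
    apply monotoneOn_of_deriv_nonneg (convex_Icc m 1) hd1.continuous.continuousOn
      hd1.differentiableOn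
    intro y hy
    rw [interior_Icc] at hy
    rw [← iteratedDeriv_succ]
    have := hmon hmI ⟨hmI.1.trans hy.1.le, hy.2.le⟩ hy.1.le
    rwa [show j + 2 = j + 1 + 1 from rfl, hm0] at this
  have hA : AntitoneOn (iteratedDeriv (j + 1) U) (Set.Icc (-1) m) := by
    apply antitoneOn_of_deriv_nonpos (convex_Icc (-1) m) hd1.continuous.continuousOn
      hd1.differentiableOn
    intro y hy
    rw [interior_Icc] at hy
    rw [← iteratedDeriv_succ]
    have := hmon ⟨hy.1.le, hy.2.le.trans hmI.2⟩ hmI hy.2.le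
    rwa [show j + 2 = j + 1 + 1 from rfl, hm0] at this
  have hV1 : MonotoneOn (iteratedDeriv j U) (Set.Icc θ 1) := by
    apply monotoneOn_of_deriv_nonneg (convex_Icc θ 1) hd0.continuous.continuousOn
      hd0.differentiableOn
    intro y hy
    rw [interior_Icc] at hy
    rw [← iteratedDeriv_succ]
    have := hM ⟨hm2.le, by linarith⟩ ⟨hm2.le.trans hy.1.le, hy.2.le⟩ hy.1.le
    rwa [hθ0] at this
  have hV2 : MonotoneOn (iteratedDeriv j U) (Set.Icc (-1) η) := by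
    apply monotoneOn_of_deriv_nonneg (convex_Icc (-1) η) hd0.continuous.continuousOn
      hd0.differentiableOn
    intro y hy
    rw [interior_Icc] at hy
    rw [← iteratedDeriv_succ]
    have := hA ⟨hy.1.le, hy.2.le.trans hm1.le⟩ ⟨by linarith, hm1.le⟩ hy.2.le
    rwa [hη0] at this
  constructor
  · intro h
    have hcx : c ≤ x := hz2.1.2.trans (h _ (X.max'_mem hne))
    have h5 := hV1 ⟨hθ2.le, hb2⟩ ⟨hθ2.le.trans hcx, hx.2⟩ hcx
    rwa [hz2.2] at h5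
  · intro h
    have hxa : x ≤ a := (h _ (X.min'_mem hne)).trans hz0.1.1
    have h5 := hV2 ⟨hx.1, hxa.trans hη1.le⟩ ⟨hb1, hη1.le⟩ hxa
    rwa [hz0.2] at h5

end Pool.H34.LP
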