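import Mathlib

open Polynomial

namespace Pool.H34.LP

/-- All derivatives of `W` (including `W` itself) are nonnegative on `[a, ∞)`. -/
def AM (a : ℝ) (W : ℝ[X]) : Prop :=
  ∀ (i : ℕ) (x : ℝ), a ≤ x → 0 ≤ (derivative^[i] W).eval x

lemma AM_pow (a : ℝ) (n : ℕ) : AM a ((X - Polynomial.C a) ^ n) := by
  intro i x hx
  rw [Polynomial.iterate_derivative_X_sub_pow]
  simp only [nsmul_eq_mul, eval_mul, eval_natCast, eval_pow, eval_sub, eval_X, eval_C]
  have : 0 ≤ x - a := by linarith
  positivity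

lemma AM_add' {a : ℝ} {V W : ℝ[X]} (hV : AM a V) (hW : AM a W) : AM a (V + W) := by
  intro i x hx
  rw [iterate_map_add, eval_add]
  exact add_nonneg (hV i x hx) (hW i x hx)

lemma AM_C_mul {a A : ℝ} {W : ℝ[X]} (hA : 0 ≤ A) (hW : AM a W) : AM a (Polynomial.C A * W) := by
  intro i x hx
  rw [Polynomial.iterate_derivative_C_mul, eval_mul, eval_C]
  exact mul_nonneg hA (hW i x hx)

lemma AM_quad (a A B C : ℝ) (hA : 0 ≤ A) (hB : 0 ≤ B) (hC : 0 ≤ C) :
    AM a ((Polynomial.C A * (X - Polynomial.C a) ^ 2 + Polynomial.C B * (X - Polynomial.C a)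
      + Polynomial.C C) * (X - Polynomial.C a) ^ 2) := by
  have h : (Polynomial.C A * (X - Polynomial.C a) ^ 2 + Polynomial.C B * (X - Polynomial.C a)
      + Polynomial.C C) * (X - Polynomial.C a) ^ 2 =
      Polynomial.C A * (X - Polynomial.C a) ^ 4 + Polynomial.C B * (X - Polynomial.C a) ^ 3
      + Polynomial.C C * (X - Polynomial.C a) ^ 2 := by ring
  rw [h]
  exact AM_add' (AM_add' (AM_C_mul hA (AM_pow a 4)) (AM_C_mul hB (AM_pow a 3)))
    (AM_C_mul hC (AM_pow a 2))

lemma AM_two (a c : ℝ) (hac : a ≤ c) :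
    AM c ((X - Polynomial.C a) ^ 2 * (X - Polynomial.C c) ^ 2) := by
  have h : (X - Polynomial.C a) ^ 2 * (X - Polynomial.C c) ^ 2 =
      (Polynomial.C 1 * (X - Polynomial.C c) ^ 2 + Polynomial.C (2 * (c - a)) * (X - Polynomial.C c)
      + Polynomial.C ((c - a) ^ 2)) * (X - Polynomial.C c) ^ 2 := by
    simp only [map_one, map_mul, map_sub, map_pow, map_ofNat]
    ring
  rw [h]
  exact AM_quad c 1 (2 * (c - a)) ((c - a) ^ 2) zero_le_one (by linarith) (by positivity)

lemma AM_mono (a c : ℝ) (hac : a ≤ c) (W : ℝ[X]) (h : AM a W) : AM c W :=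
  fun i x hx => h i x (hac.trans hx)

lemma AM_step_poly (k : ℕ) (β : ℝ) (W : ℝ[X]) (i : ℕ) :
    derivative^[i] (Polynomial.C (k : ℝ) * W + (Polynomial.C β - X) * derivative W) =
      (Polynomial.C (k : ℝ) - Polynomial.C (i : ℝ)) * derivative^[i] W
        + (Polynomial.C β - X) * derivative^[i + 1] W := by
  induction i with
  | zero => simp
  | succ n ih =>
    rw [Function.iterate_succ_apply', ih]
    simp only [derivative_mul, derivative_sub, derivative_C, derivative_X,
      Function.iterate_succ_apply', Nat.cast_add, Nat.cast_one, map_add, map_one]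
    ring

lemma AM_step (k : ℕ) (β x : ℝ) (W : ℝ[X]) (i : ℕ) :
    (derivative^[i] (Polynomial.C (k : ℝ) * W + (Polynomial.C β - X) * derivative W)).eval x =
      (k - i) * (derivative^[i] W).eval x + (β - x) * (derivative^[i + 1] W).eval x := by
  rw [AM_step_poly]
  simp only [eval_add, eval_mul, eval_sub, eval_C, eval_X]

end Pool.H34.LP
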