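import Mathlib
import Pool.Agent.Helper34.LP.W1
import Pool.Agent.Helper34.LP.W2
import Pool.Agent.Helper34.LP.W3
import Pool.Agent.Helper34.LP.W4
import Pool.Agent.Helper34.LP.I5

set_option autoImplicit false

namespace Pool.H34.LP
open MeasureTheory Pool.H611.BS Polynomial

/-- weighted top case, general weights -/
theorem topW (k : ℕ) : ∀ (Z : Finset ℝ), Z.card = k + 1 → (∀ y ∈ Z, y ∈ Set.Icc (-1 : ℝ) 1) →
    ∀ P Q : ℝ → ℝ, Mon k P → Mon k Q → (∀ y ∈ Z, P y = 0) → (∀ y ∈ Z, Q y = 0) →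
    ∀ (α β : ℝ), α ∈ Z → β ∈ Z → (∀ y ∈ Z, α ≤ y ∧ y ≤ β) →
    ∀ W : ℝ[X], (∀ i ≤ k, ∀ x ∈ Set.Icc α β, 0 ≤ (derivative^[i] W).eval x) →
      0 ≤ ∫ x in α..β, W.eval x * (iteratedDeriv k P x * iteratedDeriv k Q x) := by
  induction k with
  | zero =>
    intro Z hZ hZ1 P Q hP hQ hP0 hQ0 α β hα hβ hαβ W _
    rw [Finset.card_eq_one] at hZ
    obtain ⟨z, rfl⟩ := hZ
    rw [Finset.mem_singleton] at hα hβ
    rw [hα, hβ, intervalIntegral.integral_same]
  | succ k ih =>
    intro X' hX hX1 P Q hP hQ hP0 hQ0 α β hα hβ hαβ W hW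
    have hαβ' : α ≤ β := (hαβ α hα).2
    have hβ1 := hX1 β hβ
    have hα1 := hX1 α hα
    obtain ⟨U, hU, hPU⟩ := mon_div k P hP β hβ1 (hP0 β hβ)
    obtain ⟨V, hV, hQV⟩ := mon_div k Q hQ β hβ1 (hQ0 β hβ)
    set Y := X'.erase β with hY
    have hYc : Y.card = k + 1 := by rw [hY, Finset.card_erase_of_mem hβ, hX]; omega
    have hYX : ∀ y ∈ Y, y ∈ X' := fun y hy => Finset.mem_of_mem_erase hy
    have hYne : ∀ y ∈ Y, y ≠ β := fun y hy => Finset.ne_of_mem_erase hy
    have hY1 : ∀ y ∈ Y, y ∈ Set.Icc (-1 : ℝ) 1 := fun y hy => hX1 y (hYX y hy)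
    have hU0 : ∀ y ∈ Y, U y = 0 := by
      intro y hy
      have h1 := hPU y
      rw [hP0 y (hYX y hy)] at h1
      rcases mul_eq_zero.mp h1.symm with h2 | h2
      · exact absurd (sub_eq_zero.mp h2) (hYne y hy)
      · exact h2
    have hV0 : ∀ y ∈ Y, V y = 0 := by
      intro y hy
      have h1 := hQV y
      rw [hQ0 y (hYX y hy)] at h1
      rcases mul_eq_zero.mp h1.symm with h2 | h2
      · exact absurd (sub_eq_zero.mp h2) (hYne y hy)
      · exact h2
    have hYn : Y.Nonempty := by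
      rw [← Finset.card_pos, hYc]; omega
    have hαY : α ∈ Y := by
      rw [hY, Finset.mem_erase]
      refine ⟨?_, hα⟩
      rintro rfl
      obtain ⟨y, hy⟩ := hYn
      have := hαβ y (hYX y hy)
      exact hYne y hy (le_antisymm this.2 this.1)
    obtain ⟨γ, hγ, hγmax⟩ := Y.exists_max_image id hYn
    simp only [id] at hγmax
    have hαγ : α ≤ γ := hγmax α hαY
    have hγβ : γ ≤ β := (hαβ γ (hYX γ hγ)).2
    have cu : Continuous (iteratedDeriv k U) := hU.1.continuous_iteratedDeriv k le_rfl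
    have cv : Continuous (iteratedDeriv k V) := hV.1.continuous_iteratedDeriv k le_rfl
    have cp : Continuous (iteratedDeriv (k + 1) P) := hP.1.continuous_iteratedDeriv (k + 1) le_rfl
    have cq : Continuous (iteratedDeriv (k + 1) Q) := hQ.1.continuous_iteratedDeriv (k + 1) le_rfl
    have hsub : Set.Icc α β ⊆ Set.Icc (-1 : ℝ) 1 := Set.Icc_subset_Icc hα1.1 hβ1.2
    have uα := (sgn1 k Y hYc hY1 U hU hU0 α hα1).2 (fun y hy => (hαβ y (hYX y hy)).1)
    have vα := (sgn1 k Y hYc hY1 V hV hV0 α hα1).2 (fun y hy => (hαβ y (hYX y hy)).1)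
    have hW0 : ∀ x ∈ Set.Icc α β, 0 ≤ W.eval x := fun x hx => by
      simpa using hW 0 (by omega) x hx
    have hW1 : ∀ x ∈ Set.Icc α β, 0 ≤ (derivative W).eval x := fun x hx => by
      simpa using hW 1 (by omega) x hx
    refine stepW k α β hαβ' _ _ (iteratedDeriv k U) (iteratedDeriv k V) cp cq cu cv
      (hP.2.mono hsub) (hQ.2.mono hsub) (hd k β P U hP.1 hU.1 hPU) (hd k β Q V hQ.1 hV.1 hQV)
      (mul_nonneg_of_nonpos_of_nonpos uα vα) (fun x => W.eval x) (fun x => (derivative W).eval x)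
      (fun x => W.hasDerivAt x) (derivative W).continuous hW0 ?_
    set W2 : ℝ[X] := Polynomial.C (k : ℝ) * W + (Polynomial.C β - X) * derivative W with hW2
    have eW2 : ∀ x : ℝ, W2.eval x = k * W.eval x + (β - x) * (derivative W).eval x := by
      intro x
      simp [hW2]
    have hk0 : (0 : ℝ) ≤ k := Nat.cast_nonneg k
    have hnew : ∀ x ∈ Set.Icc α β, 0 ≤ W2.eval x := by
      intro x hx
      rw [eW2]
      have h1 := hW0 x hx
      have h2 := hW1 x hx
      have h3 : 0 ≤ β - x := by linarith [hx.2]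
      positivity
    have cW2 : Continuous (fun x => W2.eval x) := W2.continuous
    have ci : ∀ u v : ℝ, IntervalIntegrable (fun x => W2.eval x *
          (iteratedDeriv k U x * iteratedDeriv k V x)) volume u v := fun u v =>
      (cW2.mul (cu.mul cv)).intervalIntegrable u v
    simp_rw [← eW2]
    rw [← intervalIntegral.integral_add_adjacent_intervals (ci α γ) (ci γ β)]
    have i2 : 0 ≤ ∫ x in γ..β, W2.eval x * (iteratedDeriv k U x * iteratedDeriv k V x) := by
      apply intervalIntegral.integral_nonneg hγβ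
      intro x hx
      have hx1 : x ∈ Set.Icc (-1 : ℝ) 1 := hsub ⟨hαγ.trans hx.1, hx.2⟩
      have s1 := (sgn1 k Y hYc hY1 U hU hU0 x hx1).1 (fun y hy => (hγmax y hy).trans hx.1)
      have s2 := (sgn1 k Y hYc hY1 V hV hV0 x hx1).1 (fun y hy => (hγmax y hy).trans hx.1)
      exact mul_nonneg (hnew x ⟨hαγ.trans hx.1, hx.2⟩) (mul_nonneg s1 s2)
    have i1 := ih Y hYc hY1 U V hU hV hU0 hV0 α γ hαY hγ
      (fun y hy => ⟨(hαβ y (hYX y hy)).1, hγmax y hy⟩) W2 (by
        intro i hi x hx
        rw [hW2, AM_step]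
        have h1 := hW i (by omega) x ⟨hx.1, hx.2.trans hγβ⟩
        have h2 := hW (i + 1) (by omega) x ⟨hx.1, hx.2.trans hγβ⟩
        have h3 : (0 : ℝ) ≤ k - i := by
          have : (i : ℝ) ≤ k := by exact_mod_cast hi
          linarith
        have h4 : 0 ≤ β - x := by linarith [hx.2, hγβ]
        exact add_nonneg (mul_nonneg h3 h1) (mul_nonneg h4 h2))
    linarith

/-- second from the top, with weights -/
theorem hull2W (j : ℕ) : ∀ (Z : Finset ℝ), Z.card = j + 2 → (∀ y ∈ Z, y ∈ Set.Icc (-1 : ℝ) 1) →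
    ∀ P Q : ℝ → ℝ, Mon (j + 1) P → Mon (j + 1) Q → (∀ y ∈ Z, P y = 0) → (∀ y ∈ Z, Q y = 0) →
    ∀ (α β : ℝ), α ∈ Z → β ∈ Z → (∀ y ∈ Z, α ≤ y ∧ y ≤ β) →
    ∀ A B C : ℝ, 0 ≤ A → 0 ≤ B → 0 ≤ C → (j ≤ 2 → A = 0) → (j ≤ 1 → B = 0) →
      0 ≤ ∫ x in α..β, (A * (x - α) ^ 2 + B * (x - α) + C) *
        (iteratedDeriv j P x * iteratedDeriv j Q x) := by
  induction j with
  | zero =>
    intro Z hZ hZ1 P Q hP hQ hP0 hQ0 α β hα hβ hαβ A B C _ _ hC hA' hB'
    have h := hull2 0 Z hZ hZ1 P Q hP hQ hP0 hQ0 α β hα hβ hαβ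
    rw [hA' (by omega), hB' (by omega)]
    have e : ∀ x, (0 * (x - α) ^ 2 + 0 * (x - α) + C) *
        (iteratedDeriv 0 P x * iteratedDeriv 0 Q x) =
        C * (iteratedDeriv 0 P x * iteratedDeriv 0 Q x) := fun x => by ring
    simp_rw [e]
    rw [intervalIntegral.integral_const_mul]
    exact mul_nonneg hC h
  | succ j ih =>
    intro Z hZ hZ1 P Q hP hQ hP0 hQ0 α β hα hβ hαβ A B C hA hB hC hA' hB'
    have hαβ' : α ≤ β := (hαβ α hα).2
    have hα1 := hZ1 α hα
    have hβ1 := hZ1 β hβ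
    obtain ⟨U, hU, hPU⟩ := mon_div (j + 1) P hP α hα1 (hP0 α hα)
    obtain ⟨V, hV, hQV⟩ := mon_div (j + 1) Q hQ α hα1 (hQ0 α hα)
    set Y := Z.erase α with hY
    have hYc : Y.card = j + 2 := by rw [hY, Finset.card_erase_of_mem hα, hZ]; omega
    have hYX : ∀ y ∈ Y, y ∈ Z := fun y hy => Finset.mem_of_mem_erase hy
    have hYne : ∀ y ∈ Y, y ≠ α := fun y hy => Finset.ne_of_mem_erase hy
    have hY1 : ∀ y ∈ Y, y ∈ Set.Icc (-1 : ℝ) 1 := fun y hy => hZ1 y (hYX y hy)
    have hU0 : ∀ y ∈ Y, U y = 0 := by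
      intro y hy
      have h1 := hPU y
      rw [hP0 y (hYX y hy)] at h1
      rcases mul_eq_zero.mp h1.symm with h2 | h2
      · exact absurd (sub_eq_zero.mp h2) (hYne y hy)
      · exact h2
    have hV0 : ∀ y ∈ Y, V y = 0 := by
      intro y hy
      have h1 := hQV y
      rw [hQ0 y (hYX y hy)] at h1
      rcases mul_eq_zero.mp h1.symm with h2 | h2
      · exact absurd (sub_eq_zero.mp h2) (hYne y hy)
      · exact h2
    have hYn : Y.Nonempty := by
      rw [← Finset.card_pos, hYc]; omega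
    have hβY : β ∈ Y := by
      rw [hY, Finset.mem_erase]
      refine ⟨?_, hβ⟩
      rintro rfl
      obtain ⟨y, hy⟩ := hYn
      have := hαβ y (hYX y hy)
      exact hYne y hy (le_antisymm this.2 this.1)
    obtain ⟨γ, hγ, hγmin⟩ := Y.exists_min_image id hYn
    simp only [id] at hγmin
    have hγβ : γ ≤ β := hγmin β hβY
    have hαγ : α ≤ γ := (hαβ γ (hYX γ hγ)).1
    have hsub : Set.Icc α β ⊆ Set.Icc (-1 : ℝ) 1 := Set.Icc_subset_Icc hα1.1 hβ1.2
    have cp : Continuous (iteratedDeriv (j + 1) U) := hU.1.continuous_iteratedDeriv (j + 1) le_rfl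
    have cq : Continuous (iteratedDeriv (j + 1) V) := hV.1.continuous_iteratedDeriv (j + 1) le_rfl
    have dU : ∀ x, HasDerivAt (iteratedDeriv j U) (iteratedDeriv (j + 1) U x) x := by
      intro x
      rw [iteratedDeriv_succ]
      exact ((hU.1.differentiable_iteratedDeriv j (by exact_mod_cast Nat.lt_succ_self j)) x).hasDerivAt
    have dV : ∀ x, HasDerivAt (iteratedDeriv j V) (iteratedDeriv (j + 1) V x) x := by
      intro x
      rw [iteratedDeriv_succ]
      exact ((hV.1.differentiable_iteratedDeriv j (by exact_mod_cast Nat.lt_succ_self j)) x).hasDerivAt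
    have ch : Continuous (iteratedDeriv j U) := continuous_iff_continuousAt.mpr
      (fun x => (dU x).continuousAt)
    have cg : Continuous (iteratedDeriv j V) := continuous_iff_continuousAt.mpr
      (fun x => (dV x).continuousAt)
    have eP : ∀ x, iteratedDeriv (j + 1) P x = (x - α) * iteratedDeriv (j + 1) U x
        + ((j + 1 : ℕ) : ℝ) * iteratedDeriv j U x := by
      intro x
      have h1 := leib (j + 1) α U hU.1 (j + 1) le_rfl x
      have h2 : P = fun s => (s - α) * U s := funext hPU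
      rw [h2]
      simpa using h1
    have eQ : ∀ x, iteratedDeriv (j + 1) Q x = (x - α) * iteratedDeriv (j + 1) V x
        + ((j + 1 : ℕ) : ℝ) * iteratedDeriv j V x := by
      intro x
      have h1 := leib (j + 1) α V hV.1 (j + 1) le_rfl x
      have h2 : Q = fun s => (s - α) * V s := funext hQV
      rw [h2]
      simpa using h1
    simp_rw [eP, eQ]
    set W : ℝ → ℝ := fun x => A * (x - α) ^ 2 + B * (x - α) + C with hWd
    have dW : ∀ x, HasDerivAt W (2 * A * (x - α) + B) x := by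
      intro x
      have h1 : HasDerivAt (fun x : ℝ => x - α) 1 x := (hasDerivAt_id x).sub_const α
      have h2 := ((h1.pow 2).const_mul A).add (h1.const_mul B)
      have h3 := h2.add_const C
      refine h3.congr_deriv ?_
      simp; ring
    have hWn : ∀ x, α ≤ x → 0 ≤ W x := by
      intro x hx
      have : 0 ≤ x - α := by linarith
      simp only [hWd]; positivity
    rw [identW ((j + 1 : ℕ) : ℝ) α β α W (fun x => 2 * A * (x - α) + B) _ _ _ _ dW
      (by fun_prop) cp cq dU dV]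
    have cWc : Continuous W := by simp only [hWd]; fun_prop
    -- first term
    have ci : ∀ u v : ℝ, IntervalIntegrable (fun x =>
        (W x * (x - α) ^ 2) * (iteratedDeriv (j + 1) U x * iteratedDeriv (j + 1) V x)) volume u v :=
      fun u v => (by fun_prop : Continuous (fun x =>
        (W x * (x - α) ^ 2) * (iteratedDeriv (j + 1) U x * iteratedDeriv (j + 1) V x))).intervalIntegrable
          u v
    have t1 : 0 ≤ ∫ x in α..β,
        (W x * (x - α) ^ 2) * (iteratedDeriv (j + 1) U x * iteratedDeriv (j + 1) V x) := by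
      rw [← intervalIntegral.integral_add_adjacent_intervals (ci α γ) (ci γ β)]
      have i1 : 0 ≤ ∫ x in α..γ,
          (W x * (x - α) ^ 2) * (iteratedDeriv (j + 1) U x * iteratedDeriv (j + 1) V x) := by
        apply intervalIntegral.integral_nonneg hαγ
        intro x hx
        have hx1 : x ∈ Set.Icc (-1 : ℝ) 1 := hsub ⟨hx.1, hx.2.trans hγβ⟩
        have s1 := (sgn1 (j + 1) Y hYc hY1 U hU hU0 x hx1).2
          (fun y hy => hx.2.trans (hγmin y hy))
        have s2 := (sgn1 (j + 1) Y hYc hY1 V hV hV0 x hx1).2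
          (fun y hy => hx.2.trans (hγmin y hy))
        exact mul_nonneg (mul_nonneg (hWn x hx.1) (sq_nonneg _))
          (mul_nonneg_of_nonpos_of_nonpos s1 s2)
      have i2 := topW (j + 1) Y hYc hY1 U V hU hV hU0 hV0 γ β hγ hβY
        (fun y hy => ⟨hγmin y hy, (hαβ y (hYX y hy)).2⟩)
        ((Polynomial.C A * (X - Polynomial.C α) ^ 2 + Polynomial.C B * (X - Polynomial.C α)
          + Polynomial.C C) * (X - Polynomial.C α) ^ 2)
        (fun i _ x hx => AM_quad α A B C hA hB hC i x (hαγ.trans hx.1))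
      have e : ∀ x : ℝ, ((Polynomial.C A * (X - Polynomial.C α) ^ 2
          + Polynomial.C B * (X - Polynomial.C α)
          + Polynomial.C C) * (X - Polynomial.C α) ^ 2).eval x = W x * (x - α) ^ 2 := fun x => by
        simp [hWd]
      simp_rw [e] at i2
      linarith
    have s1 := sgn2 j Y hYc hY1 U hU hU0 β hβ1 (Or.inl fun y hy => (hαβ y (hYX y hy)).2)
    have s2 := sgn2 j Y hYc hY1 V hV hV0 β hβ1 (Or.inl fun y hy => (hαβ y (hYX y hy)).2)
    have t2 : 0 ≤ W β * (β - α) * (iteratedDeriv j U β * iteratedDeriv j V β) :=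
      mul_nonneg (mul_nonneg (hWn β hαβ') (by linarith)) (mul_nonneg s1 s2)
    -- third term
    set V2 : ℝ → ℝ := fun x => (((j + 1 : ℕ) : ℝ) - 1) * W x - (x - α) * (2 * A * (x - α) + B)
      with hV2
    have eV2 : ∀ x, V2 x = ((j : ℝ) - 2) * A * (x - α) ^ 2 + ((j : ℝ) - 1) * B * (x - α)
        + j * C := fun x => by simp only [hV2, hWd]; push_cast; ring
    have cV2 : Continuous V2 := by simp only [hV2]; fun_prop
    have hj0 : (0 : ℝ) ≤ j := Nat.cast_nonneg j
    have hA2 : 0 ≤ ((j : ℝ) - 2) * A := by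
      rcases Nat.lt_or_ge j 2 with h | h
      · rw [hA' (by omega)]; simp
      · have : (2 : ℝ) ≤ j := by exact_mod_cast h
        exact mul_nonneg (by linarith) hA
    have hB2 : 0 ≤ ((j : ℝ) - 1) * B := by
      rcases Nat.lt_or_ge j 1 with h | h
      · rw [hB' (by omega)]; simp
      · have : (1 : ℝ) ≤ j := by exact_mod_cast h
        exact mul_nonneg (by linarith) hB
    have hV2n : ∀ x, α ≤ x → 0 ≤ V2 x := by
      intro x hx
      rw [eV2]
      have h1 : 0 ≤ x - α := by linarith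
      have := mul_nonneg hA2 (sq_nonneg (x - α))
      have := mul_nonneg hB2 h1
      have := mul_nonneg hj0 hC
      linarith
    have ci3 : ∀ u v : ℝ, IntervalIntegrable (fun x =>
        V2 x * (iteratedDeriv j U x * iteratedDeriv j V x)) volume u v :=
      fun u v => (cV2.mul (ch.mul cg)).intervalIntegrable u v
    have t3 : 0 ≤ ∫ x in α..β, V2 x * (iteratedDeriv j U x * iteratedDeriv j V x) := by
      rw [← intervalIntegral.integral_add_adjacent_intervals (ci3 α γ) (ci3 γ β)]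
      have i1 : 0 ≤ ∫ x in α..γ, V2 x * (iteratedDeriv j U x * iteratedDeriv j V x) := by
        apply intervalIntegral.integral_nonneg hαγ
        intro x hx
        have hx1 : x ∈ Set.Icc (-1 : ℝ) 1 := hsub ⟨hx.1, hx.2.trans hγβ⟩
        exact mul_nonneg (hV2n x hx.1) (mul_nonneg
          (sgn2 j Y hYc hY1 U hU hU0 x hx1 (Or.inr fun y hy => hx.2.trans (hγmin y hy)))
          (sgn2 j Y hYc hY1 V hV hV0 x hx1 (Or.inr fun y hy => hx.2.trans (hγmin y hy))))
      have hδ : 0 ≤ γ - α := by linarith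
      have i2 := ih Y hYc hY1 U V hU hV hU0 hV0 γ β hγ hβY
        (fun y hy => ⟨hγmin y hy, (hαβ y (hYX y hy)).2⟩)
        (((j : ℝ) - 2) * A) (2 * (((j : ℝ) - 2) * A) * (γ - α) + ((j : ℝ) - 1) * B)
        ((((j : ℝ) - 2) * A) * (γ - α) ^ 2 + (((j : ℝ) - 1) * B) * (γ - α) + j * C)
        hA2 (by positivity) (by positivity)
        (by
          intro h
          rcases Nat.lt_or_ge j 2 with h' | h'
          · rw [hA' (by omega), mul_zero]
          · have : (j : ℝ) = 2 := by exact_mod_cast (by omega : j = 2)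
            rw [this]; ring)
        (by
          intro h
          have hA0 : A = 0 := hA' (by omega)
          rcases Nat.lt_or_ge j 1 with h' | h'
          · rw [hA0, hB' (by omega)]; ring
          · have : (j : ℝ) = 1 := by exact_mod_cast (by omega : j = 1)
            rw [hA0, this]; ring)
      have e : ∀ x : ℝ, (((j : ℝ) - 2) * A * (x - γ) ^ 2
          + (2 * (((j : ℝ) - 2) * A) * (γ - α) + ((j : ℝ) - 1) * B) * (x - γ)
          + ((((j : ℝ) - 2) * A) * (γ - α) ^ 2 + (((j : ℝ) - 1) * B) * (γ - α) + j * C))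
          = V2 x := fun x => by rw [eV2]; ring
      simp_rw [e] at i2
      linarith
    have hj1 : (0 : ℝ) ≤ ((j + 1 : ℕ) : ℝ) := Nat.cast_nonneg _
    have e0 : W α * (α - α) * (iteratedDeriv j U α * iteratedDeriv j V α) = 0 := by ring
    rw [e0, sub_zero]
    have := mul_nonneg hj1 t2
    have := mul_nonneg hj1 t3
    linarith

end Pool.H34.LP
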