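import Mathlib
import Pool.Agent.Helper34.LP.I6

set_option autoImplicit false

namespace Pool.H34.LP
open MeasureTheory Pool.H611.BS Polynomial

lemma div_zero (Z : Finset ℝ) (c : ℝ) (P U : ℝ → ℝ) (hP0 : ∀ y ∈ Z, P y = 0)
    (hPU : ∀ x, P x = (x - c) * U x) : ∀ y ∈ Z.erase c, U y = 0 := by
  intro y hy
  have h1 := hPU y
  rw [hP0 y (Finset.mem_of_mem_erase hy)] at h1
  rcases mul_eq_zero.mp h1.symm with h2 | h2
  · exact absurd (sub_eq_zero.mp h2) (Finset.ne_of_mem_erase hy)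
  · exact h2

lemma dIter (j m : ℕ) (hjm : j < m) (U : ℝ → ℝ) (hU : ContDiff ℝ (m : WithTop ℕ∞) U) (x : ℝ) :
    HasDerivAt (iteratedDeriv j U) (iteratedDeriv (j + 1) U x) x := by
  rw [iteratedDeriv_succ]
  exact ((hU.differentiable_iteratedDeriv j (by exact_mod_cast hjm)) x).hasDerivAt

theorem hull3_base (Z : Finset ℝ) (hZ : Z.card = 5) (hZ1 : ∀ y ∈ Z, y ∈ Set.Icc (-1 : ℝ) 1)
    (P Q : ℝ → ℝ) (hP : Mon 4 P) (hQ : Mon 4 Q) (hP0 : ∀ y ∈ Z, P y = 0)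
    (hQ0 : ∀ y ∈ Z, Q y = 0) (α β : ℝ) (hα : α ∈ Z) (hβ : β ∈ Z)
    (hαβ : ∀ y ∈ Z, α ≤ y ∧ y ≤ β) :
    0 ≤ ∫ x in α..β, iteratedDeriv 2 P x * iteratedDeriv 2 Q x := by
  have hαβ' : α ≤ β := (hαβ α hα).2
  have hα1 := hZ1 α hα
  have hβ1 := hZ1 β hβ
  obtain ⟨P1, hP1, hPP1⟩ := mon_div 3 P hP α hα1 (hP0 α hα)
  obtain ⟨Q1, hQ1, hQQ1⟩ := mon_div 3 Q hQ α hα1 (hQ0 α hα)
  have hYc : (Z.erase α).card = 4 := by rw [Finset.card_erase_of_mem hα, hZ]
  have hP10 := div_zero Z α P P1 hP0 hPP1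
  have hQ10 := div_zero Z α Q Q1 hQ0 hQQ1
  have hYn : (Z.erase α).Nonempty := by
    rw [← Finset.card_pos, hYc]; omega
  obtain ⟨γ, hγ, hγmin⟩ := (Z.erase α).exists_min_image id hYn
  simp only [id] at hγmin
  have hγ1 := hZ1 γ (Finset.mem_of_mem_erase hγ)
  obtain ⟨U, hU, hPU⟩ := mon_div 2 P1 hP1 γ hγ1 (hP10 γ hγ)
  obtain ⟨V, hV, hQV⟩ := mon_div 2 Q1 hQ1 γ hγ1 (hQ10 γ hγ)
  set Y := (Z.erase α).erase γ with hY
  have hY2 : Y.card = 3 := by rw [hY, Finset.card_erase_of_mem hγ, hYc]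
  have hU0 := div_zero (Z.erase α) γ P1 U hP10 hPU
  have hV0 := div_zero (Z.erase α) γ Q1 V hQ10 hQV
  rw [← hY] at hU0 hV0
  have hYZ : ∀ y ∈ Y, y ∈ Z := fun y hy =>
    Finset.mem_of_mem_erase (Finset.mem_of_mem_erase hy)
  have hY1 : ∀ y ∈ Y, y ∈ Set.Icc (-1 : ℝ) 1 := fun y hy => hZ1 y (hYZ y hy)
  have hYγ : ∀ y ∈ Y, γ ≤ y := fun y hy => hγmin y (Finset.mem_of_mem_erase hy)
  have hYn2 : Y.Nonempty := by rw [← Finset.card_pos, hY2]; omega
  have hαγ : α ≤ γ := (hαβ γ (Finset.mem_of_mem_erase hγ)).1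
  obtain ⟨δ, hδ, hδmin⟩ := Y.exists_min_image id hYn2
  obtain ⟨ε, hε, hεmax⟩ := Y.exists_max_image id hYn2
  simp only [id] at hδmin hεmax
  -- β ∈ Y
  have hεβ : ε = β := by
    have h1 : ε ≤ β := (hαβ ε (hYZ ε hε)).2
    by_contra hne
    have hlt : ε < β := lt_of_le_of_ne h1 hne
    have hγε : γ ≤ ε := hYγ ε hε
    have : β ∈ Y := by
      rw [hY, Finset.mem_erase, Finset.mem_erase]
      refine ⟨?_, ?_, hβ⟩
      · intro h; linarith
      · intro h; linarith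
    have := hεmax β this
    linarith
  rw [hεβ] at hε hεmax
  have hδβ : δ ≤ β := hεmax δ hδ
  have hγδ : γ ≤ δ := hYγ δ hδ
  have hαδ : α ≤ δ := hαγ.trans hγδ
  have hsub : Set.Icc α β ⊆ Set.Icc (-1 : ℝ) 1 := Set.Icc_subset_Icc hα1.1 hβ1.2
  have eP : ∀ x, iteratedDeriv 2 P x = ((x - α) * (x - γ)) * iteratedDeriv 2 U x
      + 2 * ((x - α) + (x - γ)) * iteratedDeriv 1 U x + 2 * iteratedDeriv 0 U x := by
    intro x
    have h1 := leib 3 α P1 hP1.1 2 (by norm_num) x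
    have h2 := leib 2 γ U hU.1 2 (by norm_num) x
    have h3 := leib 2 γ U hU.1 1 (by norm_num) x
    have f1 : P = fun s => (s - α) * P1 s := funext hPP1
    have f2 : P1 = fun s => (s - γ) * U s := funext hPU
    rw [f1, h1]
    rw [f2, h2, h3]
    push_cast
    ring
  have eQ : ∀ x, iteratedDeriv 2 Q x = ((x - α) * (x - γ)) * iteratedDeriv 2 V x
      + 2 * ((x - α) + (x - γ)) * iteratedDeriv 1 V x + 2 * iteratedDeriv 0 V x := by
    intro x
    have h1 := leib 3 α Q1 hQ1.1 2 (by norm_num) x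
    have h2 := leib 2 γ V hV.1 2 (by norm_num) x
    have h3 := leib 2 γ V hV.1 1 (by norm_num) x
    have f1 : Q = fun s => (s - α) * Q1 s := funext hQQ1
    have f2 : Q1 = fun s => (s - γ) * V s := funext hQV
    rw [f1, h1]
    rw [f2, h2, h3]
    push_cast
    ring
  simp_rw [eP, eQ]
  have cu : Continuous (iteratedDeriv 2 U) := hU.1.continuous_iteratedDeriv 2 le_rfl
  have cv : Continuous (iteratedDeriv 2 V) := hV.1.continuous_iteratedDeriv 2 le_rfl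
  have dU0 := dIter 0 2 (by norm_num) U hU.1
  have dU1 := dIter 1 2 (by norm_num) U hU.1
  have dV0 := dIter 0 2 (by norm_num) V hV.1
  have dV1 := dIter 1 2 (by norm_num) V hV.1
  have ch : Continuous (iteratedDeriv 1 U) := continuous_iff_continuousAt.mpr
    (fun x => (dU1 x).continuousAt)
  have cg : Continuous (iteratedDeriv 1 V) := continuous_iff_continuousAt.mpr
    (fun x => (dV1 x).continuousAt)
  rw [ident2 α β α γ _ _ _ _ _ _ dU0 dU1 dV0 dV1 cu cv]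
  have ci : ∀ u v : ℝ, IntervalIntegrable (fun x =>
      ((x - α) ^ 2 * (x - γ) ^ 2) * (iteratedDeriv 2 U x * iteratedDeriv 2 V x)) volume u v :=
    fun u v => (by fun_prop : Continuous (fun x =>
      ((x - α) ^ 2 * (x - γ) ^ 2) * (iteratedDeriv 2 U x * iteratedDeriv 2 V x))).intervalIntegrable
        u v
  have t1 : 0 ≤ ∫ x in α..β,
      ((x - α) ^ 2 * (x - γ) ^ 2) * (iteratedDeriv 2 U x * iteratedDeriv 2 V x) := by
    rw [← intervalIntegral.integral_add_adjacent_intervals (ci α δ) (ci δ β)]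
    have i1 : 0 ≤ ∫ x in α..δ,
        ((x - α) ^ 2 * (x - γ) ^ 2) * (iteratedDeriv 2 U x * iteratedDeriv 2 V x) := by
      apply intervalIntegral.integral_nonneg hαδ
      intro x hx
      have hx1 : x ∈ Set.Icc (-1 : ℝ) 1 := hsub ⟨hx.1, hx.2.trans hδβ⟩
      have s1 := (sgn1 2 Y hY2 hY1 U hU hU0 x hx1).2 (fun y hy => hx.2.trans (hδmin y hy))
      have s2 := (sgn1 2 Y hY2 hY1 V hV hV0 x hx1).2 (fun y hy => hx.2.trans (hδmin y hy))
      exact mul_nonneg (by positivity) (mul_nonneg_of_nonpos_of_nonpos s1 s2)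
    have i2 := topW 2 Y hY2 hY1 U V hU hV hU0 hV0 δ β hδ hε
      (fun y hy => ⟨hδmin y hy, hεmax y hy⟩)
      ((X - Polynomial.C α) ^ 2 * (X - Polynomial.C γ) ^ 2)
      (fun i _ x hx => AM_two α γ hαγ i x (hγδ.trans hx.1))
    have e : ∀ x : ℝ, ((X - Polynomial.C α) ^ 2 * (X - Polynomial.C γ) ^ 2 : ℝ[X]).eval x
        = (x - α) ^ 2 * (x - γ) ^ 2 := fun x => by simp
    simp_rw [e] at i2
    linarith
  have ci3 : ∀ u v : ℝ, IntervalIntegrable (fun x =>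
      iteratedDeriv 1 U x * iteratedDeriv 1 V x) volume u v :=
    fun u v => (ch.mul cg).intervalIntegrable u v
  have t2 : 0 ≤ ∫ x in α..β, iteratedDeriv 1 U x * iteratedDeriv 1 V x := by
    rw [← intervalIntegral.integral_add_adjacent_intervals (ci3 α δ) (ci3 δ β)]
    have i1 : 0 ≤ ∫ x in α..δ, iteratedDeriv 1 U x * iteratedDeriv 1 V x := by
      apply intervalIntegral.integral_nonneg hαδ
      intro x hx
      have hx1 : x ∈ Set.Icc (-1 : ℝ) 1 := hsub ⟨hx.1, hx.2.trans hδβ⟩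
      exact mul_nonneg
        (sgn2 1 Y hY2 hY1 U hU hU0 x hx1 (Or.inr fun y hy => hx.2.trans (hδmin y hy)))
        (sgn2 1 Y hY2 hY1 V hV hV0 x hx1 (Or.inr fun y hy => hx.2.trans (hδmin y hy)))
    have i2 := hull2 1 Y hY2 hY1 U V hU hV hU0 hV0 δ β hδ hε
      (fun y hy => ⟨hδmin y hy, hεmax y hy⟩)
    linarith
  have u1 := sgn2 1 Y hY2 hY1 U hU hU0 β hβ1 (Or.inl hεmax)
  have v1 := sgn2 1 Y hY2 hY1 V hV hV0 β hβ1 (Or.inl hεmax)
  have uβ : iteratedDeriv 0 U β = 0 := by rw [iteratedDeriv_zero]; exact hU0 β hε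
  have vβ : iteratedDeriv 0 V β = 0 := by rw [iteratedDeriv_zero]; exact hV0 β hε
  have uα := (sgn3 0 Y hY2 hY1 U hU hU0 α hα1).2 (fun y hy => hαγ.trans (hYγ y hy))
  have vα := (sgn3 0 Y hY2 hY1 V hV hV0 α hα1).2 (fun y hy => hαγ.trans (hYγ y hy))
  have g1 : 0 ≤ β - α := by linarith
  have g2 : 0 ≤ β - γ := by linarith
  have g3 : 0 ≤ γ - α := by linarith
  have b1 : 0 ≤ (β - α) * (((β - γ) * iteratedDeriv 1 U β) * ((β - γ) * iteratedDeriv 1 V β)) := by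
    positivity
  have b2 : 0 ≤ (β - α) ^ 2 * (β - γ) * (iteratedDeriv 1 U β * iteratedDeriv 1 V β) := by
    positivity
  have b3 : 0 ≤ (γ - α) * (iteratedDeriv 0 U α * iteratedDeriv 0 V α) :=
    mul_nonneg g3 (mul_nonneg_of_nonpos_of_nonpos uα vα)
  have b4 : 0 ≤ (α - γ) ^ 2 * ∫ x in α..β, iteratedDeriv 1 U x * iteratedDeriv 1 V x :=
    mul_nonneg (sq_nonneg _) t2
  rw [uβ, vβ]
  nlinarith [b1, b2, b3, b4, t1]

theorem hull3 (j : ℕ) : ∀ (Z : Finset ℝ), Z.card = (j + 2) + 3 →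
    (∀ y ∈ Z, y ∈ Set.Icc (-1 : ℝ) 1) →
    ∀ P Q : ℝ → ℝ, Mon ((j + 2) + 2) P → Mon ((j + 2) + 2) Q → (∀ y ∈ Z, P y = 0) →
    (∀ y ∈ Z, Q y = 0) →
    ∀ (α β : ℝ), α ∈ Z → β ∈ Z → (∀ y ∈ Z, α ≤ y ∧ y ≤ β) →
      0 ≤ ∫ x in α..β, iteratedDeriv (j + 2) P x * iteratedDeriv (j + 2) Q x := by
  induction j with
  | zero =>
    intro Z hZ hZ1 P Q hP hQ hP0 hQ0 α β hα hβ hαβ
    exact hull3_base Z hZ hZ1 P Q hP hQ hP0 hQ0 α β hα hβ hαβ
  | succ j ih =>
    intro Z hZ hZ1 P Q hP hQ hP0 hQ0 α β hα hβ hαβ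
    have hαβ' : α ≤ β := (hαβ α hα).2
    have hα1 := hZ1 α hα
    have hβ1 := hZ1 β hβ
    obtain ⟨U, hU, hPU⟩ := mon_div (j + 2 + 2) P (by
      have : j + 1 + 2 + 2 = j + 2 + 2 + 1 := by omega
      rw [← this]; exact hP) α hα1 (hP0 α hα)
    obtain ⟨V, hV, hQV⟩ := mon_div (j + 2 + 2) Q (by
      have : j + 1 + 2 + 2 = j + 2 + 2 + 1 := by omega
      rw [← this]; exact hQ) α hα1 (hQ0 α hα)
    set Y := Z.erase α with hY
    have hYc : Y.card = j + 2 + 3 := by rw [hY, Finset.card_erase_of_mem hα, hZ]; omega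
    have hYX : ∀ y ∈ Y, y ∈ Z := fun y hy => Finset.mem_of_mem_erase hy
    have hYne : ∀ y ∈ Y, y ≠ α := fun y hy => Finset.ne_of_mem_erase hy
    have hY1 : ∀ y ∈ Y, y ∈ Set.Icc (-1 : ℝ) 1 := fun y hy => hZ1 y (hYX y hy)
    have hU0 : ∀ y ∈ Y, U y = 0 := div_zero Z α P U hP0 hPU
    have hV0 : ∀ y ∈ Y, V y = 0 := div_zero Z α Q V hQ0 hQV
    have hYn : Y.Nonempty := by
      rw [← Finset.card_pos, hYc]; omega
    have hβY : β ∈ Y := by
      rw [hY, Finset.mem_erase]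
      refine ⟨?_, hβ⟩
      rintro rfl
      obtain ⟨y, hy⟩ := hYn
      have := hαβ y (hYX y hy)
      exact hYne y hy (le_antisymm this.2 this.1)
    obtain ⟨γ, hγ, hγmin⟩ := Y.exists_min_image id hYn
    simp only [id] at hγmin
    have hγβ : γ ≤ β := hγmin β hβY
    have hαγ : α ≤ γ := (hαβ γ (hYX γ hγ)).1
    have hsub : Set.Icc α β ⊆ Set.Icc (-1 : ℝ) 1 := Set.Icc_subset_Icc hα1.1 hβ1.2
    have hle1 : ((j + 2 + 1 : ℕ) : WithTop ℕ∞) ≤ ((j + 2 + 2 : ℕ) : WithTop ℕ∞) := by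
      exact_mod_cast Nat.le_succ _
    have cp : Continuous (iteratedDeriv (j + 2 + 1) U) := hU.1.continuous_iteratedDeriv _ hle1
    have cq : Continuous (iteratedDeriv (j + 2 + 1) V) := hV.1.continuous_iteratedDeriv _ hle1
    have dU := dIter (j + 2) (j + 2 + 2) (by omega) U hU.1
    have dV := dIter (j + 2) (j + 2 + 2) (by omega) V hV.1
    have ch : Continuous (iteratedDeriv (j + 2) U) := continuous_iff_continuousAt.mpr
      (fun x => (dU x).continuousAt)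
    have cg : Continuous (iteratedDeriv (j + 2) V) := continuous_iff_continuousAt.mpr
      (fun x => (dV x).continuousAt)
    have eP : ∀ x, iteratedDeriv (j + 1 + 2) P x = (x - α) * iteratedDeriv (j + 2 + 1) U x
        + ((j + 2 + 1 : ℕ) : ℝ) * iteratedDeriv (j + 2) U x := by
      intro x
      have h1 := leib (j + 2 + 2) α U hU.1 (j + 2 + 1) (by omega) x
      have h2 : P = fun s => (s - α) * U s := funext hPU
      have h3 : j + 1 + 2 = j + 2 + 1 := by omega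
      rw [h2, h3]
      simpa using h1
    have eQ : ∀ x, iteratedDeriv (j + 1 + 2) Q x = (x - α) * iteratedDeriv (j + 2 + 1) V x
        + ((j + 2 + 1 : ℕ) : ℝ) * iteratedDeriv (j + 2) V x := by
      intro x
      have h1 := leib (j + 2 + 2) α V hV.1 (j + 2 + 1) (by omega) x
      have h2 : Q = fun s => (s - α) * V s := funext hQV
      have h3 : j + 1 + 2 = j + 2 + 1 := by omega
      rw [h2, h3]
      simpa using h1
    simp_rw [eP, eQ]
    rw [ident ((j + 2 + 1 : ℕ) : ℝ) α β α _ _ _ _ cp cq dU dV]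
    have ci : ∀ u v : ℝ, IntervalIntegrable (fun x =>
        (x - α) ^ 2 * (iteratedDeriv (j + 2 + 1) U x * iteratedDeriv (j + 2 + 1) V x)) volume u v :=
      fun u v => (by fun_prop : Continuous (fun x =>
        (x - α) ^ 2 * (iteratedDeriv (j + 2 + 1) U x *
          iteratedDeriv (j + 2 + 1) V x))).intervalIntegrable u v
    have t1 : 0 ≤ ∫ x in α..β,
        (x - α) ^ 2 * (iteratedDeriv (j + 2 + 1) U x * iteratedDeriv (j + 2 + 1) V x) := by
      rw [← intervalIntegral.integral_add_adjacent_intervals (ci α γ) (ci γ β)]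
      have i1 : 0 ≤ ∫ x in α..γ,
          (x - α) ^ 2 * (iteratedDeriv (j + 2 + 1) U x * iteratedDeriv (j + 2 + 1) V x) := by
        apply intervalIntegral.integral_nonneg hαγ
        intro x hx
        have hx1 : x ∈ Set.Icc (-1 : ℝ) 1 := hsub ⟨hx.1, hx.2.trans hγβ⟩
        have s1 := sgn2 (j + 2 + 1) Y hYc hY1 U hU hU0 x hx1
          (Or.inr fun y hy => hx.2.trans (hγmin y hy))
        have s2 := sgn2 (j + 2 + 1) Y hYc hY1 V hV hV0 x hx1
          (Or.inr fun y hy => hx.2.trans (hγmin y hy))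
        exact mul_nonneg (sq_nonneg _) (mul_nonneg s1 s2)
      have hδ : 0 ≤ γ - α := by linarith
      have i2 := hull2W (j + 2 + 1) Y hYc hY1 U V hU hV hU0 hV0 γ β hγ hβY
        (fun y hy => ⟨hγmin y hy, (hαβ y (hYX y hy)).2⟩) 1 (2 * (γ - α)) ((γ - α) ^ 2)
        zero_le_one (by positivity) (by positivity) (fun h => by omega) (fun h => by omega)
      have e : ∀ x : ℝ, (1 * (x - γ) ^ 2 + 2 * (γ - α) * (x - γ) + (γ - α) ^ 2)
          = (x - α) ^ 2 := fun x => by ring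
      simp_rw [e] at i2
      linarith
    have s1 := (sgn3 (j + 2) Y hYc hY1 U hU hU0 β hβ1).1 (fun y hy => (hαβ y (hYX y hy)).2)
    have s2 := (sgn3 (j + 2) Y hYc hY1 V hV hV0 β hβ1).1 (fun y hy => (hαβ y (hYX y hy)).2)
    have t2 : 0 ≤ (β - α) * (iteratedDeriv (j + 2) U β * iteratedDeriv (j + 2) V β) :=
      mul_nonneg (by linarith) (mul_nonneg s1 s2)
    have ci3 : ∀ u v : ℝ, IntervalIntegrable (fun x =>
        iteratedDeriv (j + 2) U x * iteratedDeriv (j + 2) V x) volume u v :=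
      fun u v => (ch.mul cg).intervalIntegrable u v
    have t3 : 0 ≤ ∫ x in α..β, iteratedDeriv (j + 2) U x * iteratedDeriv (j + 2) V x := by
      rw [← intervalIntegral.integral_add_adjacent_intervals (ci3 α γ) (ci3 γ β)]
      have i1 : 0 ≤ ∫ x in α..γ, iteratedDeriv (j + 2) U x * iteratedDeriv (j + 2) V x := by
        apply intervalIntegral.integral_nonneg hαγ
        intro x hx
        have hx1 : x ∈ Set.Icc (-1 : ℝ) 1 := hsub ⟨hx.1, hx.2.trans hγβ⟩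
        exact mul_nonneg_of_nonpos_of_nonpos
          ((sgn3 (j + 2) Y hYc hY1 U hU hU0 x hx1).2 (fun y hy => hx.2.trans (hγmin y hy)))
          ((sgn3 (j + 2) Y hYc hY1 V hV hV0 x hx1).2 (fun y hy => hx.2.trans (hγmin y hy)))
      have i2 := ih Y hYc hY1 U V hU hV hU0 hV0 γ β hγ hβY
        (fun y hy => ⟨hγmin y hy, (hαβ y (hYX y hy)).2⟩)
      linarith
    have hj0 : (0 : ℝ) ≤ ((j + 2 + 1 : ℕ) : ℝ) := Nat.cast_nonneg _
    have hj1 : (0 : ℝ) ≤ ((j + 2 + 1 : ℕ) : ℝ) - 1 := by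
      push_cast; linarith [Nat.cast_nonneg (α := ℝ) j]
    have e0 : (α - α) * (iteratedDeriv (j + 2) U α * iteratedDeriv (j + 2) V α) = 0 := by ring
    rw [e0, sub_zero]
    have := mul_nonneg hj0 t2
    have := mul_nonneg (mul_nonneg hj0 hj1) t3
    linarith

theorem main3 (j : ℕ) (Z : Finset ℝ) (hj : 2 ≤ j) (hZ : Z.card = j + 3)
    (hZ1 : ∀ y ∈ Z, y ∈ Set.Icc (-1 : ℝ) 1)
    (P Q : ℝ → ℝ) (hP : Mon (j + 2) P) (hQ : Mon (j + 2) Q) (hP0 : ∀ y ∈ Z, P y = 0)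
    (hQ0 : ∀ y ∈ Z, Q y = 0) :
    0 ≤ ∫ x in (-1 : ℝ)..1, iteratedDeriv j P x * iteratedDeriv j Q x := by
  have hXn : Z.Nonempty := by
    rw [← Finset.card_pos, hZ]; omega
  obtain ⟨α, hα, hmin⟩ := Z.exists_min_image id hXn
  obtain ⟨β, hβ, hmax⟩ := Z.exists_max_image id hXn
  simp only [id] at hmin hmax
  have hα1 := hZ1 α hα
  have hβ1 := hZ1 β hβ
  have hle : ((j : ℕ) : WithTop ℕ∞) ≤ ((j + 2 : ℕ) : WithTop ℕ∞) := by
    exact_mod_cast (by omega : j ≤ j + 2)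
  have cP : Continuous (iteratedDeriv j P) := hP.1.continuous_iteratedDeriv j hle
  have cQ : Continuous (iteratedDeriv j Q) := hQ.1.continuous_iteratedDeriv j hle
  have ci : ∀ u v : ℝ, IntervalIntegrable (fun x =>
      iteratedDeriv j P x * iteratedDeriv j Q x) volume u v := fun u v =>
    (cP.mul cQ).intervalIntegrable u v
  have h1 : 0 ≤ ∫ x in (-1 : ℝ)..α, iteratedDeriv j P x * iteratedDeriv j Q x := by
    apply intervalIntegral.integral_nonneg hα1.1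
    intro x hx
    have hx1 : x ∈ Set.Icc (-1 : ℝ) 1 := ⟨hx.1, hx.2.trans hα1.2⟩
    exact mul_nonneg_of_nonpos_of_nonpos
      ((sgn3 j Z hZ hZ1 P hP hP0 x hx1).2 (fun y hy => hx.2.trans (hmin y hy)))
      ((sgn3 j Z hZ hZ1 Q hQ hQ0 x hx1).2 (fun y hy => hx.2.trans (hmin y hy)))
  have h2 : 0 ≤ ∫ x in β..1, iteratedDeriv j P x * iteratedDeriv j Q x := by
    apply intervalIntegral.integral_nonneg hβ1.2
    intro x hx
    have hx1 : x ∈ Set.Icc (-1 : ℝ) 1 := ⟨hβ1.1.trans hx.1, hx.2⟩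
    exact mul_nonneg
      ((sgn3 j Z hZ hZ1 P hP hP0 x hx1).1 (fun y hy => (hmax y hy).trans hx.1))
      ((sgn3 j Z hZ hZ1 Q hQ hQ0 x hx1).1 (fun y hy => (hmax y hy).trans hx.1))
  obtain ⟨i, rfl⟩ : ∃ i, j = i + 2 := ⟨j - 2, by omega⟩
  have h3 := hull3 i Z hZ hZ1 P Q hP hQ hP0 hQ0 α β hα hβ (fun y hy => ⟨hmin y hy, hmax y hy⟩)
  rw [← intervalIntegral.integral_add_adjacent_intervals (ci (-1) α) (ci α 1),
    ← intervalIntegral.integral_add_adjacent_intervals (ci α β) (ci β 1)]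
  linarith

end Pool.H34.LP
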