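import Mathlib
import Pool.Agent.Helper611.BS.PartA
import Pool.Agent.Helper611.BS.PartB
import Pool.Agent.Helper611.BS.PartD

/-!
# The case `k = n - 1` for every exponent `p ≥ 1` from the bound `inside`
-/

set_option autoImplicit false

namespace Pool.H34.LP
open MeasureTheory Pool.H611.BS
noncomputable section

theorem partAp (inside : ∀ (a b : ℝ), a < b → ∀ (M : ℝ → ℝ), Continuous M → (∀ s, 0 ≤ M s) →
    (∫ x in a..b, M x = 1) →
    (∀ c > 0, ∀ s1 s2 s3 : ℝ, s1 < s2 → s2 < s3 → c ≤ M s1 → c ≤ M s3 → c ≤ M s2) →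
    ∀ (g : ℝ → ℝ), Continuous g → (∀ u ∈ Set.Icc a b, ∀ v ∈ Set.Icc a b, |g u - g v| ≤ |u - v|) →
    (∫ x in a..b, M x * g x = 0) → ∀ c : ℝ, (∫ x in a..b, M x * x = c) → ∀ t : ℝ, 0 ≤ t →
    ∫ x in a..b, max (|g x| - t) 0 ≤ ∫ x in a..b, max (|x - c| - t) 0)
    (q : ℕ) (x : Fin (q + 3) → ℝ) (hx : Function.Injective x)
    (hx1 : ∀ i, x i ∈ Set.Icc (-1 : ℝ) 1) (f : ℝ → ℝ)
    (hf : ContDiff ℝ ((q + 2 : ℕ) : WithTop ℕ∞) f)
    (hlip : LipschitzOnWith 1 (iteratedDeriv (q + 2) f) (Set.Icc (-1 : ℝ) 1))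
    (h0 : ∀ i, f (x i) = 0) (p : ℝ) (hp1 : 1 ≤ p) :
    ∫ s in (-1 : ℝ)..1, |iteratedDeriv (q + 2) f s| ^ p ≤
      ∫ s in (-1 : ℝ)..1, |s - (∑ i, x i) / ((q + 1 : ℕ) + 2)| ^ p := by
  have : Nonempty (Fin (q + 3)) := ⟨0⟩
  set w : Fin (q + 3) → ℝ := fun i => (∏ l ∈ Finset.univ.erase i, (x i - x l))⁻¹ with hw
  have hm : ∀ j ≤ q + 1, ∑ i, w i * x i ^ j = 0 := fun j hj => moments_low x hx j (by omega)
  obtain ⟨i0, hi0⟩ := Finite.exists_min x
  obtain ⟨i1, hi1⟩ := Finite.exists_max x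
  set a := x i0 with ha_def
  set b := x i1 with hb_def
  have hab : a < b := by
    have h01 : x (0 : Fin (q + 3)) ≠ x 1 := by
      intro h; have := hx h; simp at this
    rcases lt_or_gt_of_ne h01 with h | h
    · have := hi0 0; have := hi1 1; linarith
    · have := hi0 1; have := hi1 0; linarith
  have ha : -1 ≤ a := (hx1 i0).1
  have hb : b ≤ 1 := (hx1 i1).2
  set g := iteratedDeriv (q + 2) f with hg
  have hgc : Continuous g := hf.continuous_iteratedDeriv (q + 2) le_rfl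
  have hgl : ∀ u ∈ Set.Icc (-1 : ℝ) 1, ∀ v ∈ Set.Icc (-1 : ℝ) 1, |g u - g v| ≤ |u - v| := by
    intro u hu v hv
    have := hlip.dist_le_mul u hu v hv
    simpa [Real.dist_eq] using this
  have hfac : (0 : ℝ) < (q + 1).factorial := by positivity
  -- integral of FF
  have hI1 : ((q + 1 : ℕ) + 1 : ℝ) * ∫ s in a..b, FF w x (q + 1) s = 1 := by
    have hp := peano (q + 1) w x hx1 hm (fun y => y ^ (q + 2)) (by fun_prop)
    have hmt : ∑ i, w i * x i ^ (q + 2) = 1 := moments_top x hx (q + 2) rfl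
    rw [hmt] at hp
    have hs := supp_int (q + 1) w x hm a b ha hab.le hb hi0 hi1 (fun _ => ((q + 2).factorial : ℝ))
      continuous_const
    have e : ∀ s : ℝ, iteratedDeriv (q + 1 + 1) (fun y : ℝ => y ^ (q + 2)) s
        = ((q + 2).factorial : ℝ) := fun s => iter_pow (q + 2) s
    simp_rw [e] at hp
    rw [hs, intervalIntegral.integral_mul_const] at hp
    have hfs : ((q + 2).factorial : ℝ) = ((q + 1 : ℕ) + 1 : ℝ) * (q + 1).factorial := by
      rw [Nat.factorial_succ]; push_cast; ring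
    rw [hfs] at hp
    have hne : ((q + 1).factorial : ℝ) ≠ 0 := hfac.ne'
    have h5 : (1 : ℝ) / ((q + 1).factorial : ℝ) * ((∫ s in a..b, FF w x (q + 1) s) *
        ((((q + 1 : ℕ) : ℝ) + 1) * ((q + 1).factorial : ℝ)))
        = (((q + 1 : ℕ) : ℝ) + 1) * ∫ s in a..b, FF w x (q + 1) s := by
      field_simp
    rw [← h5]; exact hp.symm
  set M : ℝ → ℝ := fun s => ((q + 1 : ℕ) + 1 : ℝ) * FF w x (q + 1) s with hM
  have hc1 : (0 : ℝ) < ((q + 1 : ℕ) + 1 : ℝ) := by positivity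
  have hMint : IntervalIntegrable M volume a b := (FF_int w x (q + 1) a b).const_mul _
  have hM1 : ∫ s in a..b, M s = 1 := by
    rw [hM, intervalIntegral.integral_const_mul]; exact hI1
  have hpos : ∃ s, 0 < FF w x (q + 1) s := by
    by_contra hcon
    push Not at hcon
    have h1 : ∫ s in a..b, FF w x (q + 1) s ≤ 0 := by
      have := intervalIntegral.integral_mono_on hab.le (FF_int w x (q + 1) a b)
        (intervalIntegrable_const (c := (0 : ℝ))) (fun s _ => hcon s)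
      simpa using this
    have h2 : ((q + 1 : ℕ) + 1 : ℝ) * ∫ s in a..b, FF w x (q + 1) s ≤ 0 :=
      mul_nonpos_of_nonneg_of_nonpos hc1.le h1
    linarith
  have hM0 : ∀ s, 0 ≤ M s := fun s => mul_nonneg hc1.le (FF_nonneg q w x hm hpos s)
  have hMc : Continuous M := (FF_cont w x q).const_mul _
  -- centring of g
  have hg0 : ∫ s in a..b, M s * g s = 0 := by
    have hp := peano (q + 1) w x hx1 hm f hf
    have hz : ∑ i, w i * f (x i) = 0 := by simp [h0]
    rw [hz, supp_int (q + 1) w x hm a b ha hab.le hb hi0 hi1 _ hgc] at hp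
    have h3 : ∫ s in a..b, FF w x (q + 1) s * g s = 0 := by
      rcases mul_eq_zero.mp hp.symm with h | h
      · exfalso
        have : (0 : ℝ) < 1 / ((q + 1).factorial : ℝ) := by positivity
        linarith
      · exact h
    have e : ∀ s, M s * g s = ((q + 1 : ℕ) + 1 : ℝ) * (FF w x (q + 1) s * g s) := fun s => by
      simp only [hM]; ring
    simp_rw [e]
    rw [intervalIntegral.integral_const_mul, h3, mul_zero]
  set c := (∑ i, x i) / (((q + 1 : ℕ) : ℝ) + 2) with hc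
  have hcc : ∫ s in a..b, M s * s = c := by
    have hp := peano (q + 1) w x hx1 hm
      (fun y => (∏ i, (y - x i)) / ((q + 1 + 2).factorial : ℝ)) (by fun_prop)
    have hz : ∑ i, w i * ((∏ l, (x i - x l)) / ((q + 1 + 2).factorial : ℝ)) = 0 := by
      apply Finset.sum_eq_zero
      intro i _
      rw [Finset.prod_eq_zero (Finset.mem_univ i) (sub_self _)]
      simp
    rw [hz] at hp
    have e : ∀ s : ℝ, iteratedDeriv (q + 1 + 1) (fun y : ℝ => (∏ i, (y - x i)) /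
        ((q + 1 + 2).factorial : ℝ)) s = s - c := fun s => omega_deriv (q + 1) x s
    simp_rw [e] at hp
    rw [supp_int (q + 1) w x hm a b ha hab.le hb hi0 hi1 (fun s => s - c) (by fun_prop)] at hp
    have h3 : ∫ s in a..b, FF w x (q + 1) s * (s - c) = 0 := by
      rcases mul_eq_zero.mp hp.symm with h | h
      · exfalso
        have : (0 : ℝ) < 1 / ((q + 1).factorial : ℝ) := by positivity
        linarith
      · exact h
    have e2 : ∀ s, M s * s = ((q + 1 : ℕ) + 1 : ℝ) * (FF w x (q + 1) s * (s - c)) + c * M s :=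
      fun s => by simp only [hM]; ring
    simp_rw [e2]
    rw [intervalIntegral.integral_add, intervalIntegral.integral_const_mul,
      intervalIntegral.integral_const_mul, h3, hM1]
    · ring
    · exact ((FF_int w x (q + 1) a b).mul_continuousOn (by fun_prop)).const_mul _
    · exact hMint.const_mul _
  have hq : ∀ c > 0, ∀ s1 s2 s3 : ℝ, s1 < s2 → s2 < s3 → c ≤ M s1 → c ≤ M s3 → c ≤ M s2 := by
    intro c hc s1 s2 s3 h12 h23 h1 h3
    have hc' : 0 < c / ((q + 1 : ℕ) + 1 : ℝ) := by positivity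
    have t1 : c / ((q + 1 : ℕ) + 1 : ℝ) ≤ FF w x (q + 1) s1 := by
      rw [div_le_iff₀ hc1]; simp only [hM] at h1; linarith
    have t3 : c / ((q + 1 : ℕ) + 1 : ℝ) ≤ FF w x (q + 1) s3 := by
      rw [div_le_iff₀ hc1]; simp only [hM] at h3; linarith
    have t2 := quasi q w x hm _ hc' s1 s2 s3 h12 h23 t1 t3
    rw [div_le_iff₀ hc1] at t2
    simp only [hM]; linarith
  have hsub : ∀ u ∈ Set.Icc a b, u ∈ Set.Icc (-1 : ℝ) 1 := fun u hu =>
    ⟨ha.trans hu.1, hu.2.trans hb⟩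
  have hin := inside a b hab M hMc hM0 hM1 hq g hgc
    (fun u hu v hv => hgl u (hsub u hu) v (hsub v hv)) hg0 c hcc
  have hin' : ∫ x in a..b, |g x| ^ p ≤ ∫ x in a..b, |x - c| ^ p :=
    hinge_to_rpow a b hab (fun x => |g x|) (fun x => |x - c|) hgc.abs.continuousOn
      (by fun_prop) (fun x _ => abs_nonneg _) (fun x _ => abs_nonneg _) hin p hp1
  obtain ⟨o1, o2⟩ := outside_bound a b hab ha hb M hMint (fun s _ => hM0 s) hM1 g hgl hg0 c hcc
  exact glue_rpow a b hab ha hb g c hgc p hp1 o1 o2 hin'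

theorem final (inside : ∀ (a b : ℝ), a < b → ∀ (M : ℝ → ℝ), Continuous M → (∀ s, 0 ≤ M s) →
    (∫ x in a..b, M x = 1) →
    (∀ c > 0, ∀ s1 s2 s3 : ℝ, s1 < s2 → s2 < s3 → c ≤ M s1 → c ≤ M s3 → c ≤ M s2) →
    ∀ (g : ℝ → ℝ), Continuous g → (∀ u ∈ Set.Icc a b, ∀ v ∈ Set.Icc a b, |g u - g v| ≤ |u - v|) →
    (∫ x in a..b, M x * g x = 0) → ∀ c : ℝ, (∫ x in a..b, M x * x = c) → ∀ t : ℝ, 0 ≤ t →
    ∫ x in a..b, max (|g x| - t) 0 ≤ ∫ x in a..b, max (|x - c| - t) 0) :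
    ∀ (n : ℕ) (xs : Fin n → ℝ), 2 ≤ n → Function.Injective xs →
      (∀ i, xs i ∈ Set.Icc (-1 : ℝ) 1) →
      ∀ k : ℕ, k = n - 1 → ∀ p : ℝ, 1 ≤ p →
      ∀ f : ℝ → ℝ, ContDiff ℝ ((n - 1 : ℕ) : WithTop ℕ∞) f →
        LipschitzOnWith 1 (iteratedDeriv (n - 1) f) (Set.Icc (-1 : ℝ) 1) →
        (∀ i, f (xs i) = 0) →
        ∫ x in (-1 : ℝ)..1, |iteratedDeriv k f x| ^ p ≤
          ∫ x in (-1 : ℝ)..1,
            |iteratedDeriv k (fun y => (∏ i, (y - xs i)) / (n.factorial : ℝ)) x| ^ p := by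
  intro n xs hn hx hx1 k hk p hp f hf hlip h0
  subst hk
  by_cases h2 : n = 2
  · subst h2
    have e : ∀ y : ℝ, iteratedDeriv (2 - 1) (fun y => (∏ i, (y - xs i)) /
        ((2 : ℕ).factorial : ℝ)) y = y - (xs 0 + xs 1) / 2 := by
      intro y
      have := Pool.H611.BS.omega_deriv 0 xs y
      simpa [Fin.sum_univ_two] using this
    simp_rw [e]
    have e1 : iteratedDeriv (2 - 1) f = deriv f := iteratedDeriv_one
    rw [e1] at hlip ⊢
    exact Pool.H611.BS.partB xs hx hx1 p hp f (by simpa using hf) hlip h0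
  · obtain ⟨q, rfl⟩ : ∃ q, n = q + 3 := ⟨n - 3, by omega⟩
    have e : ∀ y : ℝ, iteratedDeriv (q + 3 - 1) (fun y => (∏ i, (y - xs i)) /
        ((q + 3 : ℕ).factorial : ℝ)) y = y - (∑ i, xs i) / ((q + 1 : ℕ) + 2) :=
      fun y => Pool.H611.BS.omega_deriv (q + 1) xs y
    simp_rw [e]
    exact partAp inside q xs hx hx1 f hf hlip h0 p hp

end
end Pool.H34.LP
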