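import Mathlib
import Pool.Agent.Helper34.LP.S4
import Pool.Agent.Results.MP_0f1375_an.SquareFirstTop

set_option autoImplicit false

namespace Pool.H34.LP
open MeasureTheory Pool.H611.BS
noncomputable section

theorem final3b (main2 : ∀ (j : ℕ) (X : Finset ℝ), X.card = j + 2 →
      (∀ y ∈ X, y ∈ Set.Icc (-1 : ℝ) 1) → ∀ P Q : ℝ → ℝ, Mon (j + 1) P → Mon (j + 1) Q →
      (∀ y ∈ X, P y = 0) → (∀ y ∈ X, Q y = 0) →
      0 ≤ ∫ x in (-1 : ℝ)..1, iteratedDeriv j P x * iteratedDeriv j Q x)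
    (main3 : ∀ (j : ℕ) (X : Finset ℝ), 2 ≤ j → X.card = j + 3 →
      (∀ y ∈ X, y ∈ Set.Icc (-1 : ℝ) 1) → ∀ P Q : ℝ → ℝ, Mon (j + 2) P → Mon (j + 2) Q →
      (∀ y ∈ X, P y = 0) → (∀ y ∈ X, Q y = 0) →
      0 ≤ ∫ x in (-1 : ℝ)..1, iteratedDeriv j P x * iteratedDeriv j Q x) :
    ∀ (n : ℕ) (xs : Fin n → ℝ), 2 ≤ n → Function.Injective xs →
      (∀ i, xs i ∈ Set.Icc (-1 : ℝ) 1) → ∀ k : ℕ, 1 ≤ k → k ≤ n - 1 → n ≤ k + 3 →
      ∀ f : ℝ → ℝ, ContDiff ℝ ((n - 1 : ℕ) : WithTop ℕ∞) f →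
      LipschitzOnWith 1 (iteratedDeriv (n - 1) f) (Set.Icc (-1 : ℝ) 1) →
      (∀ i, f (xs i) = 0) →
      ∫ x in (-1 : ℝ)..1, |iteratedDeriv k f x| ^ (2 : ℝ) ≤
        ∫ x in (-1 : ℝ)..1,
          |iteratedDeriv k (fun y => (∏ i, (y - xs i)) / (n.factorial : ℝ)) x| ^ (2 : ℝ) := by
  intro n xs hn hx hx1 k hk1 hk2 hk3 f hf hlip h0
  by_cases c1 : k = 1 ∨ k = n - 1
  · exact Pool.Agent.Results.MP_0f1375_an.SquareFirstTop.result n xs hn hx hx1 k hk1 hk2 2
      (by norm_num) (Or.inr ⟨rfl, c1⟩) f hf hlip h0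
  push Not at c1
  by_cases c2 : k = n - 2
  · subst c2
    exact final2 main2 n xs (by omega) hx hx1 f hf hlip h0
  obtain ⟨m, rfl⟩ : ∃ m, n = m + 3 := ⟨n - 3, by omega⟩
  have hk : k = m := by omega
  subst hk
  have e1 : k + 3 - 1 = k + 2 := rfl
  rw [e1] at hf hlip
  set ω : ℝ → ℝ := fun y => (∏ i, (y - xs i)) / ((k + 3 : ℕ).factorial : ℝ) with hω
  have hωc : ContDiff ℝ ((k + 2 : ℕ) : WithTop ℕ∞) ω := by
    rw [hω]
    apply ContDiff.div_const
    apply contDiff_prod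
    intro i _
    fun_prop
  have hω0 : ∀ i, ω (xs i) = 0 := by
    intro i
    simp only [hω]
    rw [Finset.prod_eq_zero (Finset.mem_univ i) (sub_self _), zero_div]
  have hωd : ∀ y, iteratedDeriv (k + 2) ω y = y - (∑ i, xs i) / ((k + 1 : ℕ) + 2) := fun y =>
    omega_deriv (k + 1) xs y
  have hfl : ∀ u ∈ Set.Icc (-1 : ℝ) 1, ∀ v ∈ Set.Icc (-1 : ℝ) 1,
      |iteratedDeriv (k + 2) f u - iteratedDeriv (k + 2) f v| ≤ |u - v| := by
    intro u hu v hv
    have := hlip.dist_le_mul u hu v hv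
    simpa [Real.dist_eq] using this
  have monP : Mon (k + 2) (fun s => ω s - f s) := by
    refine ⟨hωc.sub hf, ?_⟩
    intro u hu v hv huv
    have e : ∀ s, iteratedDeriv (k + 2) (fun s => ω s - f s) s
        = iteratedDeriv (k + 2) ω s - iteratedDeriv (k + 2) f s := fun s =>
      iteratedDeriv_fun_sub hωc.contDiffAt hf.contDiffAt
    rw [e, e, hωd, hωd]
    have := hfl u hu v hv
    rw [abs_of_nonpos (show u - v ≤ 0 by linarith)] at this
    have h3 := abs_le.mp this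
    linarith [h3.1, h3.2]
  have monQ : Mon (k + 2) (fun s => ω s + f s) := by
    refine ⟨hωc.add hf, ?_⟩
    intro u hu v hv huv
    have e : ∀ s, iteratedDeriv (k + 2) (fun s => ω s + f s) s
        = iteratedDeriv (k + 2) ω s + iteratedDeriv (k + 2) f s := fun s =>
      iteratedDeriv_fun_add hωc.contDiffAt hf.contDiffAt
    rw [e, e, hωd, hωd]
    have := hfl u hu v hv
    rw [abs_of_nonpos (show u - v ≤ 0 by linarith)] at this
    have h3 := abs_le.mp this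
    linarith [h3.1, h3.2]
  have hX : ∀ y ∈ Finset.univ.image xs, ∃ i, xs i = y := by
    intro y hy
    simpa using hy
  have hm := main3 k (Finset.univ.image xs) (by omega)
    (by rw [Finset.card_image_of_injective _ hx]; simp)
    (fun y hy => by obtain ⟨i, rfl⟩ := hX y hy; exact hx1 i)
    (fun s => ω s - f s) (fun s => ω s + f s) monP monQ
    (fun y hy => by obtain ⟨i, rfl⟩ := hX y hy; simp [hω0, h0])
    (fun y hy => by obtain ⟨i, rfl⟩ := hX y hy; simp [hω0, h0])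
  have hle : ((k : ℕ) : WithTop ℕ∞) ≤ ((k + 2 : ℕ) : WithTop ℕ∞) := by
    exact_mod_cast (by omega : k ≤ k + 2)
  have hfm : ContDiff ℝ (k : WithTop ℕ∞) f := hf.of_le hle
  have hωm : ContDiff ℝ (k : WithTop ℕ∞) ω := hωc.of_le hle
  have dP : ∀ s, iteratedDeriv k (fun s => ω s - f s) s
      = iteratedDeriv k ω s - iteratedDeriv k f s := fun s =>
    iteratedDeriv_fun_sub hωm.contDiffAt hfm.contDiffAt
  have dQ : ∀ s, iteratedDeriv k (fun s => ω s + f s) s
      = iteratedDeriv k ω s + iteratedDeriv k f s := fun s =>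
    iteratedDeriv_fun_add hωm.contDiffAt hfm.contDiffAt
  have e : ∀ s, iteratedDeriv k (fun s => ω s - f s) s * iteratedDeriv k (fun s => ω s + f s) s
      = (iteratedDeriv k ω s) ^ 2 - (iteratedDeriv k f s) ^ 2 := fun s => by
    rw [dP, dQ]; ring
  simp only [e] at hm
  have cω : Continuous (fun s => (iteratedDeriv k ω s) ^ 2) :=
    (hωm.continuous_iteratedDeriv k le_rfl).pow 2
  have cf : Continuous (fun s => (iteratedDeriv k f s) ^ 2) :=
    (hfm.continuous_iteratedDeriv k le_rfl).pow 2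
  have k1 : IntervalIntegrable (fun s => (iteratedDeriv k ω s) ^ 2) volume (-1) 1 :=
    cω.intervalIntegrable _ _
  have k2 : IntervalIntegrable (fun s => (iteratedDeriv k f s) ^ 2) volume (-1) 1 :=
    cf.intervalIntegrable _ _
  rw [intervalIntegral.integral_sub k1 k2] at hm
  have a1 : ∀ t : ℝ, |t| ^ (2 : ℝ) = t ^ 2 := fun t => by
    rw [Real.rpow_two, sq_abs]
  simp only [a1]
  linarith

end
end Pool.H34.LP
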